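import Pool.Agent.Q256.EC.Stm

/-! Project EC (helper256), job CYL. -/

set_option autoImplicit false

namespace Pool.Agent.Q275.EC_CYL

open Pool.Agent.Q170.GP Pool.Agent.Q256.EC

theorem two {p : ℕ} [Fact p.Prime] (θ : ℚ_[p] →+* ℂ) {N : ℕ} {u v : Fin (N + 1) → ℤ_[p]}
    (hu : u ∈ Prim p (Fin (N + 1))) (hv : v ∈ Prim p (Fin (N + 1))) {y : Fin (N + 1) → ℂ} {a b : ℂ}
    (ha : (fun i => tht θ (u i)) = a • y) (hb : (fun i => tht θ (v i)) = b • y) :
    ∃ c : ℤ_[p], IsUnit c ∧ ∀ i, v i = c * u i := by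
  obtain ⟨i0, hi0⟩ := hu
  have ea : ∀ i, tht θ (u i) = a * y i := fun i => congrFun ha i
  have eb : ∀ i, tht θ (v i) = b * y i := fun i => congrFun hb i
  have key : ∀ i, v i * u i0 = v i0 * u i := by
    intro i
    apply tht_injective θ
    rw [map_mul, map_mul, ea, eb, ea, eb]
    ring
  obtain ⟨w, hw⟩ := hi0
  have hc : ∀ i, v i = (v i0 * (w⁻¹ : ℤ_[p]ˣ)) * u i := by
    intro i
    have h1 : v i = v i * u i0 * (w⁻¹ : ℤ_[p]ˣ) := by
      rw [← hw, mul_assoc, Units.mul_inv, mul_one]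
    rw [h1, key]
    ring
  refine ⟨v i0 * (w⁻¹ : ℤ_[p]ˣ), ?_, hc⟩
  obtain ⟨i1, hi1⟩ := hv
  rw [hc i1] at hi1
  exact isUnit_of_mul_isUnit_left hi1

theorem cyl : S_CYL := by
  intro p _ θ N β P hβ hP
  choose y hy c hc using hP
  obtain ⟨n1, n2, hne, he⟩ := Finite.exists_ne_map_eq_of_infinite (fun n => (⟨y n, hy n⟩ : P))
  have he' : y n1 = y n2 := congrArg Subtype.val he
  rcases lt_or_gt_of_ne hne with h | h
  · obtain ⟨c', h1, h2⟩ := two θ (hβ n1) (hβ n2) (hc n1) (by rw [he']; exact hc n2)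
    refine ⟨n1, n2 - n1, c', by omega, h1, fun i => ?_⟩
    rw [show n1 + (n2 - n1) = n2 by omega]
    exact h2 i
  · obtain ⟨c', h1, h2⟩ := two θ (hβ n2) (hβ n1) (hc n2) (by rw [← he']; exact hc n1)
    refine ⟨n2, n1 - n2, c', by omega, h1, fun i => ?_⟩
    rw [show n2 + (n1 - n2) = n1 by omega]
    exact h2 i

end Pool.Agent.Q275.EC_CYL
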