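import Pool.Agent.Q275.Alb.H3

/-!
# Hermitian octonion matrices form a Euclidean cubic norm structure
-/

set_option autoImplicit false

namespace Pool.Agent.Q275.Alb

open Pool.Agent.Q86.Alb

/-- the right hand side of the product formula -/
noncomputable def pf (x y : H3) : H3 :=
  (1 / 2 : ℝ) • (cf x y + (H3.tr x) • y + (H3.tr y) • x -
    (H3.tr x * H3.tr y - H3.form x y) • H3.one)

lemma jm_d0 (x y : H3) : (H3.jmul x y).1 0 =
    (((1 / 2 : ℝ) • (x.toMatrix * y.toMatrix + y.toMatrix * x.toMatrix)) 0 0).re := rfl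
lemma jm_d1 (x y : H3) : (H3.jmul x y).1 1 =
    (((1 / 2 : ℝ) • (x.toMatrix * y.toMatrix + y.toMatrix * x.toMatrix)) 1 1).re := rfl
lemma jm_d2 (x y : H3) : (H3.jmul x y).1 2 =
    (((1 / 2 : ℝ) • (x.toMatrix * y.toMatrix + y.toMatrix * x.toMatrix)) 2 2).re := rfl
lemma jm_o0 (x y : H3) : (H3.jmul x y).2 0 =
    ((1 / 2 : ℝ) • (x.toMatrix * y.toMatrix + y.toMatrix * x.toMatrix)) 1 2 := rfl
lemma jm_o1 (x y : H3) : (H3.jmul x y).2 1 =
    ((1 / 2 : ℝ) • (x.toMatrix * y.toMatrix + y.toMatrix * x.toMatrix)) 2 0 := rfl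
lemma jm_o2 (x y : H3) : (H3.jmul x y).2 2 =
    ((1 / 2 : ℝ) • (x.toMatrix * y.toMatrix + y.toMatrix * x.toMatrix)) 0 1 := rfl

lemma mat_mul (x y : H3) (i j : Fin 3) : (x.toMatrix * y.toMatrix) i j =
    x.toMatrix i 0 * y.toMatrix 0 j + x.toMatrix i 1 * y.toMatrix 1 j +
      x.toMatrix i 2 * y.toMatrix 2 j := by
  rw [Matrix.mul_apply, Fin.sum_univ_three]

lemma tm00 (x : H3) : x.toMatrix 0 0 = Oct.ofReal (x.1 0) := rfl
lemma tm01 (x : H3) : x.toMatrix 0 1 = x.2 2 := rfl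
lemma tm02 (x : H3) : x.toMatrix 0 2 = star (x.2 1) := rfl
lemma tm10 (x : H3) : x.toMatrix 1 0 = star (x.2 2) := rfl
lemma tm11 (x : H3) : x.toMatrix 1 1 = Oct.ofReal (x.1 1) := rfl
lemma tm12 (x : H3) : x.toMatrix 1 2 = x.2 0 := rfl
lemma tm20 (x : H3) : x.toMatrix 2 0 = x.2 1 := rfl
lemma tm21 (x : H3) : x.toMatrix 2 1 = star (x.2 0) := rfl
lemma tm22 (x : H3) : x.toMatrix 2 2 = Oct.ofReal (x.1 2) := rfl

lemma jmul_eq (x y : H3) : H3.jmul x y = pf x y := by
  apply h3_ext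
  · rw [jm_d0, pf, smul_d, sub_d, add_d, add_d, smul_d, smul_d, smul_d, cf_d0, one_d, form_eq,
      H3.tr, H3.tr, Matrix.smul_apply, Matrix.add_apply, re_smul', re_add', mat_mul, mat_mul,
      tm00, tm01, tm02, tm00, tm10, tm20, tm01, tm02, tm10, tm20]
    rw [re_add', re_add', re_add', re_add', ofReal_mul, ofReal_mul, re_smul', re_smul', re_ofReal,
      re_ofReal, re_mul_star, re_mul_star, re_star_mul, re_star_mul, Oct.dot_comm (y.2 2),
      Oct.dot_comm (y.2 1)]
    ring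
  · rw [jm_d1, pf, smul_d, sub_d, add_d, add_d, smul_d, smul_d, smul_d, cf_d1, one_d, form_eq,
      H3.tr, H3.tr, Matrix.smul_apply, Matrix.add_apply, re_smul', re_add', mat_mul, mat_mul,
      tm10, tm11, tm12, tm01, tm11, tm21, tm01, tm10, tm12, tm21]
    rw [re_add', re_add', re_add', re_add', ofReal_mul, ofReal_mul, re_smul', re_smul', re_ofReal,
      re_ofReal, re_mul_star, re_mul_star, re_star_mul, re_star_mul, Oct.dot_comm (y.2 2),
      Oct.dot_comm (y.2 0)]
    ring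
  · rw [jm_d2, pf, smul_d, sub_d, add_d, add_d, smul_d, smul_d, smul_d, cf_d2, one_d, form_eq,
      H3.tr, H3.tr, Matrix.smul_apply, Matrix.add_apply, re_smul', re_add', mat_mul, mat_mul,
      tm20, tm21, tm22, tm02, tm12, tm22, tm02, tm12, tm20, tm21]
    rw [re_add', re_add', re_add', re_add', ofReal_mul, ofReal_mul, re_smul', re_smul', re_ofReal,
      re_ofReal, re_mul_star, re_mul_star, re_star_mul, re_star_mul, Oct.dot_comm (y.2 1),
      Oct.dot_comm (y.2 0)]
    ring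
  · rw [jm_o0, pf, smul_o, sub_o, add_o, add_o, smul_o, smul_o, smul_o, cf_o0, one_o,
      H3.tr, H3.tr, Matrix.smul_apply, Matrix.add_apply, mat_mul, mat_mul,
      tm10, tm11, tm12, tm02, tm12, tm22, tm02, tm10, tm11, tm22]
    rw [ofReal_mul, ofReal_mul, mul_ofReal, mul_ofReal, star_mul', star_mul']
    module
  · rw [jm_o1, pf, smul_o, sub_o, add_o, add_o, smul_o, smul_o, smul_o, cf_o1, one_o,
      H3.tr, H3.tr, Matrix.smul_apply, Matrix.add_apply, mat_mul, mat_mul,
      tm20, tm21, tm22, tm00, tm10, tm20, tm00, tm10, tm21, tm22]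
    rw [ofReal_mul, ofReal_mul, mul_ofReal, mul_ofReal, star_mul', star_mul']
    module
  · rw [jm_o2, pf, smul_o, sub_o, add_o, add_o, smul_o, smul_o, smul_o, cf_o2, one_o,
      H3.tr, H3.tr, Matrix.smul_apply, Matrix.add_apply, mat_mul, mat_mul,
      tm00, tm01, tm02, tm01, tm11, tm21, tm00, tm02, tm11, tm21]
    rw [ofReal_mul, ofReal_mul, mul_ofReal, mul_ofReal, star_mul', star_mul']
    module

/-- the cubic norm structure -/
noncomputable def cubic : Pool.Agent.Q86.Alb.Cubic H3 where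
  cr := cl
  one := H3.one
  cr_comm := cf_comm
  cr_symm x y z := by
    rw [H3.inner_def, H3.inner_def]
    exact cf_symm x y z
  one_one := by
    rw [H3.inner_def, form_one, H3.tr, one_d, one_d, one_d]
    norm_num
  cr_one y := by
    rw [H3.inner_def, form_one]
    exact cf_one y
  adj x := by
    rw [H3.inner_def]
    exact ad_ad x

theorem h3 : StH3 := by
  refine ⟨cubic, rfl, fun x => ?_, fun x y => ?_⟩
  · exact form_one x
  · have h1 : inner ℝ cubic.one x = H3.tr x := form_one x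
    have h2 : inner ℝ cubic.one y = H3.tr y := form_one y
    rw [h1, h2, H3.inner_def]
    exact jmul_eq x y

end Pool.Agent.Q275.Alb
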