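import Pool.Agent.Q275.AlbH3

/-!
# Reduction of a positive trace to the pointwise trace, and Minkowski's inequality
-/

set_option autoImplicit false

namespace Pool.Agent.Q275.Alb

open Pool.Agent.Q86.Alb MeasureTheory

lemma j_d0 (x y : H3) : (H3.jmul x y).1 0 =
    x.1 0 * y.1 0 + (x.2 1).dot (y.2 1) + (x.2 2).dot (y.2 2) := by
  rw [jmul_eq, pf, smul_d, sub_d, add_d, add_d, smul_d, smul_d, smul_d, cf_d0, one_d, form_eq,
    H3.tr, H3.tr]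
  ring

lemma j_d1 (x y : H3) : (H3.jmul x y).1 1 =
    x.1 1 * y.1 1 + (x.2 0).dot (y.2 0) + (x.2 2).dot (y.2 2) := by
  rw [jmul_eq, pf, smul_d, sub_d, add_d, add_d, smul_d, smul_d, smul_d, cf_d1, one_d, form_eq,
    H3.tr, H3.tr]
  ring

lemma j_d2 (x y : H3) : (H3.jmul x y).1 2 =
    x.1 2 * y.1 2 + (x.2 0).dot (y.2 0) + (x.2 1).dot (y.2 1) := by
  rw [jmul_eq, pf, smul_d, sub_d, add_d, add_d, smul_d, smul_d, smul_d, cf_d2, one_d, form_eq,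
    H3.tr, H3.tr]
  ring

lemma j_o0 (x y : H3) : (H3.jmul x y).2 0 = (1 / 2 : ℝ) • (star (x.2 1 * y.2 2) +
    star (y.2 1 * x.2 2) + (x.1 1 + x.1 2) • y.2 0 + (y.1 1 + y.1 2) • x.2 0) := by
  rw [jmul_eq, pf, smul_o, sub_o, add_o, add_o, smul_o, smul_o, smul_o, cf_o0, one_o,
    H3.tr, H3.tr]
  module

lemma j_o1 (x y : H3) : (H3.jmul x y).2 1 = (1 / 2 : ℝ) • (star (x.2 2 * y.2 0) +
    star (y.2 2 * x.2 0) + (x.1 2 + x.1 0) • y.2 1 + (y.1 2 + y.1 0) • x.2 1) := by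
  rw [jmul_eq, pf, smul_o, sub_o, add_o, add_o, smul_o, smul_o, smul_o, cf_o1, one_o,
    H3.tr, H3.tr]
  module

lemma j_o2 (x y : H3) : (H3.jmul x y).2 2 = (1 / 2 : ℝ) • (star (x.2 0 * y.2 1) +
    star (y.2 0 * x.2 1) + (x.1 0 + x.1 1) • y.2 2 + (y.1 0 + y.1 1) • x.2 2) := by
  rw [jmul_eq, pf, smul_o, sub_o, add_o, add_o, smul_o, smul_o, smul_o, cf_o2, one_o,
    H3.tr, H3.tr]
  module

lemma tr_smul (r : ℝ) (x : H3) : H3.tr (r • x) = r * H3.tr x := by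
  rw [H3.tr, smul_d, smul_d, smul_d, H3.tr]; ring

lemma form_smul (r : ℝ) (x y : H3) : H3.form (r • x) y = r * H3.form x y := by
  rw [form_eq, form_eq, smul_d, smul_d, smul_d, smul_o, smul_o, smul_o, Oct.dot_smul,
    Oct.dot_smul, Oct.dot_smul]
  ring

lemma form_comm (x y : H3) : H3.form x y = H3.form y x := by
  rw [form_eq, form_eq, Oct.dot_comm, Oct.dot_comm (x.2 1), Oct.dot_comm (x.2 2)]; ring

lemma jmul_comm (x y : H3) : H3.jmul x y = H3.jmul y x := by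
  rw [jmul_eq, jmul_eq, pf, pf, cf_comm, form_comm, mul_comm (H3.tr x)]
  module

lemma smul_jmul (r : ℝ) (x y : H3) : H3.jmul (r • x) y = r • H3.jmul x y := by
  rw [jmul_eq, jmul_eq, pf, pf, cf_smul, form_smul, tr_smul]
  module

lemma jmul_smul (r : ℝ) (x y : H3) : H3.jmul x (r • y) = r • H3.jmul x y := by
  rw [jmul_comm, smul_jmul, jmul_comm]

lemma zero_jmul (y : H3) : H3.jmul 0 y = 0 := by
  have h := smul_jmul 0 0 y
  rwa [zero_smul, zero_smul] at h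

lemma jmul_zero (y : H3) : H3.jmul y 0 = 0 := by
  rw [jmul_comm, zero_jmul]

lemma hc_jmul (x y : H3) : HC.jmul (x, 0) (y, 0) = (H3.jmul x y, 0) := by
  show (H3.jmul x y - H3.jmul 0 0, H3.jmul x 0 + H3.jmul 0 y) = _
  rw [jmul_zero, zero_jmul, jmul_zero, sub_zero, add_zero]

lemma hc_conj (x : H3) : HC.conj (x, 0) = (x, 0) := by
  show (x, -(0 : H3)) = _
  rw [neg_zero]

lemma hc_csmul (r : ℝ) (x : H3) : HC.csmul (r : ℂ) (x, 0) = (r • x, 0) := by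
  show ((r : ℂ).re • x - (r : ℂ).im • (0 : H3), (r : ℂ).re • (0 : H3) + (r : ℂ).im • x) = _
  rw [Complex.ofReal_re, Complex.ofReal_im, smul_zero, smul_zero, zero_smul, sub_zero, add_zero]

noncomputable instance : FiniteDimensional ℝ Oct :=
  inferInstanceAs (FiniteDimensional ℝ (Quaternion ℝ × Quaternion ℝ))

noncomputable instance : FiniteDimensional ℝ H3 :=
  inferInstanceAs (FiniteDimensional ℝ ((Fin 3 → ℝ) × (Fin 3 → Oct)))

/-- diagonal coordinates -/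
noncomputable def dg (i : Fin 3) : H3 →ₗ[ℝ] ℝ where
  toFun x := x.1 i
  map_add' _ _ := rfl
  map_smul' _ _ := rfl

/-- the part of an element in the place `(1, 2)` -/
noncomputable def oa (x : H3) : H3 := ((fun _ => 0, ![x.2 0, 0, 0]) : (Fin 3 → ℝ) × (Fin 3 → Oct))

lemma oa_d (x : H3) (i : Fin 3) : (oa x).1 i = 0 := rfl
lemma oa_0 (x : H3) : (oa x).2 0 = x.2 0 := rfl
lemma oa_1 (x : H3) : (oa x).2 1 = 0 := rfl
lemma oa_2 (x : H3) : (oa x).2 2 = 0 := rfl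

/-- the part of an element in the places `(2, 0)` and `(0, 1)` -/
noncomputable def ob (x : H3) : H3 :=
  ((fun _ => 0, ![0, x.2 1, x.2 2]) : (Fin 3 → ℝ) × (Fin 3 → Oct))

lemma ob_d (x : H3) (i : Fin 3) : (ob x).1 i = 0 := rfl
lemma ob_0 (x : H3) : (ob x).2 0 = 0 := rfl
lemma ob_1 (x : H3) : (ob x).2 1 = x.2 1 := rfl
lemma ob_2 (x : H3) : (ob x).2 2 = x.2 2 := rfl

/-- as a linear map -/
noncomputable def oal : H3 →ₗ[ℝ] H3 where
  toFun := oa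
  map_add' x y := by
    apply h3_ext
    · rw [add_d, oa_d, oa_d, oa_d, add_zero]
    · rw [add_d, oa_d, oa_d, oa_d, add_zero]
    · rw [add_d, oa_d, oa_d, oa_d, add_zero]
    · rw [add_o, oa_0, oa_0, oa_0, add_o]
    · rw [add_o, oa_1, oa_1, oa_1, add_zero]
    · rw [add_o, oa_2, oa_2, oa_2, add_zero]
  map_smul' r x := by
    rw [RingHom.id_apply]
    apply h3_ext
    · rw [smul_d, oa_d, oa_d, mul_zero]
    · rw [smul_d, oa_d, oa_d, mul_zero]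
    · rw [smul_d, oa_d, oa_d, mul_zero]
    · rw [smul_o, oa_0, oa_0, smul_o]
    · rw [smul_o, oa_1, oa_1, smul_zero]
    · rw [smul_o, oa_2, oa_2, smul_zero]

/-- as a linear map -/
noncomputable def obl : H3 →ₗ[ℝ] H3 where
  toFun := ob
  map_add' x y := by
    apply h3_ext
    · rw [add_d, ob_d, ob_d, ob_d, add_zero]
    · rw [add_d, ob_d, ob_d, ob_d, add_zero]
    · rw [add_d, ob_d, ob_d, ob_d, add_zero]
    · rw [add_o, ob_0, ob_0, ob_0, add_zero]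
    · rw [add_o, ob_1, ob_1, ob_1, add_o]
    · rw [add_o, ob_2, ob_2, ob_2, add_o]
  map_smul' r x := by
    rw [RingHom.id_apply]
    apply h3_ext
    · rw [smul_d, ob_d, ob_d, mul_zero]
    · rw [smul_d, ob_d, ob_d, mul_zero]
    · rw [smul_d, ob_d, ob_d, mul_zero]
    · rw [smul_o, ob_0, ob_0, smul_zero]
    · rw [smul_o, ob_1, ob_1, smul_o]
    · rw [smul_o, ob_2, ob_2, smul_o]

/-- the real octonion unit -/
noncomputable def ou : Oct := Oct.ofReal 1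

lemma ou_dot : ou.dot ou = 1 := by
  rw [← re_mul_star, ou, ofReal_mul, one_smul]
  simp only [Oct.re, star_fst, ofReal_fst, Quaternion.re_star, Quaternion.re_coe]

/-- diagonal idempotents and the elements `E_ij(1) + E_ji(1)` -/
noncomputable def e0 : H3 := ((![1, 0, 0], fun _ => 0) : (Fin 3 → ℝ) × (Fin 3 → Oct))
/-- see `e0` -/
noncomputable def e1 : H3 := ((![0, 1, 0], fun _ => 0) : (Fin 3 → ℝ) × (Fin 3 → Oct))
/-- see `e0` -/
noncomputable def e2 : H3 := ((![0, 0, 1], fun _ => 0) : (Fin 3 → ℝ) × (Fin 3 → Oct))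
/-- see `e0` -/
noncomputable def f1 : H3 := ((fun _ => 0, ![0, 0, ou]) : (Fin 3 → ℝ) × (Fin 3 → Oct))
/-- see `e0` -/
noncomputable def f2 : H3 := ((fun _ => 0, ![0, ou, 0]) : (Fin 3 → ℝ) × (Fin 3 → Oct))

lemma e0_0 : e0.1 0 = 1 := rfl
lemma e0_1 : e0.1 1 = 0 := rfl
lemma e0_2 : e0.1 2 = 0 := rfl
lemma e0_o (i : Fin 3) : e0.2 i = 0 := rfl
lemma e1_0 : e1.1 0 = 0 := rfl
lemma e1_1 : e1.1 1 = 1 := rfl
lemma e1_2 : e1.1 2 = 0 := rfl
lemma e1_o (i : Fin 3) : e1.2 i = 0 := rfl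
lemma e2_0 : e2.1 0 = 0 := rfl
lemma e2_1 : e2.1 1 = 0 := rfl
lemma e2_2 : e2.1 2 = 1 := rfl
lemma e2_o (i : Fin 3) : e2.2 i = 0 := rfl
lemma f1_d (i : Fin 3) : f1.1 i = 0 := rfl
lemma f1_0 : f1.2 0 = 0 := rfl
lemma f1_1 : f1.2 1 = 0 := rfl
lemma f1_2 : f1.2 2 = ou := rfl
lemma f2_d (i : Fin 3) : f2.1 i = 0 := rfl
lemma f2_0 : f2.2 0 = 0 := rfl
lemma f2_1 : f2.2 1 = ou := rfl
lemma f2_2 : f2.2 2 = 0 := rfl

lemma split (x : H3) : x = dg 0 x • e0 + dg 1 x • e1 + dg 2 x • e2 + oa x + ob x := by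
  have h : ∀ i, dg i x = x.1 i := fun i => rfl
  rw [h, h, h]
  apply h3_ext
  · rw [add_d, add_d, add_d, add_d, smul_d, smul_d, smul_d, e0_0, e1_0, e2_0, oa_d, ob_d]; ring
  · rw [add_d, add_d, add_d, add_d, smul_d, smul_d, smul_d, e0_1, e1_1, e2_1, oa_d, ob_d]; ring
  · rw [add_d, add_d, add_d, add_d, smul_d, smul_d, smul_d, e0_2, e1_2, e2_2, oa_d, ob_d]; ring
  · rw [add_o, add_o, add_o, add_o, smul_o, smul_o, smul_o, e0_o, e1_o, e2_o, oa_0, ob_0]; module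
  · rw [add_o, add_o, add_o, add_o, smul_o, smul_o, smul_o, e0_o, e1_o, e2_o, oa_1, ob_1]; module
  · rw [add_o, add_o, add_o, add_o, smul_o, smul_o, smul_o, e0_o, e1_o, e2_o, oa_2, ob_2]; module

lemma dot_zero (x : Oct) : x.dot 0 = 0 := by rw [Oct.dot_comm, zero_dot]

lemma e0_e0 : H3.jmul e0 e0 = e0 := by
  apply h3_ext
  · rw [j_d0, e0_0, e0_o, e0_o, dot_zero]; ring
  · rw [j_d1, e0_1, e0_o, e0_o, dot_zero]; ring
  · rw [j_d2, e0_2, e0_o, e0_o, dot_zero]; ring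
  · rw [j_o0, e0_o, e0_o, e0_o, mul_zero', star_zero']; module
  · rw [j_o1, e0_o, e0_o, e0_o, mul_zero', star_zero']; module
  · rw [j_o2, e0_o, e0_o, e0_o, mul_zero', star_zero']; module

lemma e1_e1 : H3.jmul e1 e1 = e1 := by
  apply h3_ext
  · rw [j_d0, e1_0, e1_o, e1_o, dot_zero]; ring
  · rw [j_d1, e1_1, e1_o, e1_o, dot_zero]; ring
  · rw [j_d2, e1_2, e1_o, e1_o, dot_zero]; ring
  · rw [j_o0, e1_o, e1_o, e1_o, mul_zero', star_zero']; module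
  · rw [j_o1, e1_o, e1_o, e1_o, mul_zero', star_zero']; module
  · rw [j_o2, e1_o, e1_o, e1_o, mul_zero', star_zero']; module

lemma e0_ob (x : H3) : H3.jmul e0 (ob x) = (1 / 2 : ℝ) • ob x := by
  apply h3_ext
  · rw [j_d0, smul_d, ob_d, e0_o, e0_o, zero_dot, zero_dot]; ring
  · rw [j_d1, smul_d, ob_d, e0_o, e0_o, zero_dot, zero_dot]; ring
  · rw [j_d2, smul_d, ob_d, e0_o, e0_o, zero_dot, zero_dot]; ring
  · rw [j_o0, smul_o, ob_0, ob_d, ob_d, e0_o, e0_o, e0_1, e0_2, zero_mul', mul_zero', star_zero']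
    module
  · rw [j_o1, smul_o, ob_0, ob_1, ob_d, ob_d, e0_o, e0_o, e0_0, e0_2, mul_zero', mul_zero',
      star_zero']
    module
  · rw [j_o2, smul_o, ob_0, ob_1, ob_2, ob_d, ob_d, e0_o, e0_o, e0_0, e0_1, mul_zero', zero_mul',
      star_zero']
    module

lemma e1_oa (x : H3) : H3.jmul e1 (oa x) = (1 / 2 : ℝ) • oa x := by
  apply h3_ext
  · rw [j_d0, smul_d, oa_d, e1_o, e1_o, zero_dot, zero_dot]; ring
  · rw [j_d1, smul_d, oa_d, e1_o, e1_o, zero_dot, zero_dot]; ring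
  · rw [j_d2, smul_d, oa_d, e1_o, e1_o, zero_dot, zero_dot]; ring
  · rw [j_o0, smul_o, oa_0, oa_1, oa_2, oa_d, oa_d, e1_o, e1_o, e1_o, e1_1, e1_2, mul_zero',
      star_zero']
    module
  · rw [j_o1, smul_o, oa_1, oa_0, oa_2, oa_d, oa_d, e1_o, e1_o, e1_0, e1_2, zero_mul',
      mul_zero', star_zero']
    module
  · rw [j_o2, smul_o, oa_1, oa_0, oa_2, oa_d, oa_d, e1_o, e1_o, e1_0, e1_1, mul_zero',
      star_zero', mul_zero', star_zero']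
    module

lemma f1_f1 : H3.jmul f1 f1 = e0 + e1 := by
  apply h3_ext
  · rw [j_d0, add_d, f1_d, f1_1, f1_2, ou_dot, dot_zero, e0_0, e1_0]; ring
  · rw [j_d1, add_d, f1_d, f1_0, f1_2, ou_dot, dot_zero, e0_1, e1_1]; ring
  · rw [j_d2, add_d, f1_d, f1_0, f1_1, dot_zero, e0_2, e1_2]; ring
  · rw [j_o0, add_o, f1_d, f1_d, f1_0, f1_1, f1_2, e0_o, e1_o, zero_mul', star_zero']; module
  · rw [j_o1, add_o, f1_d, f1_d, f1_0, f1_1, f1_2, e0_o, e1_o, mul_zero', star_zero']; module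
  · rw [j_o2, add_o, f1_d, f1_d, f1_0, f1_1, f1_2, e0_o, e1_o, mul_zero', star_zero']; module

lemma f2_f2 : H3.jmul f2 f2 = e0 + e2 := by
  apply h3_ext
  · rw [j_d0, add_d, f2_d, f2_1, f2_2, ou_dot, dot_zero, e0_0, e2_0]; ring
  · rw [j_d1, add_d, f2_d, f2_0, f2_2, dot_zero, e0_1, e2_1]; ring
  · rw [j_d2, add_d, f2_d, f2_0, f2_1, ou_dot, dot_zero, e0_2, e2_2]; ring
  · rw [j_o0, add_o, f2_d, f2_d, f2_0, f2_1, f2_2, e0_o, e2_o, mul_zero', star_zero']; module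
  · rw [j_o1, add_o, f2_d, f2_d, f2_0, f2_1, f2_2, e0_o, e2_o, mul_zero', star_zero']; module
  · rw [j_o2, add_o, f2_d, f2_d, f2_0, f2_1, f2_2, e0_o, e2_o, zero_mul', star_zero']; module

lemma f1_e0 : H3.jmul f1 e0 = (1 / 2 : ℝ) • f1 := by
  apply h3_ext
  · rw [j_d0, smul_d, f1_d, e0_o, e0_o, dot_zero, dot_zero]; ring
  · rw [j_d1, smul_d, f1_d, e0_o, e0_o, dot_zero, dot_zero]; ring
  · rw [j_d2, smul_d, f1_d, e0_o, e0_o, dot_zero, dot_zero]; ring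
  · rw [j_o0, smul_o, f1_d, f1_d, f1_0, f1_1, f1_2, e0_o, e0_o, e0_1, e0_2, mul_zero', zero_mul',
      star_zero']
    module
  · rw [j_o1, smul_o, f1_d, f1_d, f1_0, f1_1, f1_2, e0_o, e0_o, e0_0, e0_2, mul_zero', zero_mul',
      star_zero']
    module
  · rw [j_o2, smul_o, f1_d, f1_d, f1_0, f1_1, f1_2, e0_o, e0_o, e0_0, e0_1, mul_zero',
      star_zero']
    module

lemma f2_e0 : H3.jmul f2 e0 = (1 / 2 : ℝ) • f2 := by
  apply h3_ext
  · rw [j_d0, smul_d, f2_d, e0_o, e0_o, dot_zero, dot_zero]; ring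
  · rw [j_d1, smul_d, f2_d, e0_o, e0_o, dot_zero, dot_zero]; ring
  · rw [j_d2, smul_d, f2_d, e0_o, e0_o, dot_zero, dot_zero]; ring
  · rw [j_o0, smul_o, f2_d, f2_d, f2_0, f2_1, f2_2, e0_o, e0_o, e0_1, e0_2, mul_zero', mul_zero',
      star_zero']
    module
  · rw [j_o1, smul_o, f2_d, f2_d, f2_0, f2_1, f2_2, e0_o, e0_o, e0_0, e0_2, mul_zero',
      star_zero']
    module
  · rw [j_o2, smul_o, f2_d, f2_d, f2_0, f2_1, f2_2, e0_o, e0_o, e0_0, e0_1, mul_zero', zero_mul',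
      star_zero']
    module

lemma e01_e0 : H3.jmul (e0 + e1) e0 = e0 := by
  apply h3_ext
  · rw [j_d0, add_d, e0_0, e1_0, e0_o, e0_o, dot_zero, dot_zero]; ring
  · rw [j_d1, add_d, e0_1, e0_o, e0_o, dot_zero, dot_zero]; ring
  · rw [j_d2, add_d, e0_2, e0_o, e0_o, dot_zero, dot_zero]; ring
  · rw [j_o0, add_o, add_o, add_o, e0_o, e0_o, e0_o, e1_o, e1_o, e1_o, mul_zero', zero_add,
      zero_mul', star_zero']
    module
  · rw [j_o1, add_o, add_o, add_o, e0_o, e0_o, e0_o, e1_o, e1_o, e1_o, mul_zero', zero_add,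
      zero_mul', star_zero']
    module
  · rw [j_o2, add_o, add_o, add_o, e0_o, e0_o, e0_o, e1_o, e1_o, e1_o, mul_zero', zero_add,
      zero_mul', star_zero']
    module

lemma e02_e0 : H3.jmul (e0 + e2) e0 = e0 := by
  apply h3_ext
  · rw [j_d0, add_d, e0_0, e2_0, e0_o, e0_o, dot_zero, dot_zero]; ring
  · rw [j_d1, add_d, e0_1, e0_o, e0_o, dot_zero, dot_zero]; ring
  · rw [j_d2, add_d, e0_2, e0_o, e0_o, dot_zero, dot_zero]; ring
  · rw [j_o0, add_o, add_o, add_o, e0_o, e0_o, e0_o, e2_o, e2_o, e2_o, mul_zero', zero_add,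
      zero_mul', star_zero']
    module
  · rw [j_o1, add_o, add_o, add_o, e0_o, e0_o, e0_o, e2_o, e2_o, e2_o, mul_zero', zero_add,
      zero_mul', star_zero']
    module
  · rw [j_o2, add_o, add_o, add_o, e0_o, e0_o, e0_o, e2_o, e2_o, e2_o, mul_zero', zero_add,
      zero_mul', star_zero']
    module

section
variable {Ω : Type*} [MeasurableSpace Ω] {μ : Measure Ω} {τ : (Ω → HC) → ℂ}

lemma memE {u : Ω → H3} (hu : MemLp u ⊤ μ) : MemLp (fun ω => ((u ω, 0) : HC)) ⊤ μ :=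
  (ContinuousLinearMap.inl ℝ H3 H3).comp_memLp' hu

lemma memL {E : Type*} [NormedAddCommGroup E] [NormedSpace ℝ E] (L : H3 →ₗ[ℝ] E) {u : Ω → H3}
    (hu : MemLp u ⊤ μ) : MemLp (fun ω => L (u ω)) ⊤ μ :=
  (LinearMap.toContinuousLinearMap L).comp_memLp' hu

lemma memS {f : Ω → ℝ} (hf : MemLp f ⊤ μ) (a : H3) : MemLp (fun ω => f ω • a) ⊤ μ :=
  (ContinuousLinearMap.toSpanSingleton ℝ a).comp_memLp' hf

lemma memC (a : H3) : MemLp (fun _ : Ω => a) ⊤ μ := memLp_top_const a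

/-- the functional on functions with values in `H3` -/
noncomputable def T (τ : (Ω → HC) → ℂ) (u : Ω → H3) : ℂ := τ fun ω => (u ω, 0)

lemma T_add (h : IsPosTrace μ τ) {u v : Ω → H3} (hu : MemLp u ⊤ μ) (hv : MemLp v ⊤ μ) :
    T τ (fun ω => u ω + v ω) = T τ u + T τ v := by
  rw [T, T, T, ← h.add _ _ (memE hu) (memE hv)]
  congr 1
  funext ω
  exact Prod.ext rfl (add_zero (0 : H3)).symm

lemma T_smul (h : IsPosTrace μ τ) (r : ℝ) {u : Ω → H3} (hu : MemLp u ⊤ μ) :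
    T τ (fun ω => r • u ω) = r * T τ u := by
  rw [T, T, ← h.smul _ _ (memE hu)]
  congr 1
  funext ω
  exact (hc_csmul r (u ω)).symm

lemma T_congr (h : IsPosTrace μ τ) {u v : Ω → H3} (hu : MemLp u ⊤ μ) (hv : MemLp v ⊤ μ)
    (e : u =ᵐ[μ] v) : T τ u = T τ v := by
  refine h.congr _ _ (memE hu) (memE hv) ?_
  filter_upwards [e] with ω hω
  rw [hω]

lemma T_trace (h : IsPosTrace μ τ) {x y z : Ω → H3} (hx : MemLp x ⊤ μ) (hy : MemLp y ⊤ μ)
    (hz : MemLp z ⊤ μ) :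
    T τ (fun ω => H3.jmul (x ω) (H3.jmul (y ω) (z ω))) =
      T τ (fun ω => H3.jmul (H3.jmul (x ω) (y ω)) (z ω)) := by
  have e := h.trace _ _ _ (memE hx) (memE hy) (memE hz)
  simp only [hc_jmul] at e
  exact e

lemma T_kill (h : IsPosTrace μ τ) {e : H3} (he : H3.jmul e e = e) {z : Ω → H3}
    (hz : MemLp z ⊤ μ) (hez : ∀ ω, H3.jmul e (z ω) = (1 / 2 : ℝ) • z ω) : T τ z = 0 := by
  have h1 := T_trace h (memC e) (memC e) hz
  simp only [he, hez, jmul_smul] at h1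
  have m1 : MemLp (fun ω => (1 / 2 : ℝ) • z ω) ⊤ μ := hz.const_smul (1 / 2 : ℝ)
  rw [T_smul h _ m1, T_smul h _ hz] at h1
  have h2 : (((1 / 2 : ℝ) : ℂ)) = 1 / 2 := by push_cast; rfl
  rw [h2] at h1
  linear_combination (-4 : ℂ) * h1

/-- the functional on real functions -/
noncomputable def phi (τ : (Ω → HC) → ℂ) (f : Ω → ℝ) : ℂ := T τ fun ω => f ω • e0

lemma T_e1 (h : IsPosTrace μ τ) {f : Ω → ℝ} (hf : MemLp f ⊤ μ) :
    T τ (fun ω => f ω • e1) = phi τ f := by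
  have h1 := T_trace h (memS hf f1) (memC f1) (memC e0)
  simp only [f1_e0, jmul_smul, smul_jmul, f1_f1, e01_e0] at h1
  rw [T_smul h _ (memS hf (e0 + e1))] at h1
  simp only [smul_add] at h1
  rw [T_add h (memS hf e0) (memS hf e1)] at h1
  have h2 : (((1 / 2 : ℝ) : ℂ)) = 1 / 2 := by push_cast; rfl
  rw [h2] at h1
  rw [phi]
  linear_combination 2 * h1

lemma T_e2 (h : IsPosTrace μ τ) {f : Ω → ℝ} (hf : MemLp f ⊤ μ) :
    T τ (fun ω => f ω • e2) = phi τ f := by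
  have h1 := T_trace h (memS hf f2) (memC f2) (memC e0)
  simp only [f2_e0, jmul_smul, smul_jmul, f2_f2, e02_e0] at h1
  rw [T_smul h _ (memS hf (e0 + e2))] at h1
  simp only [smul_add] at h1
  rw [T_add h (memS hf e0) (memS hf e2)] at h1
  have h2 : (((1 / 2 : ℝ) : ℂ)) = 1 / 2 := by push_cast; rfl
  rw [h2] at h1
  rw [phi]
  linear_combination 2 * h1

lemma phi_add (h : IsPosTrace μ τ) {f g : Ω → ℝ} (hf : MemLp f ⊤ μ) (hg : MemLp g ⊤ μ) :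
    phi τ (fun ω => f ω + g ω) = phi τ f + phi τ g := by
  rw [phi, phi, phi, ← T_add h (memS hf e0) (memS hg e0)]
  congr 1
  funext ω
  rw [add_smul]

lemma phi_smul (h : IsPosTrace μ τ) (r : ℝ) {f : Ω → ℝ} (hf : MemLp f ⊤ μ) :
    phi τ (fun ω => r * f ω) = r * phi τ f := by
  rw [phi, phi, ← T_smul h _ (memS hf e0)]
  congr 1
  funext ω
  rw [mul_smul]

lemma phi_congr (h : IsPosTrace μ τ) {f g : Ω → ℝ} (hf : MemLp f ⊤ μ) (hg : MemLp g ⊤ μ)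
    (e : f =ᵐ[μ] g) : phi τ f = phi τ g := by
  refine T_congr h (memS hf e0) (memS hg e0) ?_
  filter_upwards [e] with ω hω
  rw [hω]

lemma T_tr (h : IsPosTrace μ τ) {u : Ω → H3} (hu : MemLp u ⊤ μ) :
    T τ u = phi τ (fun ω => (u ω).tr) := by
  have d0 := memL (dg 0) hu
  have d1 := memL (dg 1) hu
  have d2 := memL (dg 2) hu
  have a1 : MemLp (fun ω => oa (u ω)) ⊤ μ := memL oal hu
  have b1 : MemLp (fun ω => ob (u ω)) ⊤ μ := memL obl hu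
  have ka : T τ (fun ω => oa (u ω)) = 0 := T_kill h e1_e1 a1 fun ω => e1_oa (u ω)
  have kb : T τ (fun ω => ob (u ω)) = 0 := T_kill h e0_e0 b1 fun ω => e0_ob (u ω)
  have s0 := memS d0 e0
  have s1 := memS d1 e1
  have s2 := memS d2 e2
  have s01 : MemLp (fun ω => dg 0 (u ω) • e0 + dg 1 (u ω) • e1) ⊤ μ := s0.add s1
  have s012 : MemLp (fun ω => dg 0 (u ω) • e0 + dg 1 (u ω) • e1 + dg 2 (u ω) • e2) ⊤ μ :=
    s01.add s2
  have s3 : MemLp (fun ω => dg 0 (u ω) • e0 + dg 1 (u ω) • e1 + dg 2 (u ω) • e2 + oa (u ω)) ⊤ μ :=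
    s012.add a1
  have hs : u = fun ω => dg 0 (u ω) • e0 + dg 1 (u ω) • e1 + dg 2 (u ω) • e2 + oa (u ω) +
      ob (u ω) := by
    funext ω
    exact split (u ω)
  have hT : T τ u = T τ (fun ω => dg 0 (u ω) • e0 + dg 1 (u ω) • e1 + dg 2 (u ω) • e2 +
      oa (u ω) + ob (u ω)) := congrArg (T τ) hs
  rw [hT, T_add h s3 b1, T_add h s012 a1, T_add h s01 s2, T_add h s0 s1, ka, kb, T_e1 h d1,
    T_e2 h d2, add_zero, add_zero]
  have d01 : MemLp (fun ω => dg 0 (u ω) + dg 1 (u ω)) ⊤ μ := d0.add d1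
  have e : phi τ (fun ω => (u ω).tr) = phi τ (fun ω => dg 0 (u ω) + dg 1 (u ω) + dg 2 (u ω)) := rfl
  rw [e, phi_add h d01 d2, phi_add h d0 d1]
  rfl

lemma phi_nonneg (h : IsPosTrace μ τ) {f : Ω → ℝ} (hf : MemLp f ⊤ μ) (h0 : ∀ᵐ ω ∂μ, 0 ≤ f ω) :
    0 ≤ (phi τ f).re ∧ (phi τ f).im = 0 := by
  have hm : MemLp (fun ω => Real.sqrt (f ω)) ⊤ μ := by
    obtain ⟨C, hC⟩ : ∃ C, ∀ᵐ ω ∂μ, ‖f ω‖ ≤ C := by
      have h1 := hf.2
      refine ⟨(eLpNorm f ⊤ μ).toReal, ?_⟩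
      rw [eLpNorm_exponent_top] at h1 ⊢
      filter_upwards [ae_le_eLpNormEssSup (f := f) (μ := μ)] with ω hω
      have := ENNReal.toReal_mono h1.ne hω
      simpa using this
    refine memLp_top_of_bound (Real.continuous_sqrt.comp_aestronglyMeasurable hf.1)
      (Real.sqrt C) ?_
    filter_upwards [hC] with ω hω
    rw [Real.norm_eq_abs, abs_of_nonneg (Real.sqrt_nonneg _)]
    exact Real.sqrt_le_sqrt ((le_abs_self _).trans hω)
  have h1 := h.pos _ (memE (memS hm e0))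
  simp only [hc_conj, hc_jmul, smul_jmul, jmul_smul, e0_e0] at h1
  have e : phi τ f = T τ fun ω => Real.sqrt (f ω) • Real.sqrt (f ω) • e0 := by
    refine T_congr h (memS hf e0) ?_ ?_
    · have : MemLp (fun ω => (Real.sqrt (f ω) * Real.sqrt (f ω)) • e0) ⊤ μ := by
        refine (memS hf e0).ae_eq ?_
        filter_upwards [h0] with ω hω
        rw [Real.mul_self_sqrt hω]
      simpa only [mul_smul] using this
    · filter_upwards [h0] with ω hω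
      rw [smul_smul, Real.mul_self_sqrt hω]
  rw [e]
  exact h1

/-- the real valued functional -/
noncomputable def psi (τ : (Ω → HC) → ℂ) (f : Ω → ℝ) : ℝ := (phi τ f).re

lemma psi_add (h : IsPosTrace μ τ) {f g : Ω → ℝ} (hf : MemLp f ⊤ μ) (hg : MemLp g ⊤ μ) :
    psi τ (fun ω => f ω + g ω) = psi τ f + psi τ g := by
  rw [psi, phi_add h hf hg]; rfl

lemma psi_smul (h : IsPosTrace μ τ) (r : ℝ) {f : Ω → ℝ} (hf : MemLp f ⊤ μ) :
    psi τ (fun ω => r * f ω) = r * psi τ f := by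
  rw [psi, phi_smul h r hf, Complex.re_ofReal_mul]; rfl

lemma psi_nonneg (h : IsPosTrace μ τ) {f : Ω → ℝ} (hf : MemLp f ⊤ μ)
    (h0 : ∀ᵐ ω ∂μ, 0 ≤ f ω) : 0 ≤ psi τ f := (phi_nonneg h hf h0).1

lemma psi_mono (h : IsPosTrace μ τ) {f g : Ω → ℝ} (hf : MemLp f ⊤ μ) (hg : MemLp g ⊤ μ)
    (h0 : ∀ᵐ ω ∂μ, f ω ≤ g ω) : psi τ f ≤ psi τ g := by
  have m1 : MemLp (fun ω => (-1 : ℝ) * f ω) ⊤ μ := hf.const_mul (-1)
  have m2 : MemLp (fun ω => g ω + (-1 : ℝ) * f ω) ⊤ μ := hg.add m1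
  have h1 := psi_nonneg h m2 (by
    filter_upwards [h0] with ω hω
    linarith)
  rw [psi_add h hg m1, psi_smul h _ hf] at h1
  linarith

lemma root_pow {F p : ℝ} (F0 : 0 ≤ F) (hp : 0 < p) : (F ^ (1 / p)) ^ p = F := by
  rw [← Real.rpow_mul F0, one_div, inv_mul_cancel₀ hp.ne', Real.rpow_one]

lemma pow_root {F p : ℝ} (F0 : 0 ≤ F) (hp : 0 < p) : (F ^ p) ^ (1 / p) = F := by
  rw [← Real.rpow_mul F0, one_div, mul_inv_cancel₀ hp.ne', Real.rpow_one]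

lemma ptwise {p : ℝ} (hp : 1 ≤ p) {f g k A B : ℝ} (A0 : 0 < A) (B0 : 0 < B) (f0 : 0 ≤ f)
    (g0 : 0 ≤ g) (k0 : 0 ≤ k) (hle : k ^ (1 / p) ≤ f ^ (1 / p) + g ^ (1 / p)) :
    k ≤ ((A + B) ^ p * (A / (A + B)) / A ^ p) * f + ((A + B) ^ p * (B / (A + B)) / B ^ p) * g := by
  have hp0 : 0 < p := by linarith
  have hAB : 0 < A + B := by linarith
  have a0 : 0 ≤ f ^ (1 / p) := Real.rpow_nonneg f0 _
  have b0 : 0 ≤ g ^ (1 / p) := Real.rpow_nonneg g0 _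
  have h1 : k ≤ (f ^ (1 / p) + g ^ (1 / p)) ^ p := by
    have := Real.rpow_le_rpow (Real.rpow_nonneg k0 _) hle hp0.le
    rwa [root_pow k0 hp0] at this
  have hw : A / (A + B) + B / (A + B) = 1 := by
    rw [← add_div, div_self hAB.ne']
  have h2 := (convexOn_rpow hp).2 (Set.mem_Ici.mpr (div_nonneg a0 A0.le))
    (Set.mem_Ici.mpr (div_nonneg b0 B0.le)) (div_nonneg A0.le hAB.le) (div_nonneg B0.le hAB.le) hw
  simp only [smul_eq_mul] at h2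
  have h3 : A / (A + B) * (f ^ (1 / p) / A) + B / (A + B) * (g ^ (1 / p) / B) =
      (f ^ (1 / p) + g ^ (1 / p)) / (A + B) := by
    field_simp
  rw [h3, Real.div_rpow a0 A0.le, Real.div_rpow b0 B0.le, Real.div_rpow (add_nonneg a0 b0) hAB.le,
    root_pow f0 hp0, root_pow g0 hp0] at h2
  have hP : 0 < (A + B) ^ p := Real.rpow_pos_of_pos hAB p
  rw [div_le_iff₀ hP] at h2
  refine (h1.trans h2).trans (le_of_eq ?_)
  ring

lemma mink (h : IsPosTrace μ τ) {p : ℝ} (hp : 1 ≤ p) {f g k : Ω → ℝ}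
    (hf : MemLp f ⊤ μ) (hg : MemLp g ⊤ μ) (hk : MemLp k ⊤ μ)
    (f0 : ∀ᵐ ω ∂μ, 0 ≤ f ω) (g0 : ∀ᵐ ω ∂μ, 0 ≤ g ω) (k0 : ∀ᵐ ω ∂μ, 0 ≤ k ω)
    (hle : ∀ᵐ ω ∂μ, k ω ^ (1 / p) ≤ f ω ^ (1 / p) + g ω ^ (1 / p)) :
    psi τ k ^ (1 / p) ≤ psi τ f ^ (1 / p) + psi τ g ^ (1 / p) := by
  have hp0 : 0 < p := by linarith
  refine le_of_forall_pos_le_add fun ε hε => ?_
  have F0 : 0 ≤ psi τ f := psi_nonneg h hf f0
  have G0 : 0 ≤ psi τ g := psi_nonneg h hg g0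
  have K0 : 0 ≤ psi τ k := psi_nonneg h hk k0
  have A0' : 0 ≤ psi τ f ^ (1 / p) := Real.rpow_nonneg F0 _
  have B0' : 0 ≤ psi τ g ^ (1 / p) := Real.rpow_nonneg G0 _
  obtain ⟨A, hA⟩ : ∃ A, A = psi τ f ^ (1 / p) + ε / 2 := ⟨_, rfl⟩
  obtain ⟨B, hB⟩ : ∃ B, B = psi τ g ^ (1 / p) + ε / 2 := ⟨_, rfl⟩
  have A0 : 0 < A := by linarith
  have B0 : 0 < B := by linarith
  have hAB : 0 < A + B := by linarith
  have FA : psi τ f ≤ A ^ p := by
    have := Real.rpow_le_rpow A0' (show psi τ f ^ (1 / p) ≤ A by linarith) hp0.le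
    rwa [root_pow F0 hp0] at this
  have GB : psi τ g ≤ B ^ p := by
    have := Real.rpow_le_rpow B0' (show psi τ g ^ (1 / p) ≤ B by linarith) hp0.le
    rwa [root_pow G0 hp0] at this
  have hP : 0 < (A + B) ^ p := Real.rpow_pos_of_pos hAB p
  have hPA : 0 < A ^ p := Real.rpow_pos_of_pos A0 p
  have hPB : 0 < B ^ p := Real.rpow_pos_of_pos B0 p
  have m1 : MemLp (fun ω => ((A + B) ^ p * (A / (A + B)) / A ^ p) * f ω) ⊤ μ := hf.const_mul _
  have m2 : MemLp (fun ω => ((A + B) ^ p * (B / (A + B)) / B ^ p) * g ω) ⊤ μ := hg.const_mul _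
  have h1 := psi_mono h hk (m1.add m2) (by
    filter_upwards [f0, g0, k0, hle] with ω h2 h3 h4 h5
    exact ptwise hp A0 B0 h2 h3 h4 h5)
  have h2 : psi τ ((fun ω => ((A + B) ^ p * (A / (A + B)) / A ^ p) * f ω) +
      (fun ω => ((A + B) ^ p * (B / (A + B)) / B ^ p) * g ω)) =
      ((A + B) ^ p * (A / (A + B)) / A ^ p) * psi τ f +
        ((A + B) ^ p * (B / (A + B)) / B ^ p) * psi τ g := by
    rw [← psi_smul h _ hf, ← psi_smul h _ hg, ← psi_add h m1 m2]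
    rfl
  rw [h2] at h1
  have h3 : ((A + B) ^ p * (A / (A + B)) / A ^ p) * psi τ f ≤ (A + B) ^ p * (A / (A + B)) := by
    rw [div_mul_eq_mul_div, div_le_iff₀ hPA]
    exact mul_le_mul_of_nonneg_left FA (mul_nonneg hP.le (div_nonneg A0.le hAB.le))
  have h4 : ((A + B) ^ p * (B / (A + B)) / B ^ p) * psi τ g ≤ (A + B) ^ p * (B / (A + B)) := by
    rw [div_mul_eq_mul_div, div_le_iff₀ hPB]
    exact mul_le_mul_of_nonneg_left GB (mul_nonneg hP.le (div_nonneg B0.le hAB.le))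
  have hw : A / (A + B) + B / (A + B) = 1 := by
    rw [← add_div, div_self hAB.ne']
  have h5 : psi τ k ≤ (A + B) ^ p := by
    have : (A + B) ^ p * (A / (A + B)) + (A + B) ^ p * (B / (A + B)) = (A + B) ^ p := by
      rw [← mul_add, hw, mul_one]
    linarith
  have h6 := Real.rpow_le_rpow K0 h5 (by positivity : 0 ≤ 1 / p)
  rw [pow_root hAB.le hp0] at h6
  linarith

/-- reduction of a positive trace to the pointwise trace, and Minkowski's inequality -/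
theorem minkowski (h : IsPosTrace μ τ) {p : ℝ} (hp : 1 ≤ p) (u v w : Ω → H3)
    (hu : MemLp u ⊤ μ) (hv : MemLp v ⊤ μ) (hw : MemLp w ⊤ μ)
    (u0 : ∀ᵐ ω ∂μ, 0 ≤ (u ω).tr) (v0 : ∀ᵐ ω ∂μ, 0 ≤ (v ω).tr) (w0 : ∀ᵐ ω ∂μ, 0 ≤ (w ω).tr)
    (hle : ∀ᵐ ω ∂μ, (w ω).tr ^ (1 / p) ≤ (u ω).tr ^ (1 / p) + (v ω).tr ^ (1 / p)) :
    0 ≤ (τ fun ω => (u ω, 0)).re ∧ (τ fun ω => (u ω, 0)).im = 0 ∧
    (τ fun ω => (w ω, 0)).re ^ (1 / p) ≤
      (τ fun ω => (u ω, 0)).re ^ (1 / p) + (τ fun ω => (v ω, 0)).re ^ (1 / p) := by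
  have mt : ∀ x : Ω → H3, MemLp x ⊤ μ → MemLp (fun ω => (x ω).tr) ⊤ μ := by
    intro x hx
    have d01 : MemLp (fun ω => dg 0 (x ω) + dg 1 (x ω)) ⊤ μ := (memL (dg 0) hx).add (memL (dg 1) hx)
    exact d01.add (memL (dg 2) hx)
  have eu : (τ fun ω => (u ω, 0)) = phi τ (fun ω => (u ω).tr) := T_tr h hu
  have ev : (τ fun ω => (v ω, 0)) = phi τ (fun ω => (v ω).tr) := T_tr h hv
  have ew : (τ fun ω => (w ω, 0)) = phi τ (fun ω => (w ω).tr) := T_tr h hw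
  rw [eu, ev, ew]
  have h1 := phi_nonneg h (mt u hu) u0
  exact ⟨h1.1, h1.2, mink h hp (mt u hu) (mt v hv) (mt w hw) u0 v0 w0 hle⟩

end

theorem min_st : StMin := fun _ _ _ _ h _ hp u v w hu hv hw u0 v0 w0 hle =>
  minkowski h hp u v w hu hv hw u0 v0 w0 hle

end Pool.Agent.Q275.Alb
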