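import Mathlib

/-!
Helper file for MP_e5500d_nt: the alternating sum attached to the Franel-type
sequence. Main result: an explicit integer sequence `b` with
`T n = n ^ 2 * b n + n * (n - 1) * b (n - 1)`.
-/

namespace Q275.AltSum

open Finset

/-- The sequence of the problem. -/
def S (n : ℕ) : ℤ :=
  ∑ k ∈ range (n - 2),
    (-1) ^ k * ((2 * k).choose k : ℤ) * ((n - 3).choose k : ℤ) * (k.choose (n - 3 - k) : ℤ)

/-- `T m = S (m+2) + 12 S (m+1) + 16 S m`. -/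
def T (m : ℕ) : ℤ := S (m + 2) + 12 * S (m + 1) + 16 * S m

/-- `A N = ∑_{k=1}^N (-1)^k T_k / k`, a sum of rational numbers. -/
def A (N : ℕ) : ℚ := ∑ k ∈ Icc 1 N, (-1) ^ k * ((T k : ℤ) : ℚ) / (k : ℚ)

/-- Inverse factorial on the integers. -/
def invf (j : ℤ) : ℚ := if 0 ≤ j then 1 / (j.toNat.factorial : ℚ) else 0

lemma invf_neg {j : ℤ} (h : j < 0) : invf j = 0 := by
  unfold invf
  rw [if_neg (not_le.mpr h)]

lemma invf_nat (j : ℕ) : invf (j : ℤ) = 1 / (j.factorial : ℚ) := by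
  unfold invf
  rw [if_pos (Int.natCast_nonneg j), Int.toNat_natCast]

lemma invf_sub_one (j : ℤ) : invf (j - 1) = j * invf j := by
  rcases lt_trichotomy j 0 with h | h | h
  · rw [invf_neg h, invf_neg (by omega)]
    simp
  · subst h
    rw [invf_neg (by omega)]
    simp
  · obtain ⟨i, rfl⟩ : ∃ i : ℕ, j = (i : ℤ) + 1 := ⟨(j - 1).toNat, by omega⟩
    have h1 : ((i : ℤ) + 1 - 1) = (i : ℤ) := by ring
    have h2 : ((i : ℤ) + 1) = ((i + 1 : ℕ) : ℤ) := by push_cast; ring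
    rw [h1, h2, invf_nat, invf_nat, Nat.factorial_succ]
    have h3 : ((i.factorial : ℕ) : ℚ) ≠ 0 := by exact_mod_cast Nat.factorial_ne_zero i
    have h4 : ((i : ℚ) + 1) ≠ 0 := by positivity
    push_cast
    field_simp

/-- Binomial coefficient with an integer lower argument. -/
def binZ (k : ℕ) (m : ℤ) : ℤ := if 0 ≤ m then (k.choose m.toNat : ℤ) else 0

lemma binZ_nat (k m : ℕ) : binZ k (m : ℤ) = (k.choose m : ℤ) := by
  unfold binZ
  rw [if_pos (Int.natCast_nonneg m), Int.toNat_natCast]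

lemma binZ_neg (k : ℕ) {m : ℤ} (h : m < 0) : binZ k m = 0 := by
  unfold binZ
  rw [if_neg (not_le.mpr h)]

lemma binZ_large (k : ℕ) {m : ℤ} (h : (k : ℤ) < m) : binZ k m = 0 := by
  unfold binZ
  rw [if_pos (by omega), Nat.choose_eq_zero_of_lt (by omega)]
  rfl

lemma binZ_eq (k : ℕ) (m : ℤ) :
    (k.factorial : ℚ) * invf m * invf ((k : ℤ) - m) = (binZ k m : ℚ) := by
  rcases lt_or_ge m 0 with h | h
  · rw [invf_neg h, binZ_neg k h]
    simp
  · rcases lt_or_ge (k : ℤ) m with h' | h'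
    · rw [invf_neg (j := (k : ℤ) - m) (by omega), binZ_large k h']
      simp
    · obtain ⟨i, rfl⟩ : ∃ i : ℕ, m = (i : ℤ) := ⟨m.toNat, by omega⟩
      have hik : i ≤ k := by omega
      have h1 : ((k : ℤ) - (i : ℤ)) = ((k - i : ℕ) : ℤ) := by omega
      rw [h1, invf_nat, invf_nat, binZ_nat]
      rw [Int.cast_natCast, Nat.cast_choose ℚ hik]
      have h3 : ((i.factorial : ℕ) : ℚ) ≠ 0 := by exact_mod_cast Nat.factorial_ne_zero i
      have h4 : (((k - i).factorial : ℕ) : ℚ) ≠ 0 := by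
        exact_mod_cast Nat.factorial_ne_zero (k - i)
      field_simp

/-- The coefficient `C(N,k) C(k,N-k-a)`, in inverse factorial form. -/
def d (a : ℤ) (N k : ℕ) : ℚ :=
  (N.factorial : ℚ) * invf ((N : ℤ) - k) * invf ((N : ℤ) - k - a) * invf (2 * (k : ℤ) - N + a)

lemma d_eq (a : ℤ) (N k : ℕ) :
    d a N k = ((N.choose k : ℤ) : ℚ) * (binZ k ((N : ℤ) - k - a) : ℚ) := by
  rcases lt_or_ge N k with h | h
  · unfold d
    rw [invf_neg (j := (N : ℤ) - k) (by omega), Nat.choose_eq_zero_of_lt h]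
    simp
  · rw [← binZ_eq]
    unfold d
    have h1 : ((N : ℤ) - (k : ℤ)) = ((N - k : ℕ) : ℤ) := by omega
    have h2 : (2 * (k : ℤ) - N + a) = (k : ℤ) - ((N : ℤ) - k - a) := by ring
    rw [h2, Int.cast_natCast, Nat.cast_choose ℚ h]
    rw [show invf ((N : ℤ) - (k : ℤ)) = 1 / ((N - k).factorial : ℚ) by rw [h1, invf_nat]]
    have h3 : ((k.factorial : ℕ) : ℚ) ≠ 0 := by exact_mod_cast Nat.factorial_ne_zero k
    have h4 : (((N - k).factorial : ℕ) : ℚ) ≠ 0 := by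
      exact_mod_cast Nat.factorial_ne_zero (N - k)
    field_simp

/-- The constant term of `Λ ^ N * t ^ a`, as a binomial sum. -/
def c (a : ℤ) (N : ℕ) : ℤ :=
  ∑ k ∈ range (N + 1),
    (-1) ^ k * ((2 * k).choose k : ℤ) * ((N.choose k : ℤ) * binZ k ((N : ℤ) - k - a))

lemma c_eq (a : ℤ) (N K : ℕ) (h : N + 1 ≤ K) :
    (c a N : ℚ) = ∑ k ∈ range K, (-1) ^ k * ((2 * k).choose k : ℚ) * d a N k := by
  have h1 : (c a N : ℚ)
      = ∑ k ∈ range (N + 1), (-1) ^ k * ((2 * k).choose k : ℚ) * d a N k := by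
    unfold c
    push_cast
    refine Finset.sum_congr rfl fun k _ => ?_
    rw [d_eq]
    push_cast
    ring
  rw [h1]
  refine Finset.sum_subset (Finset.range_mono h) fun k _ hk => ?_
  have h2 : N < k := by
    rw [Finset.mem_range] at hk
    omega
  rw [d_eq, Nat.choose_eq_zero_of_lt h2]
  simp

lemma S_eq (m : ℕ) : S (m + 3) = c 0 m := by
  unfold S c
  have h1 : m + 3 - 2 = m + 1 := by omega
  have h2 : m + 3 - 3 = m := by omega
  rw [h1, h2]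
  refine Finset.sum_congr rfl fun k hk => ?_
  rw [Finset.mem_range] at hk
  have h3 : ((m : ℤ) - (k : ℤ) - 0) = ((m - k : ℕ) : ℤ) := by omega
  rw [h3, binZ_nat]
  ring

/-- The integer sequence with `A n = (-1)^n n b_n`. -/
def b : ℕ → ℤ
  | 0 => 0
  | 1 => 1
  | (n + 2) => c 0 (n + 1) - c (-1) (n + 1) - 6 * c 1 (n + 1) + 8 * c 0 n

/-- The certificate. -/
def e (m k : ℕ) : ℚ :=
  (m.factorial : ℚ) *
    (((m : ℚ) + 1) * (-(((m : ℚ) + 3) * ((m : ℚ) + 2)) + 2 * ((m : ℚ) + 3) * k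
      - ((m : ℚ) + 4) * k ^ 2)) *
    invf ((m : ℤ) + 2 - k) * invf ((m : ℤ) + 3 - k) * invf (2 * (k : ℤ) - m - 2)

/-- The summand of the identity. -/
def tau (m k : ℕ) : ℚ :=
  ((m : ℚ) + 3) ^ 2 * (d 0 (m + 2) k - d (-1) (m + 2) k - 6 * d 1 (m + 2) k + 8 * d 0 (m + 1) k)
  + ((m : ℚ) + 3) * ((m : ℚ) + 2) *
      (d 0 (m + 1) k - d (-1) (m + 1) k - 6 * d 1 (m + 1) k + 8 * d 0 m k)
  - (d 0 (m + 2) k + 12 * d 0 (m + 1) k + 16 * d 0 m k)

lemma tau_eq (m k : ℕ) :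
    tau m k = (k : ℚ) * e m k + (4 * (k : ℚ) + 2) * e m (k + 1) := by
  have hA1 : invf ((m : ℤ) + 2 - k) = ((m : ℚ) + 3 - k) * invf ((m : ℤ) + 3 - k) := by
    have h := invf_sub_one ((m : ℤ) + 3 - k)
    rw [show ((m : ℤ) + 3 - k - 1) = (m : ℤ) + 2 - k by ring] at h
    rw [h]; push_cast; ring
  have hA2 : invf ((m : ℤ) + 1 - k) = ((m : ℚ) + 2 - k) * invf ((m : ℤ) + 2 - k) := by
    have h := invf_sub_one ((m : ℤ) + 2 - k)
    rw [show ((m : ℤ) + 2 - k - 1) = (m : ℤ) + 1 - k by ring] at h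
    rw [h]; push_cast; ring
  have hA3 : invf ((m : ℤ) - k) = ((m : ℚ) + 1 - k) * invf ((m : ℤ) + 1 - k) := by
    have h := invf_sub_one ((m : ℤ) + 1 - k)
    rw [show ((m : ℤ) + 1 - k - 1) = (m : ℤ) - k by ring] at h
    rw [h]; push_cast; ring
  have hB1 : invf (2 * (k : ℤ) - m - 1) = (2 * (k : ℚ) - m) * invf (2 * (k : ℤ) - m) := by
    have h := invf_sub_one (2 * (k : ℤ) - m)
    rw [h]; push_cast; ring
  have hB2 : invf (2 * (k : ℤ) - m - 2) = (2 * (k : ℚ) - m - 1) * invf (2 * (k : ℤ) - m - 1) := by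
    have h := invf_sub_one (2 * (k : ℤ) - m - 1)
    rw [show (2 * (k : ℤ) - m - 1 - 1) = 2 * (k : ℤ) - m - 2 by ring] at h
    rw [h]; push_cast; ring
  have hB3 : invf (2 * (k : ℤ) - m - 3) = (2 * (k : ℚ) - m - 2) * invf (2 * (k : ℤ) - m - 2) := by
    have h := invf_sub_one (2 * (k : ℤ) - m - 2)
    rw [show (2 * (k : ℤ) - m - 2 - 1) = 2 * (k : ℤ) - m - 3 by ring] at h
    rw [h]; push_cast; ring
  have f1 : (((m + 1).factorial : ℕ) : ℚ) = ((m : ℚ) + 1) * (m.factorial : ℚ) := by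
    rw [Nat.factorial_succ]; push_cast; ring
  have f2 : (((m + 2).factorial : ℕ) : ℚ)
      = ((m : ℚ) + 2) * (((m : ℚ) + 1) * (m.factorial : ℚ)) := by
    rw [Nat.factorial_succ, Nat.cast_mul, f1]; push_cast; ring
  have t1 : d 0 (m + 2) k = ((m : ℚ) + 2) * (((m : ℚ) + 1) * (m.factorial : ℚ)) *
      invf ((m : ℤ) + 2 - k) * invf ((m : ℤ) + 2 - k) * invf (2 * (k : ℤ) - m - 2) := by
    unfold d
    rw [f2, show (((m + 2 : ℕ) : ℤ) - (k : ℤ) - 0) = (m : ℤ) + 2 - k by push_cast; ring,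
      show (((m + 2 : ℕ) : ℤ) - (k : ℤ)) = (m : ℤ) + 2 - k by push_cast; ring,
      show (2 * (k : ℤ) - ((m + 2 : ℕ) : ℤ) + 0) = 2 * (k : ℤ) - m - 2 by push_cast; ring]
  have t2 : d (-1) (m + 2) k = ((m : ℚ) + 2) * (((m : ℚ) + 1) * (m.factorial : ℚ)) *
      invf ((m : ℤ) + 2 - k) * invf ((m : ℤ) + 3 - k) * invf (2 * (k : ℤ) - m - 3) := by
    unfold d
    rw [f2, show (((m + 2 : ℕ) : ℤ) - (k : ℤ) - (-1)) = (m : ℤ) + 3 - k by push_cast; ring,
      show (((m + 2 : ℕ) : ℤ) - (k : ℤ)) = (m : ℤ) + 2 - k by push_cast; ring,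
      show (2 * (k : ℤ) - ((m + 2 : ℕ) : ℤ) + (-1)) = 2 * (k : ℤ) - m - 3 by push_cast; ring]
  have t3 : d 1 (m + 2) k = ((m : ℚ) + 2) * (((m : ℚ) + 1) * (m.factorial : ℚ)) *
      invf ((m : ℤ) + 2 - k) * invf ((m : ℤ) + 1 - k) * invf (2 * (k : ℤ) - m - 1) := by
    unfold d
    rw [f2, show (((m + 2 : ℕ) : ℤ) - (k : ℤ) - 1) = (m : ℤ) + 1 - k by push_cast; ring,
      show (((m + 2 : ℕ) : ℤ) - (k : ℤ)) = (m : ℤ) + 2 - k by push_cast; ring,
      show (2 * (k : ℤ) - ((m + 2 : ℕ) : ℤ) + 1) = 2 * (k : ℤ) - m - 1 by push_cast; ring]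
  have t4 : d 0 (m + 1) k = ((m : ℚ) + 1) * (m.factorial : ℚ) *
      invf ((m : ℤ) + 1 - k) * invf ((m : ℤ) + 1 - k) * invf (2 * (k : ℤ) - m - 1) := by
    unfold d
    rw [f1, show (((m + 1 : ℕ) : ℤ) - (k : ℤ) - 0) = (m : ℤ) + 1 - k by push_cast; ring,
      show (((m + 1 : ℕ) : ℤ) - (k : ℤ)) = (m : ℤ) + 1 - k by push_cast; ring,
      show (2 * (k : ℤ) - ((m + 1 : ℕ) : ℤ) + 0) = 2 * (k : ℤ) - m - 1 by push_cast; ring]
  have t5 : d (-1) (m + 1) k = ((m : ℚ) + 1) * (m.factorial : ℚ) *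
      invf ((m : ℤ) + 1 - k) * invf ((m : ℤ) + 2 - k) * invf (2 * (k : ℤ) - m - 2) := by
    unfold d
    rw [f1, show (((m + 1 : ℕ) : ℤ) - (k : ℤ) - (-1)) = (m : ℤ) + 2 - k by push_cast; ring,
      show (((m + 1 : ℕ) : ℤ) - (k : ℤ)) = (m : ℤ) + 1 - k by push_cast; ring,
      show (2 * (k : ℤ) - ((m + 1 : ℕ) : ℤ) + (-1)) = 2 * (k : ℤ) - m - 2 by push_cast; ring]
  have t6 : d 1 (m + 1) k = ((m : ℚ) + 1) * (m.factorial : ℚ) *
      invf ((m : ℤ) + 1 - k) * invf ((m : ℤ) - k) * invf (2 * (k : ℤ) - m) := by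
    unfold d
    rw [f1, show (((m + 1 : ℕ) : ℤ) - (k : ℤ) - 1) = (m : ℤ) - k by push_cast; ring,
      show (((m + 1 : ℕ) : ℤ) - (k : ℤ)) = (m : ℤ) + 1 - k by push_cast; ring,
      show (2 * (k : ℤ) - ((m + 1 : ℕ) : ℤ) + 1) = 2 * (k : ℤ) - m by push_cast; ring]
  have t7 : d 0 m k = (m.factorial : ℚ) *
      invf ((m : ℤ) - k) * invf ((m : ℤ) - k) * invf (2 * (k : ℤ) - m) := by
    unfold d
    rw [show ((m : ℤ) - (k : ℤ) - 0) = (m : ℤ) - k by ring,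
      show (2 * (k : ℤ) - (m : ℤ) + 0) = 2 * (k : ℤ) - m by ring]
  have t8 : e m (k + 1) = (m.factorial : ℚ) *
    (((m : ℚ) + 1) * (-(((m : ℚ) + 3) * ((m : ℚ) + 2)) + 2 * ((m : ℚ) + 3) * ((k : ℚ) + 1)
      - ((m : ℚ) + 4) * ((k : ℚ) + 1) ^ 2)) *
    invf ((m : ℤ) + 1 - k) * invf ((m : ℤ) + 2 - k) * invf (2 * (k : ℤ) - m) := by
    unfold e
    rw [show ((m : ℤ) + 2 - ((k + 1 : ℕ) : ℤ)) = (m : ℤ) + 1 - k by push_cast; ring,
      show ((m : ℤ) + 3 - ((k + 1 : ℕ) : ℤ)) = (m : ℤ) + 2 - k by push_cast; ring,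
      show (2 * ((k + 1 : ℕ) : ℤ) - m - 2) = 2 * (k : ℤ) - m by push_cast; ring]
    push_cast
    ring
  unfold tau
  rw [t1, t2, t3, t4, t5, t6, t7, t8]
  unfold e
  rw [hB3, hB2, hB1, hA3, hA2, hA1]
  ring

lemma central (k : ℕ) : ((k : ℚ) + 1) * ((2 * (k + 1)).choose (k + 1) : ℚ)
    = (4 * (k : ℚ) + 2) * ((2 * k).choose k : ℚ) := by
  have h := Nat.succ_mul_centralBinom_succ k
  unfold Nat.centralBinom at h
  have h' : (((k + 1) * (2 * (k + 1)).choose (k + 1) : ℕ) : ℚ)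
      = ((2 * (2 * k + 1) * (2 * k).choose k : ℕ) : ℚ) := by exact_mod_cast h
  push_cast at h'
  linear_combination h'

lemma telescope (m K : ℕ) :
    ∑ k ∈ range K, (-1) ^ k * ((2 * k).choose k : ℚ) * tau m k
      = -((-1) ^ K * (K : ℚ) * ((2 * K).choose K : ℚ) * e m K) := by
  induction K with
  | zero => simp
  | succ K ih =>
    rw [Finset.sum_range_succ, ih, tau_eq]
    have hc := central K
    push_cast
    have h2 : (-1 : ℚ) ^ (K + 1) * ((K : ℚ) + 1) * ((2 * (K + 1)).choose (K + 1) : ℚ)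
        = - ((-1) ^ K * ((4 * (K : ℚ) + 2) * ((2 * K).choose K : ℚ))) := by
      rw [← hc]; ring
    rw [h2]
    ring

lemma identity_large (m : ℕ) :
    (T (m + 3) : ℚ) = ((m : ℚ) + 3) ^ 2 * (b (m + 3) : ℚ)
      + ((m : ℚ) + 3) * ((m : ℚ) + 2) * (b (m + 2) : ℚ) := by
  have h := telescope m (m + 4)
  have h0 : e m (m + 4) = 0 := by
    unfold e
    rw [invf_neg (j := (m : ℤ) + 2 - ((m + 4 : ℕ) : ℤ)) (by push_cast; omega)]
    simp
  rw [h0] at h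
  have hT : T (m + 3) = c 0 (m + 2) + 12 * c 0 (m + 1) + 16 * c 0 m := by
    unfold T
    rw [show m + 3 + 2 = (m + 2) + 3 by ring, show m + 3 + 1 = (m + 1) + 3 by ring,
      S_eq, S_eq, S_eq]
  have hb3 : b (m + 3) = c 0 (m + 2) - c (-1) (m + 2) - 6 * c 1 (m + 2) + 8 * c 0 (m + 1) := rfl
  have hb2 : b (m + 2) = c 0 (m + 1) - c (-1) (m + 1) - 6 * c 1 (m + 1) + 8 * c 0 m := rfl
  rw [hT, hb3, hb2]
  push_cast
  rw [c_eq 0 (m + 2) (m + 4) (by omega), c_eq (-1) (m + 2) (m + 4) (by omega),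
    c_eq 1 (m + 2) (m + 4) (by omega), c_eq 0 (m + 1) (m + 4) (by omega),
    c_eq (-1) (m + 1) (m + 4) (by omega), c_eq 1 (m + 1) (m + 4) (by omega),
    c_eq 0 m (m + 4) (by omega)]
  have hs : ∑ k ∈ range (m + 4), (-1) ^ k * ((2 * k).choose k : ℚ) * tau m k
      = ((m : ℚ) + 3) ^ 2 *
        ((∑ k ∈ range (m + 4), (-1) ^ k * ((2 * k).choose k : ℚ) * d 0 (m + 2) k)
        - (∑ k ∈ range (m + 4), (-1) ^ k * ((2 * k).choose k : ℚ) * d (-1) (m + 2) k)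
        - 6 * (∑ k ∈ range (m + 4), (-1) ^ k * ((2 * k).choose k : ℚ) * d 1 (m + 2) k)
        + 8 * (∑ k ∈ range (m + 4), (-1) ^ k * ((2 * k).choose k : ℚ) * d 0 (m + 1) k))
      + ((m : ℚ) + 3) * ((m : ℚ) + 2) *
        ((∑ k ∈ range (m + 4), (-1) ^ k * ((2 * k).choose k : ℚ) * d 0 (m + 1) k)
        - (∑ k ∈ range (m + 4), (-1) ^ k * ((2 * k).choose k : ℚ) * d (-1) (m + 1) k)
        - 6 * (∑ k ∈ range (m + 4), (-1) ^ k * ((2 * k).choose k : ℚ) * d 1 (m + 1) k)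
        + 8 * (∑ k ∈ range (m + 4), (-1) ^ k * ((2 * k).choose k : ℚ) * d 0 m k))
      - ((∑ k ∈ range (m + 4), (-1) ^ k * ((2 * k).choose k : ℚ) * d 0 (m + 2) k)
        + 12 * (∑ k ∈ range (m + 4), (-1) ^ k * ((2 * k).choose k : ℚ) * d 0 (m + 1) k)
        + 16 * (∑ k ∈ range (m + 4), (-1) ^ k * ((2 * k).choose k : ℚ) * d 0 m k)) := by
    simp only [Finset.mul_sum, ← Finset.sum_add_distrib, ← Finset.sum_sub_distrib]
    refine Finset.sum_congr rfl fun k _ => ?_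
    unfold tau
    ring
  rw [hs] at h
  linear_combination -h

lemma T_one : T 1 = 1 := by decide
lemma T_two : T 2 = 10 := by decide
lemma b_two : b 2 = 2 := by decide

lemma identity (n : ℕ) :
    (T (n + 1) : ℚ) = ((n : ℚ) + 1) ^ 2 * (b (n + 1) : ℚ)
      + ((n : ℚ) + 1) * (n : ℚ) * (b n : ℚ) := by
  rcases n with _ | _ | m
  · rw [T_one, show b (0 + 1) = 1 from rfl]
    simp
  · rw [show b (0 + 1) = 1 from rfl, show (0 + 1 + 1) = 2 from rfl, T_two, b_two]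
    norm_num
  · have h := identity_large m
    rw [show m + 1 + 1 + 1 = m + 3 by ring, show m + 1 + 1 = m + 2 by ring]
    push_cast
    rw [h]
    ring

theorem A_eq (n : ℕ) : A n = (-1) ^ n * (n : ℚ) * (b n : ℚ) := by
  induction n with
  | zero => simp [A]
  | succ n ih =>
    unfold A at ih ⊢
    rw [Finset.sum_Icc_succ_top (by omega), ih, identity]
    have h : ((n : ℚ) + 1) ≠ 0 := by positivity
    push_cast
    field_simp
    ring

end Q275.AltSum
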