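import Mathlib

/-!
# Products of two class transpositions: cycle lengths
-/

set_option autoImplicit false

namespace Pool.Agent.Q275.CT

/-- a class transposition with its two residue classes labelled by `true` and `false` -/
structure Dat where
  r : Bool → ℤ
  m : Bool → ℤ
  τ : Equiv.Perm ℤ
  hm : ∀ b, 0 < m b
  hdisj : ∀ x, m true ∣ x - r true → m false ∣ x - r false → False
  hmap : ∀ b k, τ (r b + k * m b) = r (!b) + k * m (!b)
  hfix : ∀ x, (∀ b, ¬ m b ∣ x - r b) → τ x = x

/-- `x` lies in the class with label `b` -/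
def Dat.mem (c : Dat) (b : Bool) (x : ℤ) : Prop := c.m b ∣ x - c.r b

theorem Dat.uniq (c : Dat) {b b' : Bool} {x : ℤ} (h : c.mem b x) (h' : c.mem b' x) : b = b' := by
  cases b <;> cases b'
  · rfl
  · exact (c.hdisj x h' h).elim
  · exact (c.hdisj x h h').elim
  · rfl

theorem Dat.mem_map (c : Dat) {b : Bool} {x : ℤ} (h : c.mem b x) : c.mem (!b) (c.τ x) := by
  obtain ⟨k, hk⟩ := h
  have hx : x = c.r b + k * c.m b := by linarith
  rw [hx, c.hmap]
  exact ⟨k, by ring⟩

theorem Dat.affine (c : Dat) {b : Bool} {x : ℤ} (h : c.mem b x) (k : ℤ) :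
    c.τ (x + c.m b * k) = c.τ x + c.m (!b) * k := by
  obtain ⟨j, hj⟩ := h
  have hx : x = c.r b + j * c.m b := by linarith
  have h1 : x + c.m b * k = c.r b + (j + k) * c.m b := by rw [hx]; ring
  rw [h1, c.hmap, hx, c.hmap]
  ring

theorem Dat.invol (c : Dat) (x : ℤ) : c.τ (c.τ x) = x := by
  by_cases h : ∃ b, c.mem b x
  · obtain ⟨b, hb⟩ := h
    obtain ⟨j, hj⟩ := hb
    have hx : x = c.r b + j * c.m b := by linarith
    rw [hx, c.hmap, c.hmap, Bool.not_not]
  · have h1 : c.τ x = x := c.hfix x fun b hb => h ⟨b, hb⟩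
    rw [h1, h1]

theorem Dat.label (c : Dat) {x : ℤ} (h : c.τ x ≠ x) : ∃ b, c.mem b x := by
  by_contra hcon
  exact h (c.hfix x fun b hb => hcon ⟨b, hb⟩)

/-! ### itineraries -/

/-- `x` follows the word `w` -/
def Fol : List (Dat × Bool) → ℤ → Prop
  | [], _ => True
  | s :: w, x => s.1.mem s.2 x ∧ Fol w (s.1.τ x)

/-- the end point of the path -/
def endp : List (Dat × Bool) → ℤ → ℤ
  | [], x => x
  | s :: w, x => endp w (s.1.τ x)

theorem aff (w : List (Dat × Bool)) : ∀ x, Fol w x → ∃ M M' : ℤ, 0 < M ∧ 0 < M' ∧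
    (∀ x', Fol w x' ↔ M ∣ x' - x) ∧ ∀ k, endp w (x + M * k) = endp w x + M' * k := by
  induction w with
  | nil =>
    intro x _
    refine ⟨1, 1, one_pos, one_pos, fun x' => ?_, fun k => rfl⟩
    simp [Fol]
  | cons s w ih =>
    obtain ⟨c, b⟩ := s
    intro x hx
    obtain ⟨hmem, hw⟩ := hx
    simp only at hmem hw
    obtain ⟨M, M', hM, hM', h1, h2⟩ := ih _ hw
    have hc2 := c.hm (!b)
    have hc1 := c.hm b
    obtain ⟨M0, e0, hcop, hMe, hce⟩ := Int.exists_gcd_one (m := M) (n := c.m (!b))
      (Int.gcd_pos_of_ne_zero_left _ hM.ne')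
    set g : ℤ := (Int.gcd M (c.m (!b)) : ℤ) with hg
    have hgpos : 0 < g := by
      rw [hg]
      exact_mod_cast Int.gcd_pos_of_ne_zero_left _ hM.ne'
    have hM0 : 0 < M0 := by
      rcases lt_trichotomy M0 0 with h | h | h
      · nlinarith
      · rw [h] at hMe; simp at hMe; omega
      · exact h
    have he0 : 0 < e0 := by
      rcases lt_trichotomy e0 0 with h | h | h
      · nlinarith
      · rw [h] at hce; simp at hce; omega
      · exact h
    refine ⟨c.m b * M0, M' * e0, by positivity, by positivity, fun x' => ?_, fun k => ?_⟩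
    · constructor
      · rintro ⟨ha, hb⟩
        simp only at ha hb
        have h3 : c.m b ∣ x' - x := by
          have := dvd_sub ha hmem
          simpa using this
        obtain ⟨k, hk⟩ := h3
        have hx' : x' = x + c.m b * k := by linarith
        rw [hx', c.affine hmem, h1] at hb
        have h4 : M ∣ c.m (!b) * k := by
          have : c.τ x + c.m (!b) * k - c.τ x = c.m (!b) * k := by ring
          rwa [this] at hb
        rw [hMe, hce] at h4
        have h5 : M0 ∣ e0 * k := by
          have : M0 * g ∣ (e0 * k) * g := by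
            have e : (e0 * k) * g = e0 * g * k := by ring
            rw [e]; exact h4
          exact Int.dvd_of_mul_dvd_mul_right hgpos.ne' this
        have h6 : M0 ∣ k := (Int.isCoprime_iff_gcd_eq_one.2 hcop).dvd_of_dvd_mul_left h5
        rw [hk]
        exact mul_dvd_mul_left _ h6
      · rintro ⟨j, hj⟩
        have hx' : x' = x + c.m b * (M0 * j) := by linarith
        refine ⟨?_, ?_⟩
        · change c.m b ∣ x' - c.r b
          have : x' - c.r b = (x - c.r b) + c.m b * (M0 * j) := by rw [hx']; ring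
          rw [this]
          exact dvd_add hmem (dvd_mul_right _ _)
        · change Fol w (c.τ x')
          rw [hx', c.affine hmem, h1]
          refine ⟨e0 * j, ?_⟩
          calc c.τ x + c.m (!b) * (M0 * j) - c.τ x = c.m (!b) * (M0 * j) := by ring
            _ = (e0 * g) * (M0 * j) := by rw [← hce]
            _ = (M0 * g) * (e0 * j) := by ring
            _ = M * (e0 * j) := by rw [← hMe]
    · change endp w (c.τ (x + c.m b * M0 * k)) = endp w (c.τ x) + M' * e0 * k
      have e1 : x + c.m b * M0 * k = x + c.m b * (M0 * k) := by ring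
      rw [e1, c.affine hmem]
      have e2 : c.m (!b) * (M0 * k) = M * (e0 * k) := by
        calc c.m (!b) * (M0 * k) = (e0 * g) * (M0 * k) := by rw [← hce]
          _ = (M0 * g) * (e0 * k) := by ring
          _ = M * (e0 * k) := by rw [← hMe]
      rw [e2, h2]
      ring

/-- arithmetic core: an affine piece of a map of finite order cannot meet its domain again without being
closed -/
theorem arith (h : ℤ → ℤ) (N : ℕ) (hN : 0 < N) (hid : ∀ t, h^[N] t = t) (x M M' : ℤ) (hM : 0 < M)
    (hM' : 0 < M') (haff : ∀ k, h (x + M * k) = h x + M' * k) (hdvd : M ∣ h x - x) : h x = x := by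
  obtain ⟨δ, hδ⟩ := hdvd
  have hhx : h x = x + M * δ := by linarith
  obtain ⟨v, u, hcop, hMe, hce⟩ := Int.exists_gcd_one (m := M) (n := M')
      (Int.gcd_pos_of_ne_zero_left _ hM.ne')
  set g : ℤ := (Int.gcd M M' : ℤ) with hg
  have hgpos : 0 < g := by
    rw [hg]
    exact_mod_cast Int.gcd_pos_of_ne_zero_left _ hM.ne'
  have hv : 0 < v := by
    rcases lt_trichotomy v 0 with h | h | h
    · nlinarith
    · rw [h] at hMe; simp at hMe; omega
    · exact h
  have hcop' : IsCoprime u v := (Int.isCoprime_iff_gcd_eq_one.2 hcop).symm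
  have P : ∀ n : ℕ, ∃ l : ℤ, ∀ j : ℤ, ∀ k ≤ n, ∃ i, h^[k] (x + M * (l + v ^ n * j)) = x + M * i := by
    intro n
    induction n with
    | zero =>
      refine ⟨0, fun j k hk => ?_⟩
      obtain rfl : k = 0 := by omega
      exact ⟨0 + v ^ 0 * j, rfl⟩
    | succ n ih =>
      obtain ⟨l, hl⟩ := ih
      obtain ⟨a, b, hab⟩ := (hcop'.pow_right : IsCoprime u (v ^ n))
      refine ⟨v * (a * (l - δ)), fun j k hk => ?_⟩
      rcases k with _ | k
      · exact ⟨_, rfl⟩
      · have e : h (x + M * (v * (a * (l - δ)) + v ^ (n + 1) * j))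
            = x + M * (l + v ^ n * (u * j - b * (l - δ))) := by
          rw [haff, hhx]
          have e1 : M' * (v * (a * (l - δ)) + v ^ (n + 1) * j)
              = M * (u * (a * (l - δ) + v ^ n * j)) := by
            calc _ = (u * g) * (v * (a * (l - δ)) + v ^ (n + 1) * j) := by rw [← hce]
              _ = (v * g) * (u * (a * (l - δ) + v ^ n * j)) := by ring
              _ = _ := by rw [← hMe]
          rw [e1]
          have e2 : u * (a * (l - δ) + v ^ n * j) = (l - δ) + v ^ n * (u * j - b * (l - δ)) := by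
            have : a * u * (l - δ) = (1 - b * v ^ n) * (l - δ) := by rw [← hab]; ring
            linear_combination this
          rw [e2]
          ring
        rw [Function.iterate_succ_apply, e]
        exact hl _ k (by omega)
  obtain ⟨l, hl⟩ := P N
  set t0 := x + M * (l + v ^ N * 0) with ht0
  set t1 := x + M * (l + v ^ N * 1) with ht1
  have hdiff : ∀ k ≤ N, M ^ k * (h^[k] t1 - h^[k] t0) = M' ^ k * (t1 - t0) := by
    intro k
    induction k with
    | zero => intro _; simp
    | succ k ih =>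
      intro hk
      obtain ⟨i0, hi0⟩ := hl 0 k (by omega)
      obtain ⟨i1, hi1⟩ := hl 1 k (by omega)
      rw [← ht0] at hi0
      rw [← ht1] at hi1
      have ih' := ih (by omega)
      rw [Function.iterate_succ_apply', Function.iterate_succ_apply', hi0, hi1, haff, haff]
      rw [hi0, hi1] at ih'
      calc M ^ (k + 1) * (h x + M' * i1 - (h x + M' * i0))
          = M' * (M ^ k * (x + M * i1 - (x + M * i0))) := by ring
        _ = M' * (M' ^ k * (t1 - t0)) := by rw [ih']
        _ = M' ^ (k + 1) * (t1 - t0) := by ring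
  have h1 := hdiff N le_rfl
  rw [hid, hid] at h1
  have ht : t1 - t0 = M * v ^ N := by rw [ht0, ht1]; ring
  have htne : t1 - t0 ≠ 0 := by
    rw [ht]
    positivity
  have h2 : M ^ N = M' ^ N := mul_right_cancel₀ htne h1
  have h3 : M = M' := by
    rcases lt_trichotomy M M' with hlt | heq | hlt
    · exact absurd h2 (pow_lt_pow_left₀ hlt hM.le (by omega)).ne
    · exact heq
    · exact absurd h2 (pow_lt_pow_left₀ hlt hM'.le (by omega)).ne'
  have h4 : ∀ k : ℕ, h^[k] x = x + M * (δ * k) := by
    intro k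
    induction k with
    | zero => simp
    | succ k ih =>
      rw [Function.iterate_succ_apply', ih, haff, hhx, ← h3]
      push_cast
      ring
  have h5 := h4 N
  rw [hid] at h5
  have h6 : M * (δ * N) = 0 := by linarith
  have h7 : δ = 0 := by
    rcases mul_eq_zero.1 h6 with h | h
    · omega
    · rcases mul_eq_zero.1 h with h | h
      · exact h
      · exact absurd (by exact_mod_cast h : N = 0) (by omega)
  rw [hhx, h7]
  ring

/-- a repeated itinerary closes up -/
theorem square (w : List (Dat × Bool)) (N : ℕ) (hN : 0 < N) (hid : ∀ t, (endp w)^[N] t = t) (x : ℤ)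
    (h1 : Fol w x) (h2 : Fol w (endp w x)) : endp w x = x := by
  obtain ⟨M, M', hM, hM', h3, h4⟩ := aff w x h1
  exact arith (endp w) N hN hid x M M' hM hM' h4 ((h3 _).1 h2)

/-! ### the structural restriction -/

/-- there is a point of the first class of `B` and of the class `k` of `A` mapped by `B` into the class
`l` of `A` -/
def Rel (A B : Dat) (q : Bool × Bool) : Prop :=
  ∃ u, B.mem true u ∧ A.mem q.1 u ∧ A.mem q.2 (B.τ u)

theorem exists_prime_pow (A : Dat) : ∃ p e : ℕ, p.Prime ∧ (∀ b, ((p : ℤ) ^ e) ∣ A.m b) ∧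
    ¬ ((p : ℤ) ^ e) ∣ A.r true - A.r false := by
  by_contra hcon
  push Not at hcon
  have h1 : (Int.gcd (A.m true) (A.m false) : ℤ) ∣ A.r true - A.r false := by
    rw [← Int.dvd_natAbs, Int.natCast_dvd_natCast, Nat.dvd_iff_prime_pow_dvd_dvd]
    intro p k hp hk
    have h2 : ∀ b, ((p : ℤ) ^ k) ∣ A.m b := by
      intro b
      have h3 : ((p ^ k : ℕ) : ℤ) ∣ (Int.gcd (A.m true) (A.m false) : ℤ) :=
        Int.natCast_dvd_natCast.2 hk
      push_cast at h3
      cases b
      · exact h3.trans (Int.gcd_dvd_right _ _)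
      · exact h3.trans (Int.gcd_dvd_left _ _)
    have h4 := hcon p k hp h2
    have h5 : ((p ^ k : ℕ) : ℤ) ∣ A.r true - A.r false := by exact_mod_cast h4
    exact Int.natCast_dvd.1 h5
  -- then the two classes meet
  obtain ⟨d, hd⟩ := h1
  have hb := Int.gcd_eq_gcd_ab (A.m true) (A.m false)
  set s := Int.gcdA (A.m true) (A.m false)
  set t := Int.gcdB (A.m true) (A.m false)
  rw [hb] at hd
  refine A.hdisj (A.r true - A.m true * s * d) ⟨- s * d, by ring⟩ ⟨t * d, ?_⟩
  linear_combination hd

theorem struct (A B : Dat) {q1 q2 q3 q4 : Bool × Bool} (h1 : Rel A B q1) (h2 : Rel A B q2)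
    (h3 : Rel A B q3) (h4 : Rel A B q4) (e12 : q1.1 = q2.1) (n12 : q1.2 ≠ q2.2)
    (e34 : q3.2 = q4.2) (n34 : q3.1 ≠ q4.1) : False := by
  obtain ⟨p, e, hp, hpm, hpr⟩ := exists_prime_pow A
  have : Fact p.Prime := ⟨hp⟩
  have same : ∀ b x x', A.mem b x → A.mem b x' → ((p : ℤ) ^ e) ∣ x - x' := by
    intro b x x' h h'
    have := dvd_sub ((hpm b).trans h) ((hpm b).trans h')
    simpa using this
  have diff : ∀ b b' x x', b ≠ b' → A.mem b x → A.mem b' x' → ¬ ((p : ℤ) ^ e) ∣ x - x' := by
    intro b b' x x' hne h h' hd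
    apply hpr
    have a1 : ((p : ℤ) ^ e) ∣ x - A.r b := (hpm b).trans h
    have a2 : ((p : ℤ) ^ e) ∣ x' - A.r b' := (hpm b').trans h'
    cases b <;> cases b'
    · exact absurd rfl hne
    · have : A.r true - A.r false = (x - A.r false) - (x - x') - (x' - A.r true) := by ring
      rw [this]
      exact dvd_sub (dvd_sub a1 hd) a2
    · have : A.r true - A.r false = (x' - A.r false) + (x - x') - (x - A.r true) := by ring
      rw [this]
      exact dvd_sub (dvd_add a2 hd) a1
    · exact absurd rfl hne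
  have slope : ∀ u u', B.mem true u → B.mem true u' →
      B.m true * (B.τ u - B.τ u') = B.m false * (u - u') := by
    intro u u' hu hu'
    obtain ⟨k, hk⟩ : B.m true ∣ u' - u := by
      have := dvd_sub hu' hu
      simpa using this
    have hu2 : u' = u + B.m true * k := by linarith
    rw [hu2, B.affine hu]
    simp only [Bool.not_true]
    ring
  have hm1 := (B.hm true).ne'
  have hm2 := (B.hm false).ne'
  have val : ∀ u u', B.mem true u → B.mem true u' → u ≠ u' →
      padicValInt p (B.m true) + padicValInt p (B.τ u - B.τ u')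
        = padicValInt p (B.m false) + padicValInt p (u - u') := by
    intro u u' hu hu' hne
    have h0 : B.τ u - B.τ u' ≠ 0 := by
      intro h
      exact hne (B.τ.injective (by linarith))
    rw [← padicValInt.mul hm1 h0, ← padicValInt.mul hm2 (sub_ne_zero.2 hne), slope u u' hu hu']
  obtain ⟨x, hx1, hx2, hx3⟩ := h1
  obtain ⟨x', hx1', hx2', hx3'⟩ := h2
  obtain ⟨y, hy1, hy2, hy3⟩ := h3
  obtain ⟨y', hy1', hy2', hy3'⟩ := h4
  rw [e12] at hx2
  rw [e34] at hy3
  have c1 := same _ _ _ hx2 hx2'
  have c2 := diff _ _ _ _ n12 hx3 hx3'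
  have c3 := same _ _ _ hy3 hy3'
  have c4 := diff _ _ _ _ n34 hy2 hy2'
  have hxne : x ≠ x' := by
    rintro rfl
    exact c2 (by simp)
  have hyne : y ≠ y' := by
    rintro rfl
    exact c4 (by simp)
  have v1 := val x x' hx1 hx1' hxne
  have v2 := val y y' hy1 hy1' hyne
  have hyτ : B.τ y - B.τ y' ≠ 0 := by
    intro h
    exact hyne (B.τ.injective (by linarith))
  have g1 : e ≤ padicValInt p (x - x') := by
    rcases (padicValInt_dvd_iff e (x - x')).1 c1 with h | h
    · exact absurd h (sub_ne_zero.2 hxne)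
    · exact h
  have g2 : padicValInt p (B.τ x - B.τ x') < e := by
    by_contra h
    exact c2 ((padicValInt_dvd_iff e _).2 (Or.inr (not_lt.1 h)))
  have g3 : e ≤ padicValInt p (B.τ y - B.τ y') := by
    rcases (padicValInt_dvd_iff e (B.τ y - B.τ y')).1 c3 with h | h
    · exact absurd h hyτ
    · exact h
  have g4 : padicValInt p (y - y') < e := by
    by_contra h
    exact c4 ((padicValInt_dvd_iff e _).2 (Or.inr (not_lt.1 h)))
  omega

/-- the pair attached to three consecutive labels -/
def pr (a b c : Bool) : Bool × Bool := if b then (!a, c) else (c, !a)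

theorem rel_of_path (A B : Dat) {a b c : Bool} {x : ℤ} (h1 : A.mem a x) (h2 : B.mem b (A.τ x))
    (h3 : A.mem c (B.τ (A.τ x))) : Rel A B (pr a b c) := by
  cases b
  · refine ⟨B.τ (A.τ x), ?_, ?_, ?_⟩
    · simpa using B.mem_map h2
    · simpa [pr] using h3
    · rw [B.invol]
      simpa [pr] using A.mem_map h1
  · refine ⟨A.τ x, h2, ?_, ?_⟩
    · simpa [pr] using A.mem_map h1
    · simpa [pr] using h3

/-- same first, different second coordinates -/
def S1 (p q : Bool × Bool) : Prop := p.1 = q.1 ∧ p.2 ≠ q.2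
/-- same second, different first coordinates -/
def S2 (p q : Bool × Bool) : Prop := p.2 = q.2 ∧ p.1 ≠ q.1

instance (p q : Bool × Bool) : Decidable (S1 p q) := by unfold S1; infer_instance
instance (p q : Bool × Bool) : Decidable (S2 p q) := by unfold S2; infer_instance

/-- the three pairs violate the structural restriction -/
def Viol (p q r : Bool × Bool) : Prop :=
  (S1 p q ∨ S1 p r ∨ S1 q r) ∧ (S2 p q ∨ S2 p r ∨ S2 q r)

instance (p q r : Bool × Bool) : Decidable (Viol p q r) := by unfold Viol; infer_instance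

theorem no_viol (A B : Dat) {p q r : Bool × Bool} (hp : Rel A B p) (hq : Rel A B q) (hr : Rel A B r) :
    ¬ Viol p q r := by
  rintro ⟨h1, h2⟩
  rcases h1 with h1 | h1 | h1 <;> rcases h2 with h2 | h2 | h2 <;>
  first
    | exact struct A B hp hq hp hq h1.1 h1.2 h2.1 h2.2
    | exact struct A B hp hq hp hr h1.1 h1.2 h2.1 h2.2
    | exact struct A B hp hq hq hr h1.1 h1.2 h2.1 h2.2
    | exact struct A B hp hr hp hq h1.1 h1.2 h2.1 h2.2
    | exact struct A B hp hr hp hr h1.1 h1.2 h2.1 h2.2
    | exact struct A B hp hr hq hr h1.1 h1.2 h2.1 h2.2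
    | exact struct A B hq hr hp hq h1.1 h1.2 h2.1 h2.2
    | exact struct A B hq hr hp hr h1.1 h1.2 h2.1 h2.2
    | exact struct A B hq hr hq hr h1.1 h1.2 h2.1 h2.2

theorem comb : ∀ l0 l1 l2 l3 l4 l5 l6 l7 : Bool,
    (l0 = l2 ∧ l1 = l3) ∨ (l1 = l3 ∧ l2 = l4) ∨ (l2 = l4 ∧ l3 = l5) ∨ (l3 = l5 ∧ l4 = l6) ∨
    (l4 = l6 ∧ l5 = l7) ∨ (l0 = l4 ∧ l1 = l5 ∧ l2 = l6 ∧ l3 = l7) ∨
    Viol (pr l0 l1 l2) (pr l2 l3 l4) (pr l4 l5 l6) ∨ Viol (pr l1 l2 l3) (pr l3 l4 l5) (pr l5 l6 l7) := by
  decide

end Pool.Agent.Q275.CT
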