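import Pool.Agent.Q275.ClassTrans

/-!
# Products of two class transpositions: every finite order divides 840
-/

set_option autoImplicit false

namespace Pool.Agent.Q275.CT

theorem iterate_of_pow {g : Equiv.Perm ℤ} {N : ℕ} (h : g ^ N = 1) (f : ℤ → ℤ) (hf : ∀ t, f t = g t)
    (t : ℤ) : f^[N] t = t := by
  have : f = g := funext hf
  rw [this, Equiv.Perm.iterate_eq_pow, h]
  rfl

theorem sq1 (A B : Dat) {N : ℕ} (hN : 0 < N) (h : (B.τ * A.τ) ^ N = 1) {x : ℤ} {a b : Bool}
    (h0 : A.mem a x) (h1 : B.mem b (A.τ x)) (h2 : A.mem a (B.τ (A.τ x)))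
    (h3 : B.mem b (A.τ (B.τ (A.τ x)))) : B.τ (A.τ x) = x := by
  have := square [(A, a), (B, b)] N hN
    (iterate_of_pow h _ fun t => rfl) x ⟨h0, h1, trivial⟩ ⟨h2, h3, trivial⟩
  exact this

theorem sq2 (A B : Dat) {N : ℕ} (hN : 0 < N) (h : (B.τ * A.τ) ^ N = 1) {x : ℤ} {a b c d : Bool}
    (h0 : A.mem a x) (h1 : B.mem b (A.τ x)) (h2 : A.mem c (B.τ (A.τ x)))
    (h3 : B.mem d (A.τ (B.τ (A.τ x))))
    (h4 : A.mem a (B.τ (A.τ (B.τ (A.τ x))))) (h5 : B.mem b (A.τ (B.τ (A.τ (B.τ (A.τ x))))))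
    (h6 : A.mem c (B.τ (A.τ (B.τ (A.τ (B.τ (A.τ x)))))))
    (h7 : B.mem d (A.τ (B.τ (A.τ (B.τ (A.τ (B.τ (A.τ x)))))))) :
    B.τ (A.τ (B.τ (A.τ x))) = x := by
  have hp : ((B.τ * A.τ) ^ 2) ^ N = 1 := by rw [← pow_mul, mul_comm, pow_mul, h, one_pow]
  have := square [(A, a), (B, b), (A, c), (B, d)] N hN
    (iterate_of_pow hp _ fun t => by rw [pow_two]; rfl) x ⟨h0, h1, h2, h3, trivial⟩
    ⟨h4, h5, h6, h7, trivial⟩
  exact this

/-- the datum used at time `t` -/
def D (A B : Dat) (t : ℕ) : Dat := if t % 2 = 0 then A else B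

/-- the path starting at `x` with a step of `A` -/
def v (A B : Dat) (x : ℤ) : ℕ → ℤ
  | 0 => x
  | t + 1 => (D A B t).τ (v A B x t)

theorem v_two_mul (A B : Dat) (x : ℤ) (k : ℕ) : v A B x (2 * k) = ((B.τ * A.τ) ^ k) x := by
  induction k with
  | zero => rfl
  | succ k ih =>
    have e : 2 * (k + 1) = 2 * k + 1 + 1 := by ring
    rw [e, v, v, ih, pow_succ']
    have e1 : D A B (2 * k + 1) = B := by unfold D; rw [if_neg (by omega)]
    have e2 : D A B (2 * k) = A := by unfold D; rw [if_pos (by omega)]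
    rw [e1, e2]
    rfl

theorem v_back (A B : Dat) (x : ℤ) (k : ℕ) : ∀ t, v A B x (t + 2 * k) = v A B x t →
    v A B x (2 * k) = x := by
  intro t
  induction t with
  | zero => intro h; rw [zero_add] at h; exact h
  | succ t ih =>
    intro h
    apply ih
    have e : t + 1 + 2 * k = t + 2 * k + 1 := by ring
    rw [e, v, v] at h
    have e1 : D A B (t + 2 * k) = D A B t := by
      unfold D
      have : (t + 2 * k) % 2 = t % 2 := by omega
      rw [this]
    rw [e1] at h
    exact (D A B t).τ.injective h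

theorem swap_pow {g h : Equiv.Perm ℤ} {N : ℕ} (hN : (g * h) ^ N = 1) : (h * g) ^ N = 1 := by
  have h1 : h * g = h * (g * h) * h⁻¹ := by group
  rw [h1, conj_pow, hN]
  group

theorem forward (A B : Dat) {N : ℕ} (hN : 0 < N) (h : (B.τ * A.τ) ^ N = 1) (x : ℤ) :
    v A B x 2 = x ∨ v A B x 4 = x ∨ ∃ t, t < 8 ∧ v A B x (t + 1) = v A B x t := by
  by_contra hcon
  push Not at hcon
  obtain ⟨n2, n4, hne⟩ := hcon
  have h' : (A.τ * B.τ) ^ N = 1 := swap_pow h
  set x0 := v A B x 0 with hx0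
  set x1 := v A B x 1 with hx1
  set x2 := v A B x 2 with hx2
  set x3 := v A B x 3 with hx3
  set x4 := v A B x 4 with hx4
  set x5 := v A B x 5 with hx5
  set x6 := v A B x 6 with hx6
  set x7 := v A B x 7 with hx7
  have s0 : A.τ x0 = x1 := rfl
  have s1 : B.τ x1 = x2 := rfl
  have s2 : A.τ x2 = x3 := rfl
  have s3 : B.τ x3 = x4 := rfl
  have s4 : A.τ x4 = x5 := rfl
  have s5 : B.τ x5 = x6 := rfl
  have s6 : A.τ x6 = x7 := rfl
  obtain ⟨l0, m0⟩ := A.label (x := x0) (by rw [s0]; exact hne 0 (by norm_num))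
  obtain ⟨l1, m1⟩ := B.label (x := x1) (by rw [s1]; exact hne 1 (by norm_num))
  obtain ⟨l2, m2⟩ := A.label (x := x2) (by rw [s2]; exact hne 2 (by norm_num))
  obtain ⟨l3, m3⟩ := B.label (x := x3) (by rw [s3]; exact hne 3 (by norm_num))
  obtain ⟨l4, m4⟩ := A.label (x := x4) (by rw [s4]; exact hne 4 (by norm_num))
  obtain ⟨l5, m5⟩ := B.label (x := x5) (by rw [s5]; exact hne 5 (by norm_num))
  obtain ⟨l6, m6⟩ := A.label (x := x6) (by rw [s6]; exact hne 6 (by norm_num))
  obtain ⟨l7, m7⟩ := B.label (x := x7) (hne 7 (by norm_num))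
  have close2 : ∀ t, v A B x (t + 2) = v A B x t → False := by
    intro t ht
    exact n2 (v_back A B x 1 t ht)
  have r1 : Rel A B (pr l0 l1 l2) := rel_of_path A B m0 (by rw [s0]; exact m1) (by rw [s0, s1]; exact m2)
  have r2 : Rel B A (pr l1 l2 l3) := rel_of_path B A m1 (by rw [s1]; exact m2) (by rw [s1, s2]; exact m3)
  have r3 : Rel A B (pr l2 l3 l4) := rel_of_path A B m2 (by rw [s2]; exact m3) (by rw [s2, s3]; exact m4)
  have r4 : Rel B A (pr l3 l4 l5) := rel_of_path B A m3 (by rw [s3]; exact m4) (by rw [s3, s4]; exact m5)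
  have r5 : Rel A B (pr l4 l5 l6) := rel_of_path A B m4 (by rw [s4]; exact m5) (by rw [s4, s5]; exact m6)
  have r6 : Rel B A (pr l5 l6 l7) := rel_of_path B A m5 (by rw [s5]; exact m6) (by rw [s5, s6]; exact m7)
  rcases comb l0 l1 l2 l3 l4 l5 l6 l7 with c | c | c | c | c | c | c | c
  · obtain ⟨rfl, rfl⟩ := c
    exact close2 0 (sq1 A B hN h m0 (by rw [s0]; exact m1) (by rw [s0, s1]; exact m2)
      (by rw [s0, s1, s2]; exact m3))
  · obtain ⟨rfl, rfl⟩ := c
    exact close2 1 (sq1 B A hN h' m1 (by rw [s1]; exact m2) (by rw [s1, s2]; exact m3)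
      (by rw [s1, s2, s3]; exact m4))
  · obtain ⟨rfl, rfl⟩ := c
    exact close2 2 (sq1 A B hN h m2 (by rw [s2]; exact m3) (by rw [s2, s3]; exact m4)
      (by rw [s2, s3, s4]; exact m5))
  · obtain ⟨rfl, rfl⟩ := c
    exact close2 3 (sq1 B A hN h' m3 (by rw [s3]; exact m4) (by rw [s3, s4]; exact m5)
      (by rw [s3, s4, s5]; exact m6))
  · obtain ⟨rfl, rfl⟩ := c
    exact close2 4 (sq1 A B hN h m4 (by rw [s4]; exact m5) (by rw [s4, s5]; exact m6)
      (by rw [s4, s5, s6]; exact m7))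
  · obtain ⟨rfl, rfl, rfl, rfl⟩ := c
    exact n4 (sq2 A B hN h (x := x) m0 m1 m2 m3 m4 m5 m6 m7)
  · exact no_viol A B r1 r3 r5 c
  · exact no_viol B A r2 r4 r6 c

/-- a path starting at an end point comes back -/
theorem reflect (A B : Dat) (z : ℤ) (hz : B.τ z = z) (s : ℕ) (hs : v A B z (s + 1) = v A B z s) :
    ((B.τ * A.τ) ^ (s + 1)) z = z := by
  have key : ∀ r ≤ s, v A B z (s + 1 + r) = v A B z (s - r) := by
    intro r
    induction r with
    | zero => intro _; exact hs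
    | succ r ih =>
      intro hr
      have ih' := ih (by omega)
      have e : s + 1 + (r + 1) = (s + 1 + r) + 1 := by ring
      rw [e, v, ih']
      obtain ⟨q, hq⟩ : ∃ q, s - r = q + 1 := ⟨s - r - 1, by omega⟩
      have hq' : s - (r + 1) = q := by omega
      have e1 : D A B (s + 1 + r) = D A B q := by
        unfold D
        have : (s + 1 + r) % 2 = q % 2 := by omega
        rw [this]
      rw [hq, hq', v, e1, (D A B q).invol]
  have h1 := key s le_rfl
  rw [Nat.sub_self] at h1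
  rw [← v_two_mul]
  have e : 2 * (s + 1) = (s + 1 + s) + 1 := by ring
  have e1 : D A B (s + 1 + s) = B := by
    unfold D
    rw [if_neg (by omega)]
  rw [e, v, h1, e1]
  exact hz

/-- every cycle has length at most 8 -/
theorem cycle_le (A B : Dat) {N : ℕ} (hN : 0 < N) (h : (B.τ * A.τ) ^ N = 1) (x : ℤ) :
    ∃ k, 1 ≤ k ∧ k ≤ 8 ∧ ((B.τ * A.τ) ^ k) x = x := by
  have main : ∀ (A B : Dat), (B.τ * A.τ) ^ N = 1 → ∀ z, B.τ z = z →
      ∃ k, 1 ≤ k ∧ k ≤ 8 ∧ ((B.τ * A.τ) ^ k) z = z := by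
    intro A B h z hz
    rcases forward A B hN h z with h1 | h1 | ⟨s, hs, h1⟩
    · exact ⟨1, le_rfl, by norm_num, by rw [← v_two_mul]; exact h1⟩
    · exact ⟨2, by norm_num, by norm_num, by rw [← v_two_mul]; exact h1⟩
    · exact ⟨s + 1, by omega, by omega, reflect A B z hz s h1⟩
  rcases forward A B hN h x with h1 | h1 | ⟨t, ht, h1⟩
  · exact ⟨1, le_rfl, by norm_num, by rw [← v_two_mul]; exact h1⟩
  · exact ⟨2, by norm_num, by norm_num, by rw [← v_two_mul]; exact h1⟩
  · -- `z = v t` is fixed by the involution used at time `t`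
    set z := v A B x t with hz
    have hfix : (D A B t).τ z = z := h1
    -- it suffices to return to `z` at the time `t + 2 k`
    have suff : ∀ k, 1 ≤ k → k ≤ 8 → v A B x (t + 2 * k) = z →
        ∃ k, 1 ≤ k ∧ k ≤ 8 ∧ ((B.τ * A.τ) ^ k) x = x := by
      intro k hk hk' hh
      exact ⟨k, hk, hk', by rw [← v_two_mul]; exact v_back A B x k t hh⟩
    by_cases hpar : t % 2 = 0
    · -- next step is by `A`, which fixes `z`
      have eD : D A B t = A := by unfold D; rw [if_pos hpar]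
      rw [eD] at hfix
      obtain ⟨k, hk, hk', hh⟩ := main B A (swap_pow h) z hfix
      apply suff k hk hk'
      have e : ∀ j, v A B x (t + 2 * j) = ((B.τ * A.τ) ^ j) z := by
        intro j
        induction j with
        | zero => rfl
        | succ j ih =>
          have e : t + 2 * (j + 1) = t + 2 * j + 1 + 1 := by ring
          have e1 : D A B (t + 2 * j + 1) = B := by unfold D; rw [if_neg (by omega)]
          have e2 : D A B (t + 2 * j) = A := by unfold D; rw [if_pos (by omega)]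
          rw [e, v, v, ih, pow_succ', e1, e2]
          rfl
      rw [e]
      have hconj : (B.τ * A.τ) ^ k = A.τ⁻¹ * (A.τ * B.τ) ^ k * A.τ := by
        have : B.τ * A.τ = A.τ⁻¹ * (A.τ * B.τ) * (A.τ⁻¹)⁻¹ := by group
        rw [this, conj_pow]
        group
      rw [hconj, Equiv.Perm.mul_apply, Equiv.Perm.mul_apply, hfix, hh]
      rw [Equiv.Perm.inv_eq_iff_eq]
      exact hfix.symm
    · have eD : D A B t = B := by unfold D; rw [if_neg hpar]
      rw [eD] at hfix
      obtain ⟨k, hk, hk', hh⟩ := main A B h z hfix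
      apply suff k hk hk'
      have e : ∀ j, v A B x (t + 2 * j) = ((A.τ * B.τ) ^ j) z := by
        intro j
        induction j with
        | zero => rfl
        | succ j ih =>
          have e : t + 2 * (j + 1) = t + 2 * j + 1 + 1 := by ring
          have e1 : D A B (t + 2 * j + 1) = A := by unfold D; rw [if_pos (by omega)]
          have e2 : D A B (t + 2 * j) = B := by unfold D; rw [if_neg (by omega)]
          rw [e, v, v, ih, pow_succ', e1, e2]
          rfl
      rw [e]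
      have hconj : (A.τ * B.τ) ^ k = B.τ⁻¹ * (B.τ * A.τ) ^ k * B.τ := by
        have : A.τ * B.τ = B.τ⁻¹ * (B.τ * A.τ) * (B.τ⁻¹)⁻¹ := by group
        rw [this, conj_pow]
        group
      rw [hconj, Equiv.Perm.mul_apply, Equiv.Perm.mul_apply, hfix, hh]
      rw [Equiv.Perm.inv_eq_iff_eq]
      exact hfix.symm

theorem order_dvd (A B : Dat) (h : orderOf (B.τ * A.τ) ≠ 0) : orderOf (B.τ * A.τ) ∣ 840 := by
  apply orderOf_dvd_of_pow_eq_one
  ext x
  obtain ⟨k, hk, hk', hx⟩ := cycle_le A B (Nat.pos_of_ne_zero h) (pow_orderOf_eq_one _) x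
  have hd : k ∣ 840 := by interval_cases k <;> decide
  obtain ⟨j, hj⟩ := hd
  rw [hj, pow_mul, ← Equiv.Perm.iterate_eq_pow]
  rw [Function.iterate_fixed hx]
  rfl

end Pool.Agent.Q275.CT
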