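import Mathlib

/-!
# Positive primitive formulas, Mittag-Leffler modules and pure submodules

All modules are left modules over an arbitrary associative ring with `1`.
-/

set_option autoImplicit false

namespace Pool.Agent.Q275.ML

universe u

/-- A positive primitive formula over `R` with the finite tuple of free variables `x` indexed by `X`:
there is a finite tuple `y` (indexed by `Y`) with `∑ i, A k i • x i + ∑ j, B k j • y j = 0` for every `k`
in the finite set `K` of equations. -/
structure PP (R : Type u) (X : Type) where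
  /-- index type of the bound variables -/
  Y : Type
  /-- index type of the equations -/
  K : Type
  /-- there are finitely many bound variables -/
  [fY : Fintype Y]
  /-- there are finitely many equations -/
  [fK : Fintype K]
  /-- coefficients of the free variables -/
  A : K → X → R
  /-- coefficients of the bound variables -/
  B : K → Y → R

attribute [instance] PP.fY PP.fK

variable {R : Type u} [Ring R]

/-- The tuple `x` of the module `M` satisfies the positive primitive formula `φ`. -/
def PP.Holds {X : Type} [Fintype X] (φ : PP R X) {M : Type u} [AddCommGroup M] [Module R M]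
    (x : X → M) : Prop :=
  ∃ y : φ.Y → M, ∀ k : φ.K, ∑ i, φ.A k i • x i + ∑ j, φ.B k j • y j = 0

theorem PP.mk_holds {X : Type} [Fintype X] (Y K : Type) [Fintype Y] [Fintype K] (A : K → X → R)
    (B : K → Y → R) {M : Type u} [AddCommGroup M] [Module R M] (x : X → M) :
    (PP.mk Y K A B).Holds x ↔
      ∃ y : Y → M, ∀ k : K, ∑ i, A k i • x i + ∑ j, B k j • y j = 0 := Iff.rfl

/-- The formula `φ` implies the formula `ψ` in every module. -/
def PP.Implies {X : Type} [Fintype X] (φ ψ : PP R X) : Prop :=
  ∀ (N : Type u) [AddCommGroup N] [Module R N] (x : X → N), φ.Holds x → ψ.Holds x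

/-- `M` is a Mittag-Leffler module: the positive primitive type of every finite tuple of `M` contains a
formula implying, in every module, all other formulas of the type. -/
def IsMittagLeffler (R : Type u) [Ring R] (M : Type u) [AddCommGroup M] [Module R M] : Prop :=
  ∀ (X : Type) [Fintype X] (a : X → M),
    ∃ φ : PP R X, φ.Holds a ∧ ∀ ψ : PP R X, ψ.Holds a → φ.Implies ψ

/-- A class of modules over `R`. -/
abbrev ModClass (R : Type u) [Ring R] := ∀ (M : Type u) [AddCommGroup M] [Module R M], Prop

/-- `M` is isomorphic to a direct limit, over a directed index set, of modules in the class `A`. -/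
def InLim {R : Type u} [Ring R] (A : ModClass R) (M : Type u) [AddCommGroup M] [Module R M] : Prop :=
  ∃ (ι : Type u) (_ : Preorder ι) (_ : IsDirected ι (· ≤ ·)) (_ : Nonempty ι) (_ : DecidableEq ι)
    (G : ι → Type u) (_ : ∀ i, AddCommGroup (G i)) (_ : ∀ i, Module R (G i))
    (f : ∀ i j, i ≤ j → G i →ₗ[R] G j) (_ : DirectedSystem G (fun i j h => f i j h)),
    (∀ i, A (G i)) ∧ Nonempty (M ≃ₗ[R] Module.DirectLimit G f)

/-- A submodule is countably generated if it is spanned by a countable set. -/
def CountablyGenerated {M : Type u} [AddCommGroup M] [Module R M] (P : Submodule R M) : Prop :=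
  ∃ s : Set M, s.Countable ∧ Submodule.span R s = P

section basic

variable {X : Type} [Fintype X] {M N : Type u} [AddCommGroup M] [Module R M]
  [AddCommGroup N] [Module R N]

theorem PP.Holds.map {φ : PP R X} {x : X → M} (h : φ.Holds x) (f : M →ₗ[R] N) :
    φ.Holds (fun i => f (x i)) := by
  obtain ⟨y, hy⟩ := h
  refine ⟨fun j => f (y j), fun k => ?_⟩
  have := congrArg f (hy k)
  simpa [map_add, map_sum] using this

theorem PP.Holds.add {φ : PP R X} {x x' : X → M} (h : φ.Holds x) (h' : φ.Holds x') :
    φ.Holds (fun i => x i + x' i) := by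
  obtain ⟨y, hy⟩ := h
  obtain ⟨y', hy'⟩ := h'
  refine ⟨fun j => y j + y' j, fun k => ?_⟩
  simp only [smul_add, Finset.sum_add_distrib]
  have h1 := hy k
  have h2 := hy' k
  calc _ = (∑ i, φ.A k i • x i + ∑ j, φ.B k j • y j)
        + (∑ i, φ.A k i • x' i + ∑ j, φ.B k j • y' j) := by abel
    _ = 0 := by rw [h1, h2, add_zero]

theorem PP.Holds.sub {φ : PP R X} {x x' : X → M} (h : φ.Holds x) (h' : φ.Holds x') :
    φ.Holds (fun i => x i - x' i) := by
  obtain ⟨y, hy⟩ := h
  obtain ⟨y', hy'⟩ := h'
  refine ⟨fun j => y j - y' j, fun k => ?_⟩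
  simp only [smul_sub, Finset.sum_sub_distrib]
  have h1 := hy k
  have h2 := hy' k
  calc _ = (∑ i, φ.A k i • x i + ∑ j, φ.B k j • y j)
        - (∑ i, φ.A k i • x' i + ∑ j, φ.B k j • y' j) := by abel
    _ = 0 := by rw [h1, h2, sub_zero]

/-- conjunction -/
def PP.and (φ ψ : PP R X) : PP R X where
  Y := φ.Y ⊕ ψ.Y
  K := φ.K ⊕ ψ.K
  A := Sum.elim φ.A ψ.A
  B := Sum.elim (fun k => Sum.elim (φ.B k) 0) (fun k => Sum.elim 0 (ψ.B k))

theorem PP.and_holds (φ ψ : PP R X) (x : X → M) : (φ.and ψ).Holds x ↔ φ.Holds x ∧ ψ.Holds x := by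
  rw [PP.and, PP.mk_holds]
  constructor
  · rintro ⟨y, hy⟩
    refine ⟨⟨fun j => y (Sum.inl j), fun k => ?_⟩, ⟨fun j => y (Sum.inr j), fun k => ?_⟩⟩
    · have := hy (Sum.inl k)
      simpa [Fintype.sum_sum_type] using this
    · have := hy (Sum.inr k)
      simpa [Fintype.sum_sum_type] using this
  · rintro ⟨⟨y, hy⟩, ⟨z, hz⟩⟩
    refine ⟨Sum.elim y z, ?_⟩
    rintro (k | k)
    · simpa [Fintype.sum_sum_type] using hy k
    · simpa [Fintype.sum_sum_type] using hz k

/-- substitution of linear combinations -/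
def PP.subst {X' : Type} [Fintype X'] (φ : PP R X) (c : X → X' → R) : PP R X' where
  Y := φ.Y
  K := φ.K
  A := fun k i' => ∑ i, φ.A k i * c i i'
  B := φ.B

theorem PP.subst_holds {X' : Type} [Fintype X'] (φ : PP R X) (c : X → X' → R) (x : X' → M) :
    (φ.subst c).Holds x ↔ φ.Holds (fun i => ∑ i', c i i' • x i') := by
  have key : ∀ k : φ.K, ∑ i' : X', (∑ i, φ.A k i * c i i') • x i'
      = ∑ i, φ.A k i • ∑ i', c i i' • x i' := by
    intro k
    simp only [Finset.sum_smul, Finset.smul_sum, mul_smul]
    rw [Finset.sum_comm]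
  constructor
  · rintro ⟨y, hy⟩
    refine ⟨y, fun k => ?_⟩
    have := hy k
    simp only [PP.subst] at this
    rw [key k] at this
    exact this
  · rintro ⟨y, hy⟩
    refine ⟨y, fun k => ?_⟩
    simp only [PP.subst]
    rw [key k]
    exact hy k

/-- binding the second half of the variables -/
def PP.ex {Z : Type} [Fintype Z] (φ : PP R (X ⊕ Z)) : PP R X where
  Y := Z ⊕ φ.Y
  K := φ.K
  A := fun k i => φ.A k (Sum.inl i)
  B := fun k => Sum.elim (fun z => φ.A k (Sum.inr z)) (φ.B k)

theorem PP.ex_holds {Z : Type} [Fintype Z] (φ : PP R (X ⊕ Z)) (x : X → M) :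
    φ.ex.Holds x ↔ ∃ z : Z → M, φ.Holds (Sum.elim x z) := by
  rw [PP.ex, PP.mk_holds]
  constructor
  · rintro ⟨y, hy⟩
    refine ⟨fun i => y (Sum.inl i), fun j => y (Sum.inr j), fun k => ?_⟩
    have := hy k
    simpa [Fintype.sum_sum_type, add_assoc] using this
  · rintro ⟨z, y, hy⟩
    refine ⟨Sum.elim z y, fun k => ?_⟩
    have := hy k
    simpa [Fintype.sum_sum_type, add_assoc] using this

/-- putting the first half of the variables equal to zero -/
def PP.zeroL {Z : Type} [Fintype Z] (φ : PP R (X ⊕ Z)) : PP R Z where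
  Y := φ.Y
  K := φ.K
  A := fun k i => φ.A k (Sum.inr i)
  B := φ.B

theorem PP.zeroL_holds {Z : Type} [Fintype Z] (φ : PP R (X ⊕ Z)) (z : Z → M) :
    φ.zeroL.Holds z ↔ φ.Holds (Sum.elim (0 : X → M) z) := by
  rw [PP.zeroL, PP.mk_holds]
  constructor
  · rintro ⟨y, hy⟩
    refine ⟨y, fun k => ?_⟩
    have := hy k
    simpa [Fintype.sum_sum_type] using this
  · rintro ⟨y, hy⟩
    refine ⟨y, fun k => ?_⟩
    have := hy k
    simpa [Fintype.sum_sum_type] using this

/-- the formula `∑ c i • x i = 0` -/
def PP.lin (c : X → R) : PP R X where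
  Y := Empty
  K := Unit
  A := fun _ => c
  B := fun _ e => e.elim

theorem PP.lin_holds (c : X → R) (x : X → M) :
    (PP.lin c).Holds x ↔ ∑ i, c i • x i = 0 := by
  rw [PP.lin, PP.mk_holds]
  constructor
  · rintro ⟨y, hy⟩
    have := hy ()
    simpa using this
  · intro h
    refine ⟨fun e => e.elim, fun k => ?_⟩
    simpa using h

end basic

/-- `N` is a pure submodule of `M`. -/
def IsPure {M : Type u} [AddCommGroup M] [Module R M] (N : Submodule R M) : Prop :=
  ∀ (X : Type) [Fintype X] (φ : PP R X) (x : X → N), φ.Holds (fun i => (x i : M)) → φ.Holds x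

section pure

variable {M : Type u} [AddCommGroup M] [Module R M]

open Classical in
theorem IsPure.lift {N : Submodule R M} (hN : IsPure N) {X : Type} [Fintype X] {φ : PP R X}
    {a : X → M ⧸ N} (h : φ.Holds a) : ∃ x : X → M, φ.Holds x ∧ ∀ i, N.mkQ (x i) = a i := by
  obtain ⟨y, hy⟩ := h
  choose a' ha' using fun i => N.mkQ_surjective (a i)
  choose y' hy' using fun j => N.mkQ_surjective (y j)
  have hc : ∀ k, ∑ i, φ.A k i • a' i + ∑ j, φ.B k j • y' j ∈ N := by
    intro k
    rw [← Submodule.ker_mkQ N, LinearMap.mem_ker, map_add, map_sum, map_sum]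
    simp only [map_smul, ha', hy']
    exact hy k
  have hθ : (PP.mk (X ⊕ φ.Y) φ.K (fun k k' => if k' = k then (-1 : R) else 0)
      (fun k => Sum.elim (φ.A k) (φ.B k))).Holds (fun k => ((⟨_, hc k⟩ : N) : M)) := by
    rw [PP.mk_holds]
    refine ⟨Sum.elim a' y', fun k => ?_⟩
    simp only [ite_smul, neg_smul, one_smul, zero_smul, Finset.sum_ite_eq', Finset.mem_univ,
      if_true, Fintype.sum_sum_type, Sum.elim_inl, Sum.elim_inr]
    exact neg_add_cancel _
  have hθ' := hN _ _ _ hθ
  rw [PP.mk_holds] at hθ'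
  obtain ⟨z, hz⟩ := hθ'
  refine ⟨fun i => a' i - (z (Sum.inl i) : M), ⟨fun j => y' j - (z (Sum.inr j) : M), fun k => ?_⟩,
    fun i => ?_⟩
  · have h1 := congrArg (Subtype.val) (hz k)
    simp only [Fintype.sum_sum_type, ite_smul, Finset.sum_ite_eq', Sum.elim_inl, Sum.elim_inr,
      neg_smul, one_smul, zero_smul, Finset.mem_univ, if_true, Submodule.coe_add, Submodule.coe_neg,
      Submodule.coe_zero, AddSubmonoidClass.coe_finsetSum, Submodule.coe_smul] at h1
    simp only [smul_sub, Finset.sum_sub_distrib]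
    have h2 : (∑ i, φ.A k i • (z (Sum.inl i) : M) + ∑ j, φ.B k j • (z (Sum.inr j) : M))
        = ∑ i, φ.A k i • a' i + ∑ j, φ.B k j • y' j := (neg_add_eq_zero.mp h1).symm
    calc _ = (∑ i, φ.A k i • a' i + ∑ j, φ.B k j • y' j)
          - (∑ i, φ.A k i • (z (Sum.inl i) : M) + ∑ j, φ.B k j • (z (Sum.inr j) : M)) := by abel
      _ = 0 := by rw [h2, sub_self]
  · rw [map_sub, ha']
    have : N.mkQ (z (Sum.inl i) : M) = 0 := by simp
    rw [this, sub_zero]

end pure

/-- The positive primitive type of a tuple of a finitely presented module is generated by one formula,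
and a tuple of any module satisfying it is the image of the given tuple. -/
theorem exists_generator {X : Type} [Fintype X] (G : Type u) [AddCommGroup G] [Module R G]
    (hG : Module.FinitePresentation R G) (g : X → G) :
    ∃ φ : PP R X, φ.Holds g ∧ ∀ (N : Type u) [AddCommGroup N] [Module R N] (x : X → N),
      φ.Holds x → ∃ h : G →ₗ[R] N, ∀ i, h (g i) = x i := by
  classical
  obtain ⟨n, m, f, r, hf, hex⟩ := Module.FinitePresentation.exists_fin' R G
  choose c hc using fun i => hf (g i)
  have hfe : ∀ v : Fin n → R, f v = ∑ j, v j • f (Pi.single j 1) := by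
    intro v
    conv_lhs => rw [LinearMap.pi_apply_eq_sum_univ f v]
    refine Finset.sum_congr rfl fun j _ => ?_
    congr 2
    ext l
    simp [Pi.single_apply, eq_comm]
  refine ⟨{ Y := Fin n
            K := X ⊕ Fin m
            A := Sum.elim (fun i i' => if i' = i then -1 else 0) 0
            B := Sum.elim c (fun l => r (Pi.single l 1)) }, ?_, ?_⟩
  · refine ⟨fun j => f (Pi.single j 1), ?_⟩
    rintro (i | l)
    · simp only [Sum.elim_inl, ite_smul, neg_smul, one_smul, zero_smul, Finset.sum_ite_eq',
        Finset.mem_univ, if_true]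
      rw [← hfe, hc]
      simp
    · simp only [Sum.elim_inr, Pi.zero_apply, zero_smul, Finset.sum_const_zero, zero_add]
      rw [← hfe]
      exact (hex _).2 ⟨_, rfl⟩
  · intro N _ _ x hx
    obtain ⟨y, hy⟩ := hx
    let h0 : (Fin n → R) →ₗ[R] N := Fintype.linearCombination R y
    have hh0 : ∀ v, h0 v = ∑ j, v j • y j := fun v => by
      simp [h0, Fintype.linearCombination_apply]
    have hker : LinearMap.ker f ≤ LinearMap.ker h0 := by
      intro v hv
      obtain ⟨w, rfl⟩ := (hex v).1 hv
      rw [LinearMap.mem_ker]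
      have : ∀ w : Fin m → R, h0 (r w) = ∑ l, w l • h0 (r (Pi.single l 1)) := by
        intro w
        have := LinearMap.pi_apply_eq_sum_univ (h0 ∘ₗ r) w
        simp only [LinearMap.comp_apply] at this
        rw [this]
        refine Finset.sum_congr rfl fun j _ => ?_
        congr 3
        ext l
        simp [Pi.single_apply, eq_comm]
      rw [this]
      refine Finset.sum_eq_zero fun l _ => ?_
      have h1 := hy (Sum.inr l)
      simp only [Sum.elim_inr, Pi.zero_apply, zero_smul, Finset.sum_const_zero, zero_add] at h1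
      rw [hh0, h1, smul_zero]
    refine ⟨(LinearMap.ker f).liftQ h0 hker ∘ₗ (LinearMap.quotKerEquivOfSurjective f hf).symm.toLinearMap,
      fun i => ?_⟩
    have h1 : (LinearMap.quotKerEquivOfSurjective f hf).symm (g i)
        = (LinearMap.ker f).mkQ (c i) := by
      rw [LinearEquiv.symm_apply_eq, ← hc i]
      rfl
    simp only [LinearMap.comp_apply, LinearEquiv.coe_coe, h1, Submodule.mkQ_apply,
      Submodule.liftQ_apply]
    have h2 := hy (Sum.inl i)
    simp only [Sum.elim_inl, ite_smul, neg_smul, one_smul, zero_smul, Finset.sum_ite_eq',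
      Finset.mem_univ, if_true] at h2
    rw [hh0]
    exact (neg_add_eq_zero.mp h2).symm

end Pool.Agent.Q275.ML
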