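import Pool.Agent.Q275.MLDefs

/-!
# Direct limits of finitely presented modules, factorisation, Mittag-Leffler quotients
-/

set_option autoImplicit false

namespace Pool.Agent.Q275.ML

universe u

variable {R : Type u} [Ring R]

/-- every finite system of linear equations solved in `L` by a tuple is solved by a tuple of a member of
`A` mapping to it -/
def Fac (A : ModClass R) (L : Type u) [AddCommGroup L] [Module R L] : Prop :=
  ∀ (X : Type) [Fintype X] (φ : PP R X) (a : X → L), φ.Holds a →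
    ∃ (G : Type u) (_ : AddCommGroup G) (_ : Module R G) (g : X → G) (w : G →ₗ[R] L),
      A G ∧ φ.Holds g ∧ ∀ i, w (g i) = a i

theorem exists_stage {ι : Type u} [Preorder ι] [IsDirected ι (· ≤ ·)] [Nonempty ι] [DecidableEq ι]
    {G : ι → Type u} [∀ i, AddCommGroup (G i)] [∀ i, Module R (G i)]
    (f : ∀ i j, i ≤ j → G i →ₗ[R] G j) {X : Type} [Fintype X]
    (a : X → Module.DirectLimit G f) (i₀ : ι) :
    ∃ i, i₀ ≤ i ∧ ∃ g : X → G i, ∀ x, Module.DirectLimit.of R ι G f i (g x) = a x := by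
  choose i g hg using fun x => Module.DirectLimit.exists_of (a x)
  obtain ⟨m, hm⟩ := Finset.exists_le (insert i₀ (Finset.univ.image i))
  refine ⟨m, hm _ (Finset.mem_insert_self _ _), fun x => f (i x) m (hm _ (by simp)) (g x), fun x => ?_⟩
  rw [Module.DirectLimit.of_f, hg]

theorem exists_holds_stage {ι : Type u} [Preorder ι] [IsDirected ι (· ≤ ·)] [Nonempty ι] [DecidableEq ι]
    {G : ι → Type u} [∀ i, AddCommGroup (G i)] [∀ i, Module R (G i)]
    (f : ∀ i j, i ≤ j → G i →ₗ[R] G j) [DirectedSystem G (fun i j h => f i j h)]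
    {X : Type} [Fintype X] (φ : PP R X)
    (i₀ : ι) (g₀ : X → G i₀) (h : φ.Holds (fun x => Module.DirectLimit.of R ι G f i₀ (g₀ x))) :
    ∃ i, ∃ h : i₀ ≤ i, φ.Holds (fun x => f i₀ i h (g₀ x)) := by
  obtain ⟨y, hy⟩ := h
  obtain ⟨i, hi, z, hz⟩ := exists_stage f y i₀
  have h1 : ∀ k, Module.DirectLimit.of R ι G f i
      (∑ x, φ.A k x • f i₀ i hi (g₀ x) + ∑ j, φ.B k j • z j) = 0 := by
    intro k
    rw [map_add, map_sum, map_sum]
    simp only [map_smul, Module.DirectLimit.of_f, hz]
    exact hy k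
  choose j hj hj' using fun k => Module.DirectLimit.of.zero_exact (h1 k)
  obtain ⟨m, hm⟩ := Finset.exists_le (insert i (Finset.univ.image j))
  have him : i ≤ m := hm _ (Finset.mem_insert_self _ _)
  refine ⟨m, hi.trans him, fun l => f i m him (z l), fun k => ?_⟩
  have hjm : j k ≤ m := hm _ (by simp)
  have h2 := congrArg (f (j k) m hjm) (hj' k)
  rw [map_zero, DirectedSystem.map_map' f (hj k) hjm, map_add, map_sum, map_sum] at h2
  simp only [map_smul] at h2
  rw [← h2]
  congr 1
  refine Finset.sum_congr rfl fun x _ => ?_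
  rw [DirectedSystem.map_map' f hi him]

theorem fac_of_inLim (A : ModClass R) (L : Type u) [AddCommGroup L] [Module R L] (h : InLim A L) :
    Fac A L := by
  obtain ⟨ι, _, _, _, _, G, _, _, f, _, hA, ⟨e⟩⟩ := h
  intro X _ φ a ha
  have ha' := ha.map e.toLinearMap
  obtain ⟨i₀, -, g₀, hg₀⟩ := exists_stage f (fun x => e (a x)) (Classical.arbitrary ι)
  have ha'' : φ.Holds (fun x => Module.DirectLimit.of R ι G f i₀ (g₀ x)) := by
    have : (fun x => Module.DirectLimit.of R ι G f i₀ (g₀ x)) = fun x => e.toLinearMap (a x) :=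
      funext fun x => hg₀ x
    rw [this]
    exact ha'
  obtain ⟨i, hi, hh⟩ := exists_holds_stage f φ i₀ g₀ ha''
  refine ⟨G i, inferInstance, inferInstance, fun x => f i₀ i hi (g₀ x),
    e.symm.toLinearMap ∘ₗ Module.DirectLimit.of R ι G f i, hA i, hh, fun x => ?_⟩
  simp [Module.DirectLimit.of_f, hg₀]

theorem fac_quotient (A : ModClass R) {M : Type u} [AddCommGroup M] [Module R M] (h : Fac A M)
    {N : Submodule R M} (hN : IsPure N) : Fac A (M ⧸ N) := by
  intro X _ φ a ha
  obtain ⟨x, hx, hxa⟩ := hN.lift ha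
  obtain ⟨G, _, _, g, w, hG, hg, hw⟩ := h X φ x hx
  refine ⟨G, inferInstance, inferInstance, g, N.mkQ ∘ₗ w, hG, hg, fun i => ?_⟩
  rw [LinearMap.comp_apply, hw, hxa]

/-- a stage of the sequence of members of `A` over a tuple of `L` -/
structure Pt (A : ModClass R) (L : Type u) [AddCommGroup L] [Module R L] {X : Type} [Fintype X]
    (a : X → L) where
  G : Type u
  [i1 : AddCommGroup G]
  [i2 : Module R G]
  hA : A G
  g : X → G
  w : G →ₗ[R] L
  hw : ∀ i, w (g i) = a i

attribute [instance] Pt.i1 Pt.i2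

/-- If all direct limits of members of `A` (finitely presented modules) are Mittag-Leffler, so is every
module with the factorisation property. -/
theorem ml_of_fac (A : ModClass R)
    (hfp : ∀ (M : Type u) [AddCommGroup M] [Module R M], A M → Module.FinitePresentation R M)
    (hml : ∀ (M : Type u) [AddCommGroup M] [Module R M], InLim A M → IsMittagLeffler R M)
    (L : Type u) [AddCommGroup L] [Module R L] (hL : Fac A L) : IsMittagLeffler R L := by
  classical
  intro X _ a
  by_contra hcon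
  push Not at hcon
  -- the formulas generating the types in members of `A`
  have hgen : ∀ P : Pt A L a, ∃ φ : PP R X, φ.Holds P.g ∧
      ∀ (N : Type u) [AddCommGroup N] [Module R N] (x : X → N),
        φ.Holds x → ∃ h : P.G →ₗ[R] N, ∀ i, h (P.g i) = x i := fun P =>
    exists_generator P.G (hfp _ P.hA) P.g
  choose gen hgen1 hgen2 using hgen
  have hstep : ∀ P : Pt A L a, ∃ Q : Pt A L a, (∃ h : P.G →ₗ[R] Q.G, ∀ i, h (P.g i) = Q.g i) ∧
      ¬ (gen P).Implies (gen Q) := by
    intro P
    have h1 : (gen P).Holds a := by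
      have := (hgen1 P).map P.w
      simpa only [P.hw] using this
    obtain ⟨ψ, hψ, hn⟩ := hcon (gen P) h1
    obtain ⟨G, _, _, g, w, hG, hg, hw⟩ := hL X ((gen P).and ψ) a ((PP.and_holds _ _ _).2 ⟨h1, hψ⟩)
    obtain ⟨hg1, hg2⟩ := (PP.and_holds _ _ _).1 hg
    let Q : Pt A L a := { G := G, hA := hG, g := g, w := w, hw := hw }
    refine ⟨Q, hgen2 P Q.G Q.g hg1, fun himp => hn ?_⟩
    intro N _ _ x hx
    obtain ⟨h, hh⟩ := hgen2 Q N x (himp N x hx)
    have := hg2.map h
    have e : (fun i => h (g i)) = x := funext hh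
    rwa [e] at this
  choose next hnext1 hnext2 using hstep
  choose tr htr using hnext1
  -- the starting point
  have hstart : Nonempty (Pt A L a) := by
    obtain ⟨G, _, _, g, w, hG, hg, hw⟩ := hL X (PP.mk Empty Empty (fun e _ => e.elim) (fun e _ => e.elim))
      a ⟨fun e => e.elim, fun e => e.elim⟩
    exact ⟨{ G := G, hA := hG, g := g, w := w, hw := hw }⟩
  obtain ⟨P0⟩ := hstart
  obtain ⟨S, t, ht, hnx⟩ : ∃ (S : ℕ → Pt A L a) (t : ∀ n : ℕ, (S n).G →ₗ[R] (S (n + 1)).G),
      (∀ (n : ℕ) i, t n ((S n).g i) = (S (n + 1)).g i) ∧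
        ∀ n : ℕ, ¬ (gen (S n)).Implies (gen (S (n + 1))) :=
    ⟨fun n => Nat.rec P0 (fun _ P => next P) n, fun n => tr _, fun n i => htr _ i,
      fun n => hnext2 _⟩
  let T : ∀ m n : ℕ, m ≤ n → (S m).G →ₗ[R] (S n).G := fun m n h =>
    Nat.leRec (motive := fun (n : ℕ) (_ : m ≤ n) => (S m).G →ₗ[R] (S n).G) LinearMap.id
      (fun (n : ℕ) (_ : m ≤ n) (f : (S m).G →ₗ[R] (S n).G) => t n ∘ₗ f) h
  have hTself : ∀ m, T m m le_rfl = LinearMap.id := fun m => by
    simp only [T, Nat.leRec_self]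
  have hTsucc : ∀ m n (h : m ≤ n), T m (n + 1) (Nat.le_succ_of_le h) = t n ∘ₗ T m n h := fun m n h => by
    simp only [T]
    rw [Nat.leRec_succ]
  have hTtrans : ∀ m n p (h : m ≤ n) (h' : n ≤ p) (x : (S m).G),
      T n p h' (T m n h x) = T m p (h.trans h') x := by
    intro m n p h h' x
    induction p, h' using Nat.le_induction with
    | base => rw [hTself]; rfl
    | succ p hp ih =>
      rw [hTsucc n p hp, hTsucc m p (h.trans hp), LinearMap.comp_apply, LinearMap.comp_apply, ih]
  have hTg : ∀ m n (h : m ≤ n) i, T m n h ((S m).g i) = (S n).g i := by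
    intro m n h i
    induction n, h using Nat.le_induction with
    | base => rw [hTself]; rfl
    | succ n hn ih => rw [hTsucc m n hn, LinearMap.comp_apply, ih, ht]
  -- the direct limit
  let G : ULift.{u} ℕ → Type u := fun n => (S n.down).G
  let f : ∀ i j : ULift.{u} ℕ, i ≤ j → G i →ₗ[R] G j := fun i j h => T i.down j.down h
  have hdir : IsDirected (ULift.{u} ℕ) (· ≤ ·) := inferInstance
  have hds : DirectedSystem G (fun i j h => f i j h) :=
    { map_self := fun i x => by
        change T i.down i.down _ x = x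
        rw [hTself]; rfl
      map_map := fun k j i hij hjk x => hTtrans _ _ _ _ _ x }
  let D := Module.DirectLimit G f
  have hD : InLim A D :=
    ⟨ULift.{u} ℕ, inferInstance, hdir, inferInstance, inferInstance, G, inferInstance, inferInstance, f,
      hds, fun i => (S i.down).hA, ⟨LinearEquiv.refl R _⟩⟩
  let ainf : X → D := fun i => Module.DirectLimit.of R (ULift.{u} ℕ) G f ⟨0⟩ ((S 0).g i)
  have hainf : ∀ n i, Module.DirectLimit.of R (ULift.{u} ℕ) G f ⟨n⟩ ((S n).g i) = ainf i := by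
    intro n i
    have h1 := hTg 0 n (Nat.zero_le n) i
    have h2 : (S n).g i = f ⟨0⟩ ⟨n⟩ (Nat.zero_le n) ((S 0).g i) := h1.symm
    rw [h2]
    exact Module.DirectLimit.of_f
  obtain ⟨θ, hθ, hall⟩ := hml D hD X ainf
  obtain ⟨⟨n⟩, hn, hθn⟩ := exists_holds_stage f θ (⟨0⟩ : ULift.{u} ℕ) (fun i => (S 0).g i) hθ
  have hθn' : θ.Holds ((S n).g) := by
    have e : (fun x => f ⟨0⟩ ⟨n⟩ hn ((S 0).g x)) = (S n).g := funext fun i => hTg 0 n (Nat.zero_le n) i
    rwa [e] at hθn
  apply hnx n
  intro N _ _ x hx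
  obtain ⟨h, hh⟩ := hgen2 (S n) N x hx
  have h1 : θ.Holds x := by
    have := hθn'.map h
    have e : (fun i => h ((S n).g i)) = x := funext hh
    rwa [e] at this
  have h2 : (gen (S (n + 1))).Holds ainf := by
    have := (hgen1 (S (n + 1))).map (Module.DirectLimit.of R (ULift.{u} ℕ) G f ⟨n + 1⟩)
    have e : (fun i => Module.DirectLimit.of R (ULift.{u} ℕ) G f ⟨n + 1⟩ ((S (n + 1)).g i)) = ainf :=
      funext fun i => hainf (n + 1) i
    rwa [e] at this
  exact hall _ h2 N x h1

end Pool.Agent.Q275.ML
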