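import Pool.Agent.Q275.MLFac

/-!
# Splitting off countably generated submodules and the decomposition
-/

set_option autoImplicit false

namespace Pool.Agent.Q275.ML

universe u

variable {R : Type u} [Ring R] {M : Type u} [AddCommGroup M] [Module R M]

/-- a finite tuple `e` of `M` satisfying a formula which generates the type of its image in `M ⧸ N` -/
structure Stage (N : Submodule R M) where
  X : Type
  [fX : Fintype X]
  e : X → M
  φ : PP R X
  holds : φ.Holds e
  gen : ∀ ψ : PP R X, ψ.Holds (fun i => N.mkQ (e i)) → φ.Implies ψ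

attribute [instance] Stage.fX

/-- `s'` extends `s` by a tuple which witnesses the formula of `s` modulo `N` -/
def Stage.Rel {N : Submodule R M} (s s' : Stage N) : Prop :=
  (∀ i, ∃ i', s'.e i' = s.e i) ∧
    ∃ y : s.φ.Y → M, (∀ j, ∃ i', s'.e i' = y j) ∧
      ∀ k, ∑ i, s.φ.A k i • N.mkQ (s.e i) + ∑ j, s.φ.B k j • N.mkQ (y j) = 0

theorem Stage.exists_next {N : Submodule R M} (hN : IsPure N) (hML : IsMittagLeffler R (M ⧸ N))
    (s : Stage N) : ∃ s' : Stage N, s.Rel s' := by
  obtain ⟨y, hy⟩ := s.holds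
  -- the tuple modulo `N` and the generator of its type
  obtain ⟨φ', h1, h2⟩ := hML (s.X ⊕ s.φ.Y) (fun i => N.mkQ (Sum.elim s.e y i))
  have h3 : φ'.ex.Holds (fun i => N.mkQ (s.e i)) := by
    rw [PP.ex_holds]
    refine ⟨fun j => N.mkQ (y j), ?_⟩
    have e : Sum.elim (fun i => N.mkQ (s.e i)) (fun j => N.mkQ (y j))
        = fun i => N.mkQ (Sum.elim s.e y i) := by
      ext i
      rcases i with i | j <;> rfl
    rw [e]
    exact h1
  have h4 := s.gen _ h3 M s.e s.holds
  rw [PP.ex_holds] at h4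
  obtain ⟨z, hz⟩ := h4
  have h5 := (h1.sub (hz.map N.mkQ))
  have h6 : φ'.zeroL.Holds (fun j => N.mkQ (y j - z j)) := by
    rw [PP.zeroL_holds]
    have e : Sum.elim (0 : s.X → M ⧸ N) (fun j => N.mkQ (y j - z j))
        = fun i => N.mkQ (Sum.elim s.e y i) - N.mkQ (Sum.elim s.e z i) := by
      ext i
      rcases i with i | j
      · simp
      · simp
    rw [e]
    exact h5
  obtain ⟨w, hw, hwe⟩ := hN.lift h6
  rw [PP.zeroL_holds] at hw
  have h7 := hz.add hw
  have e7 : (fun i => Sum.elim s.e z i + Sum.elim (0 : s.X → M) w i)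
      = Sum.elim s.e (fun j => z j + w j) := by
    ext i
    rcases i with i | j <;> simp
  rw [e7] at h7
  have e8 : (fun i => N.mkQ (Sum.elim s.e (fun j => z j + w j) i))
      = fun i => N.mkQ (Sum.elim s.e y i) := by
    ext i
    rcases i with i | j
    · rfl
    · simp only [Sum.elim_inr, map_add, hwe, map_sub]
      abel
  refine ⟨{ X := s.X ⊕ s.φ.Y, e := Sum.elim s.e (fun j => z j + w j), φ := φ', holds := h7,
            gen := fun ψ hψ => h2 ψ (by rw [e8] at hψ; exact hψ) }, ?_, ?_⟩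
  · intro i
    exact ⟨Sum.inl i, rfl⟩
  · refine ⟨fun j => z j + w j, fun j => ⟨Sum.inr j, rfl⟩, fun k => ?_⟩
    have h9 : ∀ j, N.mkQ (z j + w j) = N.mkQ (y j) := fun j => congrFun e8 (Sum.inr j)
    simp only [h9]
    have := congrArg N.mkQ (hy k)
    simpa only [map_add, map_sum, map_smul, map_zero] using this

theorem exists_stage_start {N : Submodule R M} (hN : IsPure N) (hML : IsMittagLeffler R (M ⧸ N))
    (m : M) : ∃ s : Stage N, ∃ i, N.mkQ (s.e i) = N.mkQ m := by
  obtain ⟨φ, h1, h2⟩ := hML Unit (fun _ => N.mkQ m)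
  obtain ⟨x, hx, hxe⟩ := hN.lift h1
  have e : (fun i => N.mkQ (x i)) = fun _ => N.mkQ m := funext hxe
  exact ⟨{ X := Unit, e := x, φ := φ, holds := hx, gen := fun ψ hψ => h2 ψ (by rw [e] at hψ; exact hψ) },
    (), hxe ()⟩

/-- A pure proper submodule with Mittag-Leffler quotient can be enlarged by a nonzero countably generated
complementary summand to a pure submodule. -/
theorem exists_summand {N : Submodule R M} (hN : IsPure N) (hML : IsMittagLeffler R (M ⧸ N))
    (hne : N ≠ ⊤) :
    ∃ Q : Submodule R M, Q ≠ ⊥ ∧ Disjoint Q N ∧ IsPure (N ⊔ Q) ∧ CountablyGenerated Q := by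
  obtain ⟨m, hm⟩ : ∃ m, m ∉ N := by
    by_contra h
    push Not at h
    exact hne (Submodule.eq_top_iff'.2 h)
  obtain ⟨s0, i0, hi0⟩ := exists_stage_start hN hML m
  choose next hnext using fun s : Stage N => s.exists_next hN hML
  obtain ⟨S, hS0, hS⟩ : ∃ S : ℕ → Stage N, S 0 = s0 ∧ ∀ n : ℕ, (S n).Rel (S (n + 1)) :=
    ⟨fun n => Nat.rec s0 (fun _ s => next s) n, rfl, fun n => hnext _⟩
  let W : ℕ → Submodule R M := fun n => Submodule.span R (Set.range (S n).e)
  have hWmono : Monotone W := by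
    refine monotone_nat_of_le_succ fun n => Submodule.span_mono ?_
    rintro _ ⟨i, rfl⟩
    obtain ⟨i', hi'⟩ := (hS n).1 i
    exact ⟨i', hi'⟩
  let Q : Submodule R M := ⨆ n, W n
  have hmemQ : ∀ q, q ∈ Q ↔ ∃ n, q ∈ W n := fun q =>
    Submodule.mem_iSup_of_directed W hWmono.directed_le
  have hcoef : ∀ n q, q ∈ W n → ∃ c : (S n).X → R, ∑ i, c i • (S n).e i = q := by
    intro n q hq
    exact (Submodule.mem_span_range_iff_exists_fun R).1 hq
  -- `Q` meets `N` trivially
  have hdisj : ∀ q ∈ Q, q ∈ N → q = 0 := by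
    intro q hq hqN
    obtain ⟨n, hn⟩ := (hmemQ q).1 hq
    obtain ⟨c, rfl⟩ := hcoef n q hn
    have h1 : (PP.lin c).Holds (fun i => N.mkQ ((S n).e i)) := by
      rw [PP.lin_holds]
      have : N.mkQ (∑ i, c i • (S n).e i) = 0 := (Submodule.Quotient.mk_eq_zero N).2 hqN
      simpa only [map_sum, map_smul] using this
    have h2 := (S n).gen _ h1 M _ (S n).holds
    rwa [PP.lin_holds] at h2
  refine ⟨Q, ?_, ?_, ?_, ?_⟩
  · -- nonzero
    intro hQ
    have h1 : s0.e i0 ∈ Q := (hmemQ _).2 ⟨0, Submodule.subset_span (by rw [hS0]; exact ⟨i0, rfl⟩)⟩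
    rw [hQ, Submodule.mem_bot] at h1
    rw [h1, map_zero] at hi0
    apply hm
    simpa using hi0.symm
  · rw [Submodule.disjoint_def]
    exact hdisj
  · -- purity
    intro X _ ψ t ht
    -- decompose the tuple
    have hdec : ∀ x, ∃ a ∈ N, ∃ q ∈ Q, a + q = (t x : M) := fun x =>
      Submodule.mem_sup.1 (t x).2
    choose a ha q hq haq using hdec
    choose nx hnx using fun x => (hmemQ (q x)).1 (hq x)
    obtain ⟨n, hn⟩ := Finset.exists_le (Finset.univ.image nx)
    have hqn : ∀ x, q x ∈ W n := fun x => hWmono (hn _ (by simp)) (hnx x)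
    choose c hc using fun x => hcoef n (q x) (hqn x)
    -- modulo `N`
    obtain ⟨y, hy⟩ := ht
    have h1 : (ψ.subst c).Holds (fun i => N.mkQ ((S n).e i)) := by
      rw [PP.subst_holds]
      have e : (fun i => ∑ i', c i i' • N.mkQ ((S n).e i')) = fun i => N.mkQ (t i : M) := by
        ext i
        have h2 : N.mkQ (a i) = 0 := by simpa using ha i
        rw [← haq i, map_add, h2, zero_add, ← hc i, map_sum]
        simp only [map_smul]
      rw [e]
      refine ⟨fun j => N.mkQ (y j), fun k => ?_⟩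
      have := congrArg N.mkQ (hy k)
      simpa only [map_add, map_sum, map_smul, map_zero] using this
    -- the image of `Q` in the quotient
    let P : Submodule R (M ⧸ N) := Q.map N.mkQ
    have heP : ∀ i, N.mkQ ((S n).e i) ∈ P := fun i =>
      Submodule.mem_map_of_mem ((hmemQ _).2 ⟨n, Submodule.subset_span ⟨i, rfl⟩⟩)
    have h2 : (S n).φ.Holds (fun i => (⟨N.mkQ ((S n).e i), heP i⟩ : P)) := by
      obtain ⟨z, hz, hz'⟩ := (hS n).2
      have hzP : ∀ j, N.mkQ (z j) ∈ P := fun j => by
        obtain ⟨i', hi'⟩ := hz j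
        exact Submodule.mem_map_of_mem ((hmemQ _).2 ⟨n + 1, Submodule.subset_span ⟨i', hi'⟩⟩)
      refine ⟨fun j => ⟨N.mkQ (z j), hzP j⟩, fun k => ?_⟩
      apply Subtype.ext
      simp only [Submodule.coe_add, AddSubmonoidClass.coe_finsetSum, Submodule.coe_smul,
        Submodule.coe_zero]
      exact hz' k
    have h3 := (S n).gen _ h1 P _ h2
    rw [PP.subst_holds] at h3
    obtain ⟨v, hv⟩ := h3
    -- lift the witnesses to `Q`
    have hvQ : ∀ j, ∃ v' ∈ Q, N.mkQ v' = (v j : M ⧸ N) := fun j => (v j).2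
    choose v' hv'Q hv' using hvQ
    have h4 : ∀ k, ∑ i, ψ.A k i • q i + ∑ j, ψ.B k j • v' j = 0 := by
      intro k
      apply hdisj
      · exact Q.add_mem (Q.sum_mem fun i _ => Q.smul_mem _ (hq i))
          (Q.sum_mem fun j _ => Q.smul_mem _ (hv'Q j))
      · rw [← Submodule.ker_mkQ N, LinearMap.mem_ker]
        have h5 := congrArg (Subtype.val) (hv k)
        simp only [Submodule.coe_add, AddSubmonoidClass.coe_finsetSum, Submodule.coe_smul,
          Submodule.coe_zero] at h5
        simp only [map_add, map_sum, map_smul, hv']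
        rw [← h5]
        congr 1
        refine Finset.sum_congr rfl fun i _ => ?_
        rw [← hc i, map_sum]
        simp only [map_smul]
    have h6 : ψ.Holds (fun i => ((⟨a i, ha i⟩ : N) : M)) := by
      refine ⟨fun j => y j - v' j, fun k => ?_⟩
      have h7 := hy k
      have h8 := h4 k
      simp only [← haq, smul_add, Finset.sum_add_distrib] at h7
      simp only [smul_sub, Finset.sum_sub_distrib]
      calc _ = (∑ x, ψ.A k x • a x + ∑ x, ψ.A k x • q x + ∑ j, ψ.B k j • y j)
            - (∑ i, ψ.A k i • q i + ∑ j, ψ.B k j • v' j) := by abel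
        _ = 0 := by rw [h7, h8, sub_zero]
    obtain ⟨b, hb⟩ := hN X ψ _ h6
    refine ⟨fun j => ⟨(b j : M) + v' j, Submodule.add_mem_sup (b j).2 (hv'Q j)⟩, fun k => ?_⟩
    apply Subtype.ext
    have h9 := congrArg (Subtype.val) (hb k)
    simp only [Submodule.coe_add, AddSubmonoidClass.coe_finsetSum, Submodule.coe_smul,
      Submodule.coe_zero] at h9 ⊢
    have h8 := h4 k
    simp only [← haq, smul_add, Finset.sum_add_distrib]
    calc _ = (∑ x, ψ.A k x • a x + ∑ x, ψ.B k x • (b x : M))
          + (∑ i, ψ.A k i • q i + ∑ j, ψ.B k j • v' j) := by abel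
      _ = 0 := by rw [h9, h8, add_zero]
  · refine ⟨⋃ n, Set.range (S n).e, Set.countable_iUnion fun n => Set.countable_range _, ?_⟩
    rw [Submodule.span_iUnion]

/-- the union of a directed family of pure submodules is pure -/
theorem isPure_sSup {c : Set (Submodule R M)} (hne : c.Nonempty) (hc : DirectedOn (· ≤ ·) c)
    (h : ∀ N ∈ c, IsPure N) : IsPure (sSup c) := by
  intro X _ φ x hx
  have h1 : ∀ i, ∃ N ∈ c, (x i : M) ∈ N := fun i =>
    (Submodule.mem_sSup_of_directed hne hc).1 (x i).2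
  choose P hP hxP using h1
  -- a common member
  obtain ⟨N, hN, hxN⟩ : ∃ N ∈ c, ∀ i, (x i : M) ∈ N := by
    classical
    have : ∀ s : Finset X, ∃ N ∈ c, ∀ i ∈ s, (x i : M) ∈ N := by
      intro s
      induction s using Finset.induction_on with
      | empty =>
        obtain ⟨N, hN⟩ := hne
        exact ⟨N, hN, by simp⟩
      | insert a s ha ih =>
        obtain ⟨N, hN, hs⟩ := ih
        obtain ⟨N', hN', h1, h2⟩ := hc N hN (P a) (hP a)
        refine ⟨N', hN', fun i hi => ?_⟩
        rcases Finset.mem_insert.1 hi with rfl | hi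
        · exact h2 (hxP i)
        · exact h1 (hs i hi)
    obtain ⟨N, hN, hs⟩ := this Finset.univ
    exact ⟨N, hN, fun i => hs i (Finset.mem_univ i)⟩
  have h2 := h N hN X φ (fun i => ⟨(x i : M), hxN i⟩) hx
  have hle : N ≤ sSup c := le_sSup hN
  have h3 := h2.map (Submodule.inclusion hle)
  exact h3

theorem isPure_bot : IsPure (⊥ : Submodule R M) := by
  intro X _ φ x _
  refine ⟨fun _ => 0, fun k => ?_⟩
  exact Subsingleton.elim _ _

/-- If all pure quotients of `M` are Mittag-Leffler then `M` is a direct sum of countably generated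
modules. -/
theorem decomposition (h : ∀ N : Submodule R M, IsPure N → IsMittagLeffler R (M ⧸ N)) :
    ∃ (ι : Type u) (_ : DecidableEq ι) (P : ι → Submodule R M),
      DirectSum.IsInternal P ∧ ∀ i, CountablyGenerated (P i) := by
  classical
  let F : Set (Set (Submodule R M)) :=
    {𝒮 | sSupIndep 𝒮 ∧ IsPure (sSup 𝒮) ∧ ∀ Q ∈ 𝒮, CountablyGenerated Q}
  obtain ⟨𝒮, hmax⟩ : ∃ 𝒮, Maximal (fun 𝒮 => 𝒮 ∈ F) 𝒮 := by
    apply zorn_subset
    intro c hcF hc
    refine ⟨⋃₀ c, ⟨?_, ?_, ?_⟩, fun s hs => Set.subset_sUnion_of_mem hs⟩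
    · exact iSupIndep_sUnion_of_directed hc.directedOn fun a ha => (hcF ha).1
    · rcases c.eq_empty_or_nonempty with rfl | hne
      · simp only [Set.sUnion_empty, sSup_empty]
        exact isPure_bot
      · have e : sSup (⋃₀ c) = sSup ((fun s => sSup s) '' c) := by
          rw [sSup_sUnion, sSup_image]
        rw [e]
        apply isPure_sSup (hne.image _)
        · rintro _ ⟨a, ha, rfl⟩ _ ⟨b, hb, rfl⟩
          rcases hc.total ha hb with hab | hab
          · exact ⟨sSup b, ⟨b, hb, rfl⟩, sSup_le_sSup hab, le_rfl⟩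
          · exact ⟨sSup a, ⟨a, ha, rfl⟩, le_rfl, sSup_le_sSup hab⟩
        · rintro _ ⟨a, ha, rfl⟩
          exact (hcF ha).2.1
    · rintro Q ⟨a, ha, hQ⟩
      exact (hcF ha).2.2 Q hQ
  obtain ⟨⟨hind, hpure, hcg⟩, hmax'⟩ := hmax
  have htop : sSup 𝒮 = ⊤ := by
    by_contra hne
    obtain ⟨Q, hQ0, hQd, hQp, hQc⟩ := exists_summand hpure (h _ hpure) hne
    have hins : insert Q 𝒮 ∈ F := by
      refine ⟨?_, ?_, ?_⟩
      · intro T hT
        rcases Set.mem_insert_iff.1 hT with rfl | hT
        · refine hQd.mono_right (sSup_le_sSup ?_)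
          rintro A ⟨hA, hne'⟩
          rcases Set.mem_insert_iff.1 hA with rfl | hA
          · exact absurd rfl hne'
          · exact hA
        · have h1 : Disjoint T (sSup (𝒮 \ {T})) := hind hT
          have h2 : Disjoint (T ⊔ sSup (𝒮 \ {T})) Q := by
            refine (hQd.mono_right ?_).symm
            exact sup_le (le_sSup hT) (sSup_le_sSup Set.sdiff_subset)
          have h3 := h1.disjoint_sup_right_of_disjoint_sup_left h2
          refine h3.mono_right (sSup_le ?_)
          rintro A ⟨hA, hne'⟩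
          rcases Set.mem_insert_iff.1 hA with rfl | hA
          · exact le_sup_right
          · exact (le_sSup (show A ∈ 𝒮 \ {T} from ⟨hA, hne'⟩)).trans le_sup_left
      · rw [sSup_insert, sup_comm]
        exact hQp
      · intro T hT
        rcases Set.mem_insert_iff.1 hT with rfl | hT
        · exact hQc
        · exact hcg T hT
    have hmem : Q ∈ 𝒮 := hmax' hins (Set.subset_insert _ _) (Set.mem_insert _ _)
    have : Disjoint Q Q := hQd.mono_right (le_sSup hmem)
    exact hQ0 (disjoint_self.1 this)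
  refine ⟨𝒮, inferInstance, fun Q => (Q : Submodule R M), ?_, fun Q => hcg _ Q.2⟩
  apply DirectSum.isInternal_submodule_of_iSupIndep_of_iSup_eq_top
  · exact (sSupIndep_iff 𝒮).1 hind
  · rw [← sSup_eq_iSup']
    exact htop

/-- Main theorem. -/
theorem main (A : ModClass R)
    (hfp : ∀ (M : Type u) [AddCommGroup M] [Module R M], A M → Module.FinitePresentation R M)
    (hml : ∀ (M : Type u) [AddCommGroup M] [Module R M], InLim A M → IsMittagLeffler R M)
    (M : Type u) [AddCommGroup M] [Module R M] (hM : InLim A M) :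
    ∃ (ι : Type u) (_ : DecidableEq ι) (P : ι → Submodule R M),
      DirectSum.IsInternal P ∧ ∀ i, CountablyGenerated (P i) :=
  decomposition fun _ hN => ml_of_fac A hfp hml _ (fac_quotient A (fac_of_inLim A M hM) hN)

end Pool.Agent.Q275.ML
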