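import Mathlib

/-!
# Functions of bounded degree on a vector space
-/

set_option autoImplicit false

open Polynomial

namespace Pool.Agent.Q275.Quad

section Uni

variable (F : Type*) [Field F]

/-- Functions `F → F` given by a polynomial of degree less than `k`. -/
noncomputable def UP (k : ℕ) : Submodule F (F → F) :=
  (degreeLT F k).map (LinearMap.pi (fun t : F => (Polynomial.leval t)))

variable {F}

theorem mem_UP {k : ℕ} {φ : F → F} :
    φ ∈ UP F k ↔ ∃ q : F[X], q.degree < k ∧ ∀ t, φ t = q.eval t := by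
  constructor
  · rintro ⟨q, hq, rfl⟩
    exact ⟨q, mem_degreeLT.1 hq, fun t => rfl⟩
  · rintro ⟨q, hq, h⟩
    exact ⟨q, mem_degreeLT.2 hq, funext fun t => (h t).symm⟩

theorem UP_mono {k l : ℕ} (h : k ≤ l) : UP F k ≤ UP F l :=
  Submodule.map_mono (degreeLT_mono h)

theorem UP_congr {k : ℕ} {φ ψ : F → F} (h : ψ ∈ UP F k) (e : ∀ t, φ t = ψ t) : φ ∈ UP F k := by
  have : φ = ψ := funext e
  rw [this]; exact h

theorem UP_zero {φ : F → F} (h : φ ∈ UP F 0) (t : F) : φ t = 0 := by
  obtain ⟨q, hq, h⟩ := mem_UP.1 h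
  have : q = 0 := by
    rw [← Polynomial.degree_eq_bot]
    by_contra hne
    have h0 : q ≠ 0 := fun h0 => hne (by rw [h0, degree_zero])
    rw [degree_eq_natDegree h0] at hq
    norm_cast at hq
  rw [h, this, eval_zero]

theorem UP_const (c : F) {k : ℕ} (hk : 0 < k) : (fun _ => c) ∈ UP F k := by
  refine mem_UP.2 ⟨C c, ?_, fun t => by simp⟩
  refine lt_of_le_of_lt degree_C_le ?_
  exact_mod_cast hk

theorem UP_affmul {k : ℕ} {φ : F → F} (h : φ ∈ UP F k) (a b : F) :
    (fun t => (a + t * b) * φ t) ∈ UP F (k + 1) := by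
  obtain ⟨q, hq, h⟩ := mem_UP.1 h
  refine mem_UP.2 ⟨(C a + X * C b) * q, ?_, fun t => by
    simp only [h, eval_mul, eval_add, eval_C, eval_X]⟩
  rcases eq_or_ne q 0 with rfl | h0
  · simp only [mul_zero, degree_zero]
    exact WithBot.bot_lt_coe _
  have h1 : (C a + X * C b : F[X]).degree ≤ 1 := by
    refine (degree_add_le _ _).trans (max_le ?_ ?_)
    · exact degree_C_le.trans (by norm_num)
    · rw [X_mul_C]; exact degree_C_mul_X_le b
  rw [degree_mul]
  rw [degree_eq_natDegree h0] at hq ⊢
  have h2 : q.natDegree < k := by exact_mod_cast hq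
  refine lt_of_le_of_lt (add_le_add_left h1 _) ?_
  have : (1 : WithBot ℕ) + (q.natDegree : WithBot ℕ) = ((1 + q.natDegree : ℕ) : WithBot ℕ) := by
    push_cast; rfl
  rw [this]
  exact_mod_cast (by omega : 1 + q.natDegree < k + 1)

theorem UP_mul {k l : ℕ} {φ ψ : F → F} (h : φ ∈ UP F (k + 1)) (h' : ψ ∈ UP F l) :
    (fun t => φ t * ψ t) ∈ UP F (k + l) := by
  obtain ⟨q, hq, h⟩ := mem_UP.1 h
  obtain ⟨r, hr, h'⟩ := mem_UP.1 h'
  refine mem_UP.2 ⟨q * r, ?_, fun t => by simp [h, h']⟩
  rcases eq_or_ne q 0 with rfl | h0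
  · simp only [zero_mul, degree_zero]
    exact WithBot.bot_lt_coe _
  rcases eq_or_ne r 0 with rfl | h1
  · simp only [mul_zero, degree_zero]
    exact WithBot.bot_lt_coe _
  rw [degree_mul]
  rw [degree_eq_natDegree h0] at hq ⊢
  rw [degree_eq_natDegree h1] at hr ⊢
  have h2 : q.natDegree < k + 1 := by exact_mod_cast hq
  have h3 : r.natDegree < l := by exact_mod_cast hr
  exact_mod_cast (by omega : q.natDegree + r.natDegree < k + l)

theorem UP_pow (k : ℕ) : (fun t : F => t ^ k) ∈ UP F (k + 1) := by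
  refine mem_UP.2 ⟨X ^ k, ?_, fun t => by simp⟩
  rw [degree_X_pow]
  exact_mod_cast Nat.lt_succ_self k

/-- A function of degree less than `k` with at least `k` zeros vanishes. -/
theorem UP_eq_zero {k : ℕ} {φ : F → F} (h : φ ∈ UP F k) (S : Finset F) (hS : k ≤ S.card)
    (h0 : ∀ t ∈ S, φ t = 0) (t : F) : φ t = 0 := by
  obtain ⟨q, hq, h⟩ := mem_UP.1 h
  have : q = 0 := by
    refine Polynomial.eq_zero_of_degree_lt_of_eval_finset_eq_zero S ?_ ?_
    · exact lt_of_lt_of_le hq (by exact_mod_cast hS)
    · intro x hx; rw [← h]; exact h0 x hx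
  rw [h, this, eval_zero]

end Uni

section Multi

variable (F : Type*) [Field F]

/-- Products of `k` affine functionals. -/
def gens (X : Type*) [AddCommGroup X] [Module F X] (k : ℕ) : Set (X → F) :=
  {f | ∃ (l : Fin k → (X →ₗ[F] F)) (c : Fin k → F), ∀ x, f x = ∏ i, (l i x + c i)}

/-- Functions of degree less than `k` on the vector space `X`. -/
def PD (X : Type*) [AddCommGroup X] [Module F X] : ℕ → Submodule F (X → F)
  | 0 => ⊥
  | (k + 1) => Submodule.span F (gens F X k)

variable {F}
variable {X : Type*} [AddCommGroup X] [Module F X]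
variable {Y : Type*} [AddCommGroup Y] [Module F Y]

theorem PD_zero {f : X → F} (h : f ∈ PD F X 0) (x : X) : f x = 0 := by
  have : f = 0 := h
  rw [this]; rfl

theorem PD_congr {k : ℕ} {f g : X → F} (h : g ∈ PD F X k) (e : ∀ x, f x = g x) :
    f ∈ PD F X k := by
  have : f = g := funext e
  rw [this]; exact h

/-- Induction principle. -/
theorem PD_induction {k : ℕ} (p : (X → F) → Prop)
    (hg : ∀ (l : Fin k → (X →ₗ[F] F)) (c : Fin k → F), p (fun x => ∏ i, (l i x + c i)))
    (h0 : p 0) (hadd : ∀ f g, p f → p g → p (f + g)) (hsmul : ∀ (a : F) f, p f → p (a • f))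
    {f : X → F} (h : f ∈ PD F X (k + 1)) : p f := by
  refine Submodule.span_induction (p := fun f _ => p f) ?_ h0 (fun f g _ _ => hadd f g)
    (fun a f _ => hsmul a f) h
  rintro f ⟨l, c, hf⟩
  have : f = fun x => ∏ i, (l i x + c i) := funext hf
  rw [this]; exact hg l c

theorem gen_mem {k : ℕ} (l : Fin k → (X →ₗ[F] F)) (c : Fin k → F) :
    (fun x => ∏ i, (l i x + c i)) ∈ PD F X (k + 1) :=
  Submodule.subset_span ⟨l, c, fun _ => rfl⟩

theorem PD_affmul {k : ℕ} {f : X → F} (h : f ∈ PD F X k) (l : X →ₗ[F] F) (c : F) :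
    (fun x => (l x + c) * f x) ∈ PD F X (k + 1) := by
  cases k with
  | zero =>
    have : (fun x => (l x + c) * f x) = 0 := by
      funext x; rw [PD_zero h x, mul_zero]; rfl
    rw [this]; exact Submodule.zero_mem _
  | succ k =>
    refine PD_induction (p := fun f => (fun x => (l x + c) * f x) ∈ PD F X (k + 1 + 1))
      ?_ ?_ ?_ ?_ h
    · intro l' c'
      have := gen_mem (Fin.cons l l' : Fin (k + 1) → (X →ₗ[F] F)) (Fin.cons c c')
      refine PD_congr this fun x => ?_
      rw [Fin.prod_univ_succ]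
      simp
    · refine PD_congr (Submodule.zero_mem _) fun x => ?_
      simp
    · intro f g hf hg
      refine PD_congr (Submodule.add_mem _ hf hg) fun x => ?_
      simp [mul_add]
    · intro a f hf
      refine PD_congr (Submodule.smul_mem _ a hf) fun x => ?_
      simp only [Pi.smul_apply, smul_eq_mul]; ring

theorem PD_succ (k : ℕ) : PD F X k ≤ PD F X (k + 1) := by
  intro f hf
  refine PD_congr (PD_affmul hf 0 1) fun x => ?_
  simp

theorem PD_mono {k l : ℕ} (h : k ≤ l) : PD F X k ≤ PD F X l := by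
  induction h with
  | refl => exact le_rfl
  | step _ ih => exact ih.trans (PD_succ _)

theorem PD_const (c : F) {k : ℕ} (hk : 0 < k) : (fun _ : X => c) ∈ PD F X k := by
  refine PD_mono hk ?_
  have := gen_mem (X := X) (F := F) (k := 0) ![] ![]
  refine PD_congr (Submodule.smul_mem _ c this) fun x => ?_
  simp

theorem PD_mul {j k : ℕ} {f g : X → F} (hf : f ∈ PD F X (j + 1)) (hg : g ∈ PD F X k) :
    (fun x => f x * g x) ∈ PD F X (j + k) := by
  refine PD_induction (p := fun f => (fun x => f x * g x) ∈ PD F X (j + k)) ?_ ?_ ?_ ?_ hf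
  · intro l c
    clear hf
    induction j with
    | zero =>
      refine PD_congr (PD_mono (by omega) hg) fun x => ?_
      simp
    | succ j ih =>
      have := PD_affmul (ih (fun i => l i.succ) (fun i => c i.succ)) (l 0) (c 0)
      refine PD_congr (PD_mono (by omega) this) fun x => ?_
      simp only [Fin.prod_univ_succ]; ring
  · refine PD_congr (Submodule.zero_mem _) fun x => ?_
    simp
  · intro f g hf hg
    refine PD_congr (Submodule.add_mem _ hf hg) fun x => ?_
    simp [add_mul]
  · intro a f hf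
    refine PD_congr (Submodule.smul_mem _ a hf) fun x => ?_
    simp only [Pi.smul_apply, smul_eq_mul]; ring

theorem PD_aff (l : X →ₗ[F] F) (c : F) {k : ℕ} (hk : 2 ≤ k) :
    (fun x => l x + c) ∈ PD F X k := by
  refine PD_mono hk (PD_congr (PD_affmul (PD_const (X := X) (1 : F) one_pos) l c) fun x => ?_)
  simp

theorem PD_comp {k : ℕ} {f : Y → F} (h : f ∈ PD F Y k) (A : X →ₗ[F] Y) (b : Y) :
    (fun x => f (A x + b)) ∈ PD F X k := by
  cases k with
  | zero =>
    refine PD_congr (Submodule.zero_mem _) fun x => ?_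
    rw [PD_zero h]; rfl
  | succ k =>
    refine PD_induction (p := fun f => (fun x => f (A x + b)) ∈ PD F X (k + 1)) ?_ ?_ ?_ ?_ h
    · intro l c
      refine PD_congr (gen_mem (fun i => (l i).comp A) (fun i => l i b + c i)) fun x => ?_
      refine Finset.prod_congr rfl fun i _ => ?_
      simp [add_assoc]
    · exact PD_congr (Submodule.zero_mem _) fun x => rfl
    · intro f g hf hg
      exact PD_congr (Submodule.add_mem _ hf hg) fun x => rfl
    · intro a f hf
      exact PD_congr (Submodule.smul_mem _ a hf) fun x => rfl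

/-- The restriction of a function of degree less than `k` to a line. -/
theorem PD_line {k : ℕ} {f : X → F} (h : f ∈ PD F X k) (x v : X) :
    (fun τ : F => f (x + τ • v)) ∈ UP F k := by
  cases k with
  | zero =>
    refine UP_congr (Submodule.zero_mem _) fun t => ?_
    rw [PD_zero h]; rfl
  | succ k =>
    refine PD_induction (p := fun f => (fun τ : F => f (x + τ • v)) ∈ UP F (k + 1))
      ?_ ?_ ?_ ?_ h
    · intro l c
      clear h
      induction k with
      | zero =>
        refine UP_congr (UP_const 1 one_pos) fun t => ?_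
        simp
      | succ k ih =>
        refine UP_congr (UP_affmul (ih (fun i => l i.succ) (fun i => c i.succ))
          (l 0 x + c 0) (l 0 v)) fun t => ?_
        simp only [Fin.prod_univ_succ, map_add, map_smul, smul_eq_mul]
        ring
    · exact UP_congr (Submodule.zero_mem _) fun x => rfl
    · intro f g hf hg
      exact UP_congr (Submodule.add_mem _ hf hg) fun x => rfl
    · intro a f hf
      exact UP_congr (Submodule.smul_mem _ a hf) fun x => rfl

/-- Splitting off the part of top degree. -/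
theorem PD_top {k : ℕ} {f : X → F} (h : f ∈ PD F X (k + 1)) :
    ∃ f1 : X → F, f1 ∈ PD F X (k + 1) ∧ (fun x => f x - f1 x) ∈ PD F X k ∧
      ∀ x v : X, (fun τ : F => f (x + τ • v) - τ ^ k * f1 v) ∈ UP F k := by
  refine PD_induction (p := fun f => ∃ f1 : X → F, f1 ∈ PD F X (k + 1) ∧
      (fun x => f x - f1 x) ∈ PD F X k ∧
      ∀ x v : X, (fun τ : F => f (x + τ • v) - τ ^ k * f1 v) ∈ UP F k) ?_ ?_ ?_ ?_ h
  · intro l c
    clear h
    refine ⟨fun x => ∏ i, l i x, ?_, ?_, ?_⟩
    · refine PD_congr (gen_mem l (fun _ => 0)) fun x => ?_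
      simp
    · induction k with
      | zero =>
        refine PD_congr (Submodule.zero_mem _) fun x => ?_
        simp
      | succ k ih =>
        have h1 := PD_affmul (ih (fun i => l i.succ) (fun i => c i.succ)) (l 0) (c 0)
        have h2 : (fun x => c 0 * ∏ i : Fin k, l i.succ x) ∈ PD F X (k + 1) := by
          refine PD_congr (Submodule.smul_mem _ (c 0) (gen_mem (fun i : Fin k => l i.succ)
            (fun _ => 0))) fun x => ?_
          simp
        refine PD_congr (Submodule.add_mem _ h1 h2) fun x => ?_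
        simp only [Fin.prod_univ_succ, Pi.add_apply]
        ring
    · intro x v
      induction k with
      | zero =>
        refine UP_congr (Submodule.zero_mem _) fun t => ?_
        simp
      | succ k ih =>
        have h1 := UP_affmul (ih (fun i => l i.succ) (fun i => c i.succ)) (l 0 x + c 0) (l 0 v)
        have h2 : (fun τ : F => (l 0 x + c 0) * (∏ i : Fin k, l i.succ v) * τ ^ k)
            ∈ UP F (k + 1) :=
          UP_congr (Submodule.smul_mem _ ((l 0 x + c 0) * (∏ i : Fin k, l i.succ v))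
            (UP_pow k)) fun t => by simp
        refine UP_congr (Submodule.add_mem _ h1 h2) fun t => ?_
        simp only [Fin.prod_univ_succ, Pi.add_apply, map_add, map_smul, smul_eq_mul]
        ring
  · refine ⟨0, Submodule.zero_mem _, ?_, ?_⟩
    · refine PD_congr (Submodule.zero_mem _) fun x => ?_
      simp
    · intro x v
      refine UP_congr (Submodule.zero_mem _) fun x => ?_
      simp
  · rintro f g ⟨f1, hf1, hf2, hf3⟩ ⟨g1, hg1, hg2, hg3⟩
    refine ⟨f1 + g1, Submodule.add_mem _ hf1 hg1, ?_, ?_⟩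
    · refine PD_congr (Submodule.add_mem _ hf2 hg2) fun x => ?_
      simp only [Pi.add_apply]; ring
    · intro x v
      refine UP_congr (Submodule.add_mem _ (hf3 x v) (hg3 x v)) fun t => ?_
      simp only [Pi.add_apply]; ring
  · rintro a f ⟨f1, hf1, hf2, hf3⟩
    refine ⟨a • f1, Submodule.smul_mem _ a hf1, ?_, ?_⟩
    · refine PD_congr (Submodule.smul_mem _ a hf2) fun x => ?_
      simp only [Pi.smul_apply, smul_eq_mul]; ring
    · intro x v
      refine UP_congr (Submodule.smul_mem _ a (hf3 x v)) fun t => ?_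
      simp only [Pi.smul_apply, smul_eq_mul]; ring

/-- Homogenisation. -/
theorem PD_homog {k : ℕ} {f : Y → F} (h : f ∈ PD F Y (k + 1)) :
    ∃ f1 : F × Y → F, f1 ∈ PD F (F × Y) (k + 1) ∧ ∀ (t : F) (y : Y), f1 (t, t • y) = t ^ k * f y := by
  refine PD_induction (p := fun f => ∃ f1 : F × Y → F, f1 ∈ PD F (F × Y) (k + 1) ∧
    ∀ (t : F) (y : Y), f1 (t, t • y) = t ^ k * f y) ?_ ?_ ?_ ?_ h
  · intro l c
    refine ⟨fun z => ∏ i, (l i z.2 + c i * z.1), ?_, ?_⟩
    · refine PD_congr (gen_mem (fun i => (l i).comp (LinearMap.snd F F Y) +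
        c i • (LinearMap.fst F F Y)) (fun _ => 0)) fun x => ?_
      simp
    · intro t y
      have : ∀ i : Fin k, (l i (t • y) + c i * t) = t * (l i y + c i) := by
        intro i; rw [map_smul, smul_eq_mul]; ring
      simp only [this, Finset.prod_mul_distrib, Finset.prod_const, Finset.card_univ,
        Fintype.card_fin]
  · refine ⟨0, Submodule.zero_mem _, ?_⟩
    intro t y; simp
  · rintro f g ⟨f1, hf1, hf2⟩ ⟨g1, hg1, hg2⟩
    refine ⟨f1 + g1, Submodule.add_mem _ hf1 hg1, ?_⟩
    intro t y
    simp only [Pi.add_apply, hf2, hg2]; ring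
  · rintro a f ⟨f1, hf1, hf2⟩
    refine ⟨a • f1, Submodule.smul_mem _ a hf1, ?_⟩
    intro t y
    simp only [Pi.smul_apply, smul_eq_mul, hf2]; ring

end Multi

end Pool.Agent.Q275.Quad
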