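import Mathlib
import Pool.Agent.Q275.QuadA

/-!
# Functions on a quadric which have small degree on lines: the key lemma
-/

set_option autoImplicit false

open Polynomial

namespace Pool.Agent.Q275.Quad

section Uni2

variable {F : Type*} [Field F] [Fintype F]

theorem UP_coeff_zero {k : ℕ} (a : F) (h : (fun τ : F => τ ^ k * a) ∈ UP F k)
    (hk : k < Fintype.card F) : a = 0 := by
  obtain ⟨q, hq, h⟩ := mem_UP.1 h
  have hp : C a * X ^ k - q = 0 := by
    refine Polynomial.eq_zero_of_degree_lt_of_eval_finset_eq_zero Finset.univ ?_ ?_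
    · refine lt_of_le_of_lt (degree_sub_le _ _) (max_lt ?_ ?_)
      · refine lt_of_le_of_lt (degree_C_mul_X_pow_le _ _) ?_
        rw [Finset.card_univ]; exact_mod_cast hk
      · refine lt_of_lt_of_le hq ?_
        rw [Finset.card_univ]; exact_mod_cast hk.le
    · intro x _
      have := h x
      simp only [eval_sub, eval_mul, eval_C, eval_pow, eval_X]
      linear_combination this
  have h1 : (C a * X ^ k - q).coeff k = a := by
    rw [coeff_sub, coeff_C_mul_X_pow, if_pos rfl, coeff_eq_zero_of_degree_lt hq, sub_zero]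
  rw [hp, coeff_zero] at h1
  exact h1.symm

/-- Root counting. -/
theorem root_count [DecidableEq F] {k : ℕ} {a : F → F} (ha : a ∈ UP F (k + 1)) (h2 : (2 : F) ≠ 0) (ν : F)
    (h0 : ∀ w δ : F, δ ≠ 0 → δ ^ 2 = w ^ 2 - ν → a w = 0)
    (hk : 2 * k + 5 ≤ Fintype.card F) (w : F) : a w = 0 := by
  set S : Finset F := (Finset.univ.erase 0) \ (X ^ 2 - C ν : F[X]).roots.toFinset with hS
  have hp : (X ^ 2 - C ν : F[X]) ≠ 0 := X_pow_sub_C_ne_zero (by norm_num) ν
  have hc1 : (X ^ 2 - C ν : F[X]).roots.toFinset.card ≤ 2 := by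
    refine (Multiset.toFinset_card_le _).trans ((card_roots' _).trans ?_)
    rw [natDegree_X_pow_sub_C]
  have hc2 : Fintype.card F ≤ S.card + 3 := by
    have := Finset.le_card_sdiff (X ^ 2 - C ν : F[X]).roots.toFinset (Finset.univ.erase 0)
    rw [Finset.card_erase_of_mem (Finset.mem_univ _), Finset.card_univ, ← hS] at this
    omega
  set f : F → F := fun r => (r + ν / r) / 2 with hf
  have hc3 : S.card ≤ 2 * (S.image f).card := by
    refine Finset.card_le_mul_card_image S 2 ?_
    intro b _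
    set P : F[X] := X ^ 2 - C (2 * b) * X + C ν with hP
    have hPm : P.Monic := by rw [hP]; monicity!
    have hPd : P.natDegree ≤ 2 := by rw [hP]; compute_degree!
    have : (S.filter (fun x => f x = b)) ⊆ P.roots.toFinset := by
      intro r hr
      rw [Finset.mem_filter] at hr
      obtain ⟨hr, hb⟩ := hr
      have hr0 : r ≠ 0 := by
        rw [hS, Finset.mem_sdiff, Finset.mem_erase] at hr
        exact hr.1.1
      rw [Multiset.mem_toFinset, mem_roots hPm.ne_zero, IsRoot.def, hP]
      simp only [eval_add, eval_sub, eval_pow, eval_X, eval_mul, eval_C]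
      rw [← hb, hf]
      field_simp
      ring
    refine (Finset.card_le_card this).trans ?_
    exact (Multiset.toFinset_card_le _).trans ((card_roots' _).trans hPd)
  refine UP_eq_zero ha (S.image f) (by omega) ?_ w
  intro t ht
  rw [Finset.mem_image] at ht
  obtain ⟨r, hr, rfl⟩ := ht
  rw [hS, Finset.mem_sdiff, Finset.mem_erase, Multiset.mem_toFinset, mem_roots hp, IsRoot.def] at hr
  simp only [eval_sub, eval_pow, eval_X, eval_C] at hr
  obtain ⟨⟨hr0, -⟩, hr1⟩ := hr
  refine h0 _ ((r - ν / r) / 2) ?_ ?_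
  · intro h
    apply hr1
    field_simp at h
    linear_combination h
  · rw [hf]
    field_simp
    ring

end Uni2

section Key

variable {F : Type*} [Field F]
variable {Z : Type*} [AddCommGroup Z] [Module F Z]

/-- The quadratic form `u² - w² + N(z)`. -/
def Mp (N : QuadraticForm F Z) (h : F × F × Z) : F := h.1 ^ 2 - h.2.1 ^ 2 + N h.2.2

/-- Its polar form. -/
def Bp (N : QuadraticForm F Z) (h v : F × F × Z) : F :=
  2 * (h.1 * v.1 - h.2.1 * v.2.1) + QuadraticMap.polar N h.2.2 v.2.2

theorem Mp_add (N : QuadraticForm F Z) (h v : F × F × Z) (τ : F) :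
    Mp N (h + τ • v) = Mp N h + τ * Bp N h v + τ ^ 2 * Mp N v := by
  have h1 : N (h.2.2 + τ • v.2.2) = N h.2.2 + τ * QuadraticMap.polar N h.2.2 v.2.2
      + τ ^ 2 * N v.2.2 := by
    have := QuadraticMap.map_add N h.2.2 (τ • v.2.2)
    rw [this, QuadraticMap.map_smul, QuadraticMap.polar_smul_right, smul_eq_mul, smul_eq_mul]
    ring
  simp only [Mp, Bp, Prod.fst_add, Prod.snd_add, Prod.smul_fst, Prod.smul_snd, smul_eq_mul, h1]
  ring

theorem Mp_smul (N : QuadraticForm F Z) (h : F × F × Z) (τ : F) :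
    Mp N (τ • h) = τ ^ 2 * Mp N h := by
  simp only [Mp, Prod.smul_fst, Prod.smul_snd, smul_eq_mul, QuadraticMap.map_smul]
  ring

theorem Bp_smul (N : QuadraticForm F Z) (h v : F × F × Z) (a b : F) :
    Bp N (a • h) (b • v) = a * b * Bp N h v := by
  simp only [Bp, Prod.smul_fst, Prod.smul_snd, smul_eq_mul, QuadraticMap.polar_smul_left,
    QuadraticMap.polar_smul_right]
  ring

theorem Bp_add_left (N : QuadraticForm F Z) (h h' v : F × F × Z) :
    Bp N (h + h') v = Bp N h v + Bp N h' v := by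
  simp only [Bp, Prod.fst_add, Prod.snd_add, QuadraticMap.polar_add_left]
  ring

theorem Bp_self (N : QuadraticForm F Z) (v : F × F × Z) : Bp N v v = 2 * Mp N v := by
  simp only [Bp, Mp, QuadraticMap.polar_self]
  ring

/-- The normal form: `c(h) = A(-M'(h), w, z) + u B(-M'(h), w, z)`. -/
def NF (N : QuadraticForm F Z) (k : ℕ) (c : F × F × Z → F) : Prop :=
  ∃ A ∈ PD F (F × F × Z) k, ∃ B ∈ PD F (F × F × Z) (k - 1),
    ∀ h, c h = A (-Mp N h, h.2) + h.1 * B (-Mp N h, h.2)

theorem quad_mem_PD [FiniteDimensional F Z] (h2 : (2 : F) ≠ 0) (N : QuadraticForm F Z) :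
    (fun z : Z => N z) ∈ PD F Z 3 := by
  set b := Module.finBasis F Z
  have h1 : ∀ i, (fun z : Z => b.coord i z * N.polarBilin (b i) z) ∈ PD F Z 3 := by
    intro i
    refine PD_congr (PD_affmul (PD_aff (N.polarBilin (b i)) 0 (le_refl 2)) (b.coord i) 0)
      fun z => ?_
    simp
  have h3 := Submodule.smul_mem _ (2 : F)⁻¹ (Submodule.sum_mem (PD F Z 3) (t := Finset.univ)
    fun i _ => h1 i)
  refine PD_congr h3 fun z => ?_
  have h5 : ∀ y, N.polarBilin z y = ∑ i, b.coord i z * N.polarBilin (b i) y := by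
    intro y
    conv_lhs => rw [← b.sum_repr z]
    simp only [map_sum, map_smul, LinearMap.sum_apply, LinearMap.smul_apply, smul_eq_mul]
    rfl
  have h4 : ∑ i, b.coord i z * N.polarBilin (b i) z = N.polarBilin z z := (h5 z).symm
  simp only [Pi.smul_apply, Finset.sum_apply, smul_eq_mul]
  rw [h4, QuadraticMap.polarBilin_apply_apply, QuadraticMap.polar_self, nsmul_eq_mul]
  push_cast
  field_simp

/-- The function `w² - N(z) - y`, which is `u²` on the quadric. -/
theorem E_mem_PD [FiniteDimensional F Z] (h2 : (2 : F) ≠ 0) (N : QuadraticForm F Z) :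
    (fun y : F × F × Z => y.2.1 ^ 2 - N y.2.2 - y.1) ∈ PD F (F × F × Z) 3 := by
  have h1 : (fun y : F × F × Z => y.2.1 ^ 2) ∈ PD F (F × F × Z) 3 := by
    refine PD_congr (PD_affmul (PD_aff ((LinearMap.fst F F Z).comp (LinearMap.snd F F (F × Z))) 0
      (le_refl 2)) ((LinearMap.fst F F Z).comp (LinearMap.snd F F (F × Z))) 0) fun y => ?_
    simp only [LinearMap.comp_apply, LinearMap.snd_apply, LinearMap.fst_apply, add_zero]
    ring
  have h3 : (fun y : F × F × Z => N y.2.2) ∈ PD F (F × F × Z) 3 := by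
    refine PD_congr (PD_comp (quad_mem_PD h2 N)
      ((LinearMap.snd F F Z).comp (LinearMap.snd F F (F × Z))) 0) fun y => ?_
    simp
  have h4 : (fun y : F × F × Z => y.1) ∈ PD F (F × F × Z) 3 := by
    refine PD_congr (PD_aff (LinearMap.fst F F (F × Z)) 0 (by norm_num : 2 ≤ 3)) fun y => ?_
    simp
  exact PD_congr (Submodule.sub_mem _ (Submodule.sub_mem _ h1 h3) h4) fun y => rfl

theorem NF_zero (N : QuadraticForm F Z) (k : ℕ) : NF N k 0 :=
  ⟨0, Submodule.zero_mem _, 0, Submodule.zero_mem _, fun h => by simp⟩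

theorem NF_add {N : QuadraticForm F Z} {k : ℕ} {c c' : F × F × Z → F} (h : NF N k c)
    (h' : NF N k c') : NF N k (c + c') := by
  obtain ⟨A, hA, B, hB, h⟩ := h
  obtain ⟨A', hA', B', hB', h'⟩ := h'
  refine ⟨A + A', Submodule.add_mem _ hA hA', B + B', Submodule.add_mem _ hB hB', fun x => ?_⟩
  simp only [Pi.add_apply, h, h']
  ring

theorem NF_smul {N : QuadraticForm F Z} {k : ℕ} {c : F × F × Z → F} (h : NF N k c) (a : F) :
    NF N k (a • c) := by
  obtain ⟨A, hA, B, hB, h⟩ := h
  refine ⟨a • A, Submodule.smul_mem _ a hA, a • B, Submodule.smul_mem _ a hB, fun x => ?_⟩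
  simp only [Pi.smul_apply, smul_eq_mul, h]
  ring

theorem NF_affmul [FiniteDimensional F Z] (h2 : (2 : F) ≠ 0) {N : QuadraticForm F Z} {k : ℕ}
    {c : F × F × Z → F} (h : NF N (k + 1) c) (l : F × F × Z →ₗ[F] F) (a : F) :
    NF N (k + 1 + 1) (fun x => (l x + a) * c x) := by
  obtain ⟨A, hA, B, hB, h⟩ := h
  set α : F := l (1, 0) with hα
  set lam : F × F × Z →ₗ[F] F := (l.comp (LinearMap.inr F F (F × Z))).comp
    (LinearMap.snd F F (F × Z)) with hlam
  have hl : ∀ x : F × F × Z, l x = α * x.1 + lam x := by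
    intro x
    have h1 : x = x.1 • ((1 : F), (0 : F × Z)) + (0, x.2) := by
      ext1 <;> simp
    conv_lhs => rw [h1]
    rw [map_add, map_smul, smul_eq_mul, mul_comm, hlam, hα]
    rfl
  have h3 : (fun y => lam y * A y + a * A y) ∈ PD F (F × F × Z) (k + 1 + 1) :=
    PD_congr (PD_affmul hA lam a) fun y => by ring
  have h4 : (fun y : F × F × Z => α * ((y.2.1 ^ 2 - N y.2.2 - y.1) * B y)) ∈
      PD F (F × F × Z) (k + 1 + 1) := by
    refine PD_congr (Submodule.smul_mem _ α (PD_mono (by omega : 2 + (k + 1 - 1) ≤ k + 1 + 1)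
      (PD_mul (E_mem_PD h2 N) hB))) fun y => ?_
    simp
  have h5 : (fun y => α * A y) ∈ PD F (F × F × Z) (k + 1 + 1 - 1) :=
    PD_congr (Submodule.smul_mem _ α hA) fun y => by simp
  have h6 : (fun y => (lam y + a) * B y) ∈ PD F (F × F × Z) (k + 1 + 1 - 1) :=
    PD_affmul hB lam a
  refine ⟨_, Submodule.add_mem _ h3 h4, _, Submodule.add_mem _ h5 h6, fun x => ?_⟩
  have h7 : ∀ y : F, lam (y, x.2) = lam x := by
    intro y; rw [hlam]; rfl
  simp only [Pi.add_apply, h7, hl, h]
  simp only [Mp]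
  ring

theorem NF_of_PD [FiniteDimensional F Z] (h2 : (2 : F) ≠ 0) (N : QuadraticForm F Z) {k : ℕ}
    {c : F × F × Z → F} (h : c ∈ PD F (F × F × Z) k) : NF N k c := by
  cases k with
  | zero =>
    have : c = 0 := h
    rw [this]; exact NF_zero N 0
  | succ k =>
    refine PD_induction (p := fun c => NF N (k + 1) c) ?_ (NF_zero N _) (fun f g => NF_add)
      (fun a f hf => NF_smul hf a) h
    intro l c
    clear h
    induction k with
    | zero =>
      refine ⟨fun _ => 1, PD_const 1 one_pos, 0, Submodule.zero_mem _, fun x => ?_⟩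
      simp
    | succ k ih =>
      have := NF_affmul h2 (ih (fun i => l i.succ) (fun i => c i.succ)) (l 0) (c 0)
      simpa only [Fin.prod_univ_succ] using this



/-- Splitting off the top part of `B`. -/
theorem PD_top' {k : ℕ} {f : F × F × Z → F} (h : f ∈ PD F (F × F × Z) k) :
    ∃ f1 : F × F × Z → F, f1 ∈ PD F (F × F × Z) k ∧ (fun x => f x - f1 x) ∈
      PD F (F × F × Z) (k - 1) ∧
      ∀ (x v : F × F × Z) (a b : F),
        (fun τ : F => (a + τ * b) * f (x + τ • v) - τ ^ k * (b * f1 v)) ∈ UP F k := by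
  cases k with
  | zero =>
    refine ⟨0, Submodule.zero_mem _, ?_, ?_⟩
    · refine PD_congr h fun x => ?_
      simp
    · intro x v a b
      refine UP_congr (Submodule.zero_mem _) fun t => ?_
      rw [PD_zero h]; simp
  | succ k =>
    obtain ⟨f1, h1, h3, h4⟩ := PD_top h
    refine ⟨f1, h1, h3, fun x v a b => ?_⟩
    have h5 := UP_affmul (h4 x v) a b
    have h6 : (fun τ : F => a * f1 v * τ ^ k) ∈ UP F (k + 1) :=
      UP_congr (Submodule.smul_mem _ (a * f1 v) (UP_pow k)) fun t => by simp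
    refine UP_congr (Submodule.add_mem _ h5 h6) fun t => ?_
    simp only [Pi.add_apply]
    ring

theorem NF_descent [Fintype F] [DecidableEq F] (h2 : (2 : F) ≠ 0) {N : QuadraticForm F Z} {k : ℕ}
    {c : F × F × Z → F} (hk : 2 * k + 5 ≤ Fintype.card F) (h : NF N (k + 1) c)
    (hc : ∀ x v : F × F × Z, Mp N v = 0 → (fun τ : F => c (x + τ • v)) ∈ UP F k) : NF N k c := by
  obtain ⟨A, hA, B, hB, h⟩ := h
  rw [Nat.add_sub_cancel] at hB
  obtain ⟨A1, hA1, hA2, hA3⟩ := PD_top hA
  obtain ⟨B1, hB1, hB2, hB3⟩ := PD_top' hB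
  have hkey : ∀ x v : F × F × Z, Mp N v = 0 →
      A1 (-Bp N x v, v.2) + v.1 * B1 (-Bp N x v, v.2) = 0 := by
    intro x v hv
    refine UP_coeff_zero (k := k) _ ?_ (by omega)
    have h3 := hA3 (-Mp N x, x.2) (-Bp N x v, v.2)
    have h4 := hB3 (-Mp N x, x.2) (-Bp N x v, v.2) x.1 v.1
    refine UP_congr (Submodule.sub_mem _ (Submodule.sub_mem _ (hc x v hv) h3) h4) fun τ => ?_
    have h5 : ((-Mp N x, x.2) + τ • (-Bp N x v, v.2) : F × F × Z) =
        (-Mp N (x + τ • v), (x + τ • v).2) := by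
      rw [Mp_add, hv]
      ext1
      · simp only [Prod.fst_add, Prod.smul_fst, smul_eq_mul]; ring
      · simp
    have h6 := h (x + τ • v)
    simp only [Pi.sub_apply]
    rw [h5, h6]
    simp only [Prod.fst_add, Prod.smul_fst, smul_eq_mul]
    ring
  have hkey2 : ∀ (y w δ : F) (z : Z), δ ≠ 0 → δ ^ 2 = w ^ 2 - N z →
      A1 (y, w, z) = 0 ∧ B1 (y, w, z) = 0 := by
    have h7 : ∀ (y w δ : F) (z : Z), δ ≠ 0 → δ ^ 2 = w ^ 2 - N z →
        A1 (y, w, z) + δ * B1 (y, w, z) = 0 := by
      intro y w δ z hδ hz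
      have h8 : Mp N (δ, w, z) = 0 := by
        simp only [Mp]; rw [hz]; ring
      have h9 := hkey (-y / (2 * δ), 0, 0) (δ, w, z) h8
      have h10 : -Bp N (-y / (2 * δ), 0, 0) (δ, w, z) = y := by
        simp only [Bp, QuadraticMap.polar_zero_left]
        field_simp
        ring
      rw [h10] at h9
      exact h9
    intro y w δ z hδ hz
    have h11 := h7 y w δ z hδ hz
    have h12 := h7 y w (-δ) z (neg_ne_zero.2 hδ) (by rw [neg_sq]; exact hz)
    have h13 : 2 * δ * B1 (y, w, z) = 0 := by linear_combination h11 - h12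
    have h14 : B1 (y, w, z) = 0 := by
      rcases mul_eq_zero.1 h13 with h | h
      · exact absurd h (mul_ne_zero h2 hδ)
      · exact h
    refine ⟨?_, h14⟩
    rw [h14] at h11; linear_combination h11
  have hzA : ∀ y, A1 y = 0 := by
    rintro ⟨y, w, z⟩
    have h15 := PD_line hA1 (y, 0, z) (0, 1, 0)
    have h16 := root_count h15 h2 (N z) ?_ hk w
    · simpa using h16
    · intro w δ hδ hw
      have := (hkey2 y w δ z hδ hw).1
      simpa using this
  have hzB : ∀ y, B1 y = 0 := by
    rintro ⟨y, w, z⟩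
    have h15 := PD_line hB1 (y, 0, z) (0, 1, 0)
    have h16 := root_count (UP_mono (Nat.le_succ k) h15) h2 (N z) ?_ hk w
    · simpa using h16
    · intro w δ hδ hw
      have := (hkey2 y w δ z hδ hw).2
      simpa using this
  refine ⟨A, ?_, B, ?_, h⟩
  · exact PD_congr hA2 fun x => by rw [hzA]; ring
  · exact PD_congr hB2 fun x => by rw [hzB]; ring

/-- The key lemma. -/
theorem NF_key [Fintype F] [DecidableEq F] [FiniteDimensional F Z] (h2 : (2 : F) ≠ 0) (N : QuadraticForm F Z)
    {K i : ℕ} {c : F × F × Z → F} (hK : 2 * K + 5 ≤ Fintype.card F)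
    (h : c ∈ PD F (F × F × Z) K)
    (hc : ∀ x v : F × F × Z, Mp N v = 0 → (fun τ : F => c (x + τ • v)) ∈ UP F i) :
    NF N i c := by
  have h1 : ∀ n, ∀ k, k ≤ K → i ≤ k → k ≤ i + n → NF N k c → NF N i c := by
    intro n
    induction n with
    | zero =>
      intro k _ h3 h4 h5
      have : k = i := by omega
      rw [this] at h5; exact h5
    | succ n ih =>
      intro k hkK h3 h4 h5
      rcases eq_or_ne k i with rfl | hne
      · exact h5
      obtain ⟨k', rfl⟩ : ∃ k', k = k' + 1 := ⟨k - 1, by omega⟩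
      refine ih k' (by omega) (by omega) (by omega) ?_
      exact NF_descent h2 (by omega) h5 fun x v hv => UP_mono (by omega) (hc x v hv)
  rcases le_total i K with hiK | hiK
  · exact h1 (K - i) K le_rfl hiK (by omega) (NF_of_PD h2 N h)
  · exact NF_of_PD h2 N (PD_mono hiK h)

end Key

end Pool.Agent.Q275.Quad
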