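import Mathlib
import Pool.Agent.Q275.QuadB

/-!
# Functions on a quadric which have small degree on lines: the theorem for the model form
-/

set_option autoImplicit false

open Polynomial

namespace Pool.Agent.Q275.Quad

section BasisDeg

variable {F : Type*} [Field F]
variable {X : Type*} [AddCommGroup X] [Module F X]

/-- A polynomial in a linear functional. -/
theorem PD_poly (l : X →ₗ[F] F) {s : ℕ} (q : F[X]) (hq : q.degree < s) :
    (fun x => q.eval (l x)) ∈ PD F X s := by
  have h1 : ∀ n, (fun x => (l x) ^ n) ∈ PD F X (n + 1) := by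
    intro n
    refine PD_congr (gen_mem (fun _ : Fin n => l) (fun _ => 0)) fun x => ?_
    simp
  have hq' : q.natDegree < s ∨ q = 0 := by
    rcases eq_or_ne q 0 with rfl | h0
    · right; rfl
    · left
      rw [degree_eq_natDegree h0] at hq
      exact_mod_cast hq
  rcases hq' with hq' | rfl
  · have h2 : (∑ i ∈ Finset.range s, (q.coeff i) • (fun x => (l x) ^ i : X → F)) ∈ PD F X s := by
      refine Submodule.sum_mem _ fun i hi => Submodule.smul_mem _ _ ?_
      rw [Finset.mem_range] at hi
      exact PD_mono hi (h1 i)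
    refine PD_congr h2 fun x => ?_
    rw [Polynomial.eval_eq_sum_range' hq']
    simp
  · refine PD_congr (Submodule.zero_mem _) fun x => ?_
    simp

/-- A function of small degree in each direction of a basis has bounded degree. -/
theorem PD_basis {ι : Type*} [Fintype ι] [DecidableEq ι] (b : Module.Basis ι F X) {s : ℕ}
    (T : Finset F) (hT : T.card = s) (hs : 0 < s) {f : X → F}
    (hf : ∀ x j, (fun τ : F => f (x + τ • b j)) ∈ UP F s) :
    f ∈ PD F X (Fintype.card ι * (s - 1) + 1) := by
  classical
  have key : ∀ J : Finset ι, ∀ f : X → F,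
      (∀ x, ∀ j ∈ J, (fun τ : F => f (x + τ • b j)) ∈ UP F s) →
      (∀ x, ∀ j ∉ J, ∀ τ : F, f (x + τ • b j) = f x) → f ∈ PD F X (J.card * (s - 1) + 1) := by
    intro J
    induction J using Finset.induction_on with
    | empty =>
      intro f _ h2
      have h3 : ∀ v ∈ Submodule.span F (Set.range b), ∀ (τ : F) (y : X), f (y + τ • v) = f y := by
        intro v hv
        refine Submodule.span_induction (p := fun v _ => ∀ (τ : F) (y : X), f (y + τ • v) = f y)
          ?_ ?_ ?_ ?_ hv
        · rintro _ ⟨j, rfl⟩ τ y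
          exact h2 y j (Finset.notMem_empty j) τ
        · intro τ y; simp
        · intro v w _ _ hv hw τ y
          rw [smul_add, ← add_assoc, hw, hv]
        · intro a v _ hv τ y
          rw [smul_smul]; exact hv _ _
      refine PD_congr (PD_const (f 0) (by omega)) fun x => ?_
      have := h3 x (by rw [b.span_eq]; trivial) 1 0
      rwa [one_smul, zero_add] at this
    | insert j0 J hj0 ih =>
      intro f h1 h2
      have hco : ∀ (x : X) (τ : F) (j : ι), j ≠ j0 → b.coord j0 (x + τ • b j) = b.coord j0 x := by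
        intro x τ j hj
        rw [map_add, map_smul, Module.Basis.coord_apply, Module.Basis.coord_apply,
          Module.Basis.repr_self, Finsupp.single_eq_of_ne (Ne.symm hj)]
        simp
      have h3 : ∀ a : F, (fun x => f (x + (a - b.coord j0 x) • b j0)) ∈
          PD F X (J.card * (s - 1) + 1) := by
        intro a
        refine ih _ ?_ ?_
        · intro x j hj
          have hne : j ≠ j0 := fun h => hj0 (h ▸ hj)
          refine UP_congr (h1 (x + (a - b.coord j0 x) • b j0) j (Finset.mem_insert_of_mem hj))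
            fun τ => ?_
          rw [hco x τ j hne]
          congr 1
          abel
        · intro x j hj τ
          rcases eq_or_ne j j0 with rfl | hne
          · have : b.coord j (x + τ • b j) = b.coord j x + τ := by
              rw [map_add, map_smul, Module.Basis.coord_apply, Module.Basis.coord_apply,
                Module.Basis.repr_self, Finsupp.single_eq_same]
              simp
            rw [this]
            congr 1
            rw [sub_smul, sub_smul, add_smul]
            abel
          · rw [hco x τ j hne]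
            have := h2 (x + (a - b.coord j0 x) • b j0) j (by
              rw [Finset.mem_insert]
              rintro (h | h)
              exacts [hne h, hj h]) τ
            rw [← this]
            congr 1
            abel
      have h4 : ∀ a ∈ T, (Lagrange.basis T id a : F[X]).degree < s := by
        intro a ha
        rw [Lagrange.degree_basis (Set.injOn_id _) ha, hT]
        exact_mod_cast (by omega : s - 1 < s)
      have h5 : (∑ a ∈ T, (fun x => (Lagrange.basis T id a : F[X]).eval (b.coord j0 x) *
          f (x + (a - b.coord j0 x) • b j0)) : X → F) ∈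
            PD F X ((s - 1) + (J.card * (s - 1) + 1)) := by
        refine Submodule.sum_mem _ fun a ha => ?_
        refine PD_mul ?_ (h3 a)
        have := PD_poly (b.coord j0) _ (h4 a ha)
        rwa [Nat.sub_add_cancel hs]
      have h6 : (insert j0 J).card * (s - 1) + 1 = (s - 1) + (J.card * (s - 1) + 1) := by
        rw [Finset.card_insert_of_notMem hj0]; ring
      rw [h6]
      refine PD_congr h5 fun x => ?_
      obtain ⟨q, hq, hq2⟩ := mem_UP.1 (h1 (x - b.coord j0 x • b j0) j0
        (Finset.mem_insert_self _ _))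
      have h7 : q = Lagrange.interpolate T id (fun i => q.eval (id i)) :=
        Lagrange.eq_interpolate (Set.injOn_id _) (by rw [hT]; exact hq)
      have h8 : f x = q.eval (b.coord j0 x) := by
        rw [← hq2]
        congr 1
        abel
      rw [h8, h7, Lagrange.interpolate_apply, eval_finsetSum, Finset.sum_apply]
      refine Finset.sum_congr rfl fun a _ => ?_
      rw [eval_mul, eval_C, mul_comm]
      congr 1
      rw [id, ← hq2, sub_smul]
      congr 1
      abel
  have := key Finset.univ f (fun x j _ => hf x j) (fun x j hj => absurd (Finset.mem_univ j) hj)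
  rwa [Finset.card_univ] at this

end BasisDeg

section Model

variable {F : Type*} [Field F] [Fintype F] [DecidableEq F]
variable {Z : Type*} [AddCommGroup Z] [Module F Z] [FiniteDimensional F Z]

omit [Fintype F] in
/-- Coefficients of polynomials of small degree are linear in the values. -/
theorem coeff_values {s : ℕ} (T : Finset F) (hT : s ≤ T.card) (q : F[X]) (hq : q.degree < s)
    (i : ℕ) : q.coeff i = ∑ a ∈ T, q.eval a * (Lagrange.basis T id a : F[X]).coeff i := by
  have h7 : q = Lagrange.interpolate T id (fun i => q.eval (id i)) :=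
    Lagrange.eq_interpolate (Set.injOn_id _) (lt_of_lt_of_le hq (by exact_mod_cast hT))
  conv_lhs => rw [h7]
  rw [Lagrange.interpolate_apply, finsetSum_coeff]
  refine Finset.sum_congr rfl fun a _ => ?_
  rw [coeff_C_mul, id]

omit [DecidableEq F] [Fintype F] [FiniteDimensional F Z] in
theorem span_isotropic (h2 : (2 : F) ≠ 0) (N : QuadraticForm F Z) :
    ⊤ ≤ Submodule.span F {v : F × F × Z | Mp N v = 0} := by
  set S := Submodule.span F {v : F × F × Z | Mp N v = 0} with hS
  have h1 : ((1 : F), (1 : F), (0 : Z)) ∈ S := Submodule.subset_span (by simp [Mp])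
  have h3 : ((1 : F), (-1 : F), (0 : Z)) ∈ S := Submodule.subset_span (by simp [Mp])
  have h4 : ((1 : F), (0 : F), (0 : Z)) ∈ S := by
    have := S.smul_mem (2 : F)⁻¹ (S.add_mem h1 h3)
    convert this using 1
    ext1
    · simp only [Prod.smul_fst, Prod.fst_add, smul_eq_mul]; field_simp; norm_num
    · ext1
      · simp
      · simp
  have h5 : ((0 : F), (1 : F), (0 : Z)) ∈ S := by
    have := S.sub_mem h1 h4
    convert this using 1
    simp
  rintro ⟨a, c, z⟩ -
  have h6 : ((1 - N z) / 2, (1 + N z) / 2, z) ∈ S := by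
    refine Submodule.subset_span ?_
    simp only [Mp, Set.mem_ofPred_eq]
    field_simp
    ring
  have := S.add_mem (S.add_mem h6 (S.smul_mem (a - (1 - N z) / 2) h4))
    (S.smul_mem (c - (1 + N z) / 2) h5)
  convert this using 1
  ext1
  · simp
  · ext1
    · simp
    · simp

theorem PD_of_isotropic (h2 : (2 : F) ≠ 0) (N : QuadraticForm F Z) {s : ℕ} (hs : 0 < s)
    (hsF : s ≤ Fintype.card F) {c : F × F × Z → F}
    (hc : ∀ x v : F × F × Z, Mp N v = 0 → (fun τ : F => c (x + τ • v)) ∈ UP F s) :
    c ∈ PD F (F × F × Z) (Module.finrank F (F × F × Z) * (s - 1) + 1) := by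
  classical
  set b := Module.Basis.ofSpan (span_isotropic h2 N) with hb
  have : Fintype ((linearIndepOn_empty F (id : F × F × Z → F × F × Z)).extend
    (Set.empty_subset {v : F × F × Z | Mp N v = 0})) := FiniteDimensional.fintypeBasisIndex b
  obtain ⟨T, -, hT⟩ := Finset.exists_subset_card_eq (s := (Finset.univ : Finset F)) (n := s)
    (by rwa [Finset.card_univ])
  have h1 := PD_basis b T hT hs (f := c) fun x j => hc x _ ?_
  · rwa [← Module.finrank_eq_card_basis b] at h1
  · exact Module.Basis.ofSpan_subset (span_isotropic h2 N) ⟨j, rfl⟩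

omit [DecidableEq F] in
theorem degree_bound {s : ℕ} (hs : 0 < s) (hF : 2 * s ≤ Fintype.card F) (γ : ℕ → ℕ → F)
    (Ψ : F → F[X]) (hΨ : ∀ a, (Ψ a).degree < s)
    (hΨ2 : ∀ a t : F, t ≠ 0 → (Ψ a).eval t =
      ∑ i ∈ Finset.range s, ∑ k ∈ Finset.range s, γ i k * (a / t) ^ k * t ^ i)
    {i k : ℕ} (hi : i < s) (hk : k < s) (hik : i < k) : γ i k = 0 := by
  set P : F → F[X] := fun a => ∑ i ∈ Finset.range s, ∑ k ∈ Finset.range s,
    C (γ i k * a ^ k) * X ^ (s + i - k) with hP
  have hPd : ∀ a, (P a).degree < (2 * s : ℕ) := by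
    intro a
    rw [hP]
    refine (degree_sum_le _ _).trans_lt ?_
    rw [Finset.sup_lt_iff (WithBot.bot_lt_coe _)]
    intro i hi
    refine (degree_sum_le _ _).trans_lt ?_
    rw [Finset.sup_lt_iff (WithBot.bot_lt_coe _)]
    intro k hk
    refine (degree_C_mul_X_pow_le _ _).trans_lt ?_
    rw [Finset.mem_range] at hi hk
    exact_mod_cast (by omega : s + i - k < 2 * s)
  have hXd : ∀ a : F, (X ^ s * Ψ a : F[X]).degree < ((2 * s : ℕ) : WithBot ℕ) := by
    intro a
    rcases eq_or_ne (Ψ a) 0 with h0 | h0
    · rw [h0, mul_zero, degree_zero]; exact WithBot.bot_lt_coe _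
    · rw [degree_mul, degree_X_pow]
      have := hΨ a
      rw [degree_eq_natDegree h0] at this ⊢
      have h1 : (Ψ a).natDegree < s := by exact_mod_cast this
      exact_mod_cast (by omega : s + (Ψ a).natDegree < 2 * s)
  have hPX : ∀ a, P a = X ^ s * Ψ a := by
    intro a
    rw [← sub_eq_zero]
    refine Polynomial.eq_zero_of_degree_lt_of_eval_finset_eq_zero Finset.univ ?_ ?_
    · refine lt_of_le_of_lt (degree_sub_le _ _) (lt_of_lt_of_le (max_lt (hPd a) (hXd a)) ?_)
      rw [Finset.card_univ]; exact_mod_cast hF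
    · intro t _
      rw [eval_sub, sub_eq_zero, eval_mul, eval_pow, eval_X, hP]
      simp only [eval_finsetSum, eval_mul, eval_C, eval_pow, eval_X]
      rcases eq_or_ne t 0 with rfl | ht
      · rw [zero_pow hs.ne', zero_mul]
        refine Finset.sum_eq_zero fun i _ => Finset.sum_eq_zero fun k hk => ?_
        rw [Finset.mem_range] at hk
        rw [zero_pow (by omega), mul_zero]
      · rw [hΨ2 a t ht, Finset.mul_sum]
        refine Finset.sum_congr rfl fun i _ => ?_
        rw [Finset.mul_sum]
        refine Finset.sum_congr rfl fun k hk => ?_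
        rw [Finset.mem_range] at hk
        have : t ^ (s + i - k) * t ^ k = t ^ s * t ^ i := by
          rw [← pow_add, ← pow_add]; congr 1; omega
        rw [div_pow]
        field_simp
        linear_combination (γ i k * a ^ k) * this
  set e := s + i - k with he
  have hcoef : ∀ a : F, ∑ i ∈ Finset.range s, ∑ k ∈ Finset.range s,
      (if e = s + i - k then γ i k else 0) * a ^ k = 0 := by
    intro a
    have h1 : (P a).coeff e = 0 := by
      rw [hPX, coeff_X_pow_mul', if_neg (by omega)]
    rw [hP] at h1
    simp only [finsetSum_coeff, coeff_C_mul_X_pow] at h1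
    refine Eq.trans ?_ h1
    refine Finset.sum_congr rfl fun i _ => Finset.sum_congr rfl fun k _ => ?_
    split_ifs <;> simp
  set R : F[X] := ∑ i ∈ Finset.range s, ∑ k ∈ Finset.range s,
    C (if e = s + i - k then γ i k else 0) * X ^ k with hR
  have hR0 : R = 0 := by
    refine Polynomial.eq_zero_of_degree_lt_of_eval_finset_eq_zero Finset.univ ?_ ?_
    · rw [hR]
      refine (degree_sum_le _ _).trans_lt ?_
      rw [Finset.sup_lt_iff (by rw [Finset.card_univ]; exact WithBot.bot_lt_coe _)]
      intro i hi
      refine (degree_sum_le _ _).trans_lt ?_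
      rw [Finset.sup_lt_iff (by rw [Finset.card_univ]; exact WithBot.bot_lt_coe _)]
      intro k hk
      refine (degree_C_mul_X_pow_le _ _).trans_lt ?_
      rw [Finset.mem_range] at hi hk
      rw [Finset.card_univ]
      exact_mod_cast (by omega : k < Fintype.card F)
    · intro a _
      rw [hR]
      simp only [eval_finsetSum, eval_mul, eval_C, eval_pow, eval_X]
      exact hcoef a
  have h2 : R.coeff k = γ i k := by
    rw [hR]
    simp only [finsetSum_coeff, coeff_C_mul_X_pow]
    rw [Finset.sum_eq_single_of_mem i (Finset.mem_range.2 hi),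
      Finset.sum_eq_single_of_mem k (Finset.mem_range.2 hk)]
    · rw [if_pos rfl, if_pos rfl]
    · intro k' _ hne
      rw [if_neg (Ne.symm hne)]
    · intro i' _ hne
      refine Finset.sum_eq_zero fun k' _ => ?_
      rcases eq_or_ne k k' with rfl | h
      · rw [if_pos rfl, if_neg (by omega)]
      · rw [if_neg h]
  rw [← h2, hR0, coeff_zero]

/-- The quadratic form `x₁ x₂ + u² - w² + N(z)`. -/
def MQ (N : QuadraticForm F Z) (n : F × F × (F × F × Z)) : F := n.1 * n.2.1 + Mp N n.2.2

/-- Its polar form. -/
def BQ (N : QuadraticForm F Z) (n v : F × F × (F × F × Z)) : F :=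
  n.1 * v.2.1 + n.2.1 * v.1 + Bp N n.2.2 v.2.2

omit [DecidableEq F] [Fintype F] [FiniteDimensional F Z] in
theorem MQ_add (N : QuadraticForm F Z) (n v : F × F × (F × F × Z)) (t : F) :
    MQ N (n + t • v) = MQ N n + t * BQ N n v + t ^ 2 * MQ N v := by
  simp only [MQ, BQ, Prod.fst_add, Prod.snd_add, Prod.smul_fst, Prod.smul_snd, smul_eq_mul]
  have := Mp_add N n.2.2 v.2.2 t
  rw [this]
  ring

omit [DecidableEq F] [Fintype F] [FiniteDimensional F Z] in
theorem Bp_comm (N : QuadraticForm F Z) (h v : F × F × Z) : Bp N h v = Bp N v h := by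
  simp only [Bp, QuadraticMap.polar_comm N h.2.2 v.2.2]
  ring

/-- **The theorem for the model form.** -/
theorem model (h2 : (2 : F) ≠ 0) (N : QuadraticForm F Z) {s : ℕ} (hs : 0 < s)
    (hcard : 2 * (Module.finrank F (F × F × Z) * (s - 1) + 1) + 2 * s + 5 ≤ Fintype.card F)
    (g : F × F × (F × F × Z) → F)
    (hg : ∀ n v : F × F × (F × F × Z), (∀ t : F, MQ N (n + t • v) = 0) →
      (fun t : F => g (n + t • v)) ∈ UP F s) :
    ∃ G ∈ PD F (F × F × (F × F × Z)) s, ∀ n, MQ N n = 0 → g n = G n := by
  have hg' : ∀ n v : F × F × (F × F × Z), MQ N n = 0 → BQ N n v = 0 → MQ N v = 0 →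
      (fun t : F => g (n + t • v)) ∈ UP F s := by
    intro n v h1 h3 h4
    refine hg n v fun t => ?_
    rw [MQ_add, h1, h3, h4]; ring
  have hline : ∀ h : F × F × Z, (fun t : F => g (t • (1, -Mp N h, h))) ∈ UP F s := by
    intro h
    have := hg' 0 (1, -Mp N h, h) (by simp [MQ, Mp]) (by simp [BQ, Bp]) (by simp [MQ])
    refine UP_congr this fun t => ?_
    rw [zero_add]
  choose q hqd hqe using fun h => mem_UP.1 (hline h)
  -- the coefficients have small degree along isotropic lines
  have hcoef : ∀ (i : ℕ) (x v : F × F × Z), Mp N v = 0 →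
      (fun τ : F => (q (x + τ • v)).coeff i) ∈ UP F s := by
    intro i x v hv
    have h1 : ∀ a : F, (fun τ : F => g (a • (1, -Mp N (x + τ • v), x + τ • v))) ∈ UP F s := by
      intro a
      have := hg' (a • (1, -Mp N x, x)) (a • (0, -Bp N x v, v))
        (by simp only [MQ, Prod.smul_fst, Prod.smul_snd, smul_eq_mul, Mp_smul]; ring)
        (by
          have h3 := Bp_smul N x v a a
          simp only [BQ, Prod.smul_fst, Prod.smul_snd, smul_eq_mul] at h3 ⊢
          rw [h3]; ring)
        (by simp only [MQ, Prod.smul_fst, Prod.smul_snd, smul_eq_mul, Mp_smul, hv]; ring)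
      refine UP_congr this fun τ => ?_
      congr 1
      rw [Mp_add, hv]
      ext1
      · simp
      · ext1
        · simp only [Prod.snd_add, Prod.fst_add, Prod.smul_fst, Prod.smul_snd, smul_eq_mul]
          ring
        · simp only [Prod.snd_add, Prod.smul_snd]
          rw [smul_add, smul_comm a τ]
    have h3 : (∑ a : F, ((Lagrange.basis Finset.univ id a : F[X]).coeff i) •
        (fun τ : F => g (a • (1, -Mp N (x + τ • v), x + τ • v)))) ∈ UP F s :=
      Submodule.sum_mem _ fun a _ => Submodule.smul_mem _ _ (h1 a)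
    refine UP_congr h3 fun τ => ?_
    rw [coeff_values Finset.univ (by rw [Finset.card_univ]; omega) _ (hqd _) i, Finset.sum_apply]
    refine Finset.sum_congr rfl fun a _ => ?_
    rw [Pi.smul_apply, smul_eq_mul, hqe, mul_comm]
  have hdeg : ∀ (i : ℕ), i < s → ∀ (x v : F × F × Z), Mp N v = 0 →
      (fun τ : F => (q (x + τ • v)).coeff i) ∈ UP F (i + 1) := by
    intro i hi x v hv
    choose r hrd hre using fun i => mem_UP.1 (hcoef i x v hv)
    have h1 : ∀ a : F, (fun t : F => g ((0, -(a * Bp N x v), a • v) + t • (1, -Mp N x, x))) ∈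
        UP F s := by
      intro a
      refine hg' _ _ ?_ ?_ ?_
      · simp only [MQ, Mp_smul, hv]; ring
      · have h3 := Bp_smul N v x a 1
        rw [one_smul] at h3
        simp only [BQ]
        rw [h3, Bp_comm N v x]; ring
      · simp [MQ]
    choose Ψ hΨd hΨe using fun a => mem_UP.1 (h1 a)
    have h3 : ∀ a t : F, t ≠ 0 → (Ψ a).eval t =
        ∑ i ∈ Finset.range s, ∑ k ∈ Finset.range s, (r i).coeff k * (a / t) ^ k * t ^ i := by
      intro a t ht
      rw [← hΨe]
      have h4 : ((0, -(a * Bp N x v), a • v) + t • (1, -Mp N x, x) : F × F × F × F × Z) =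
          t • (1, -Mp N (x + (a / t) • v), x + (a / t) • v) := by
        rw [Mp_add, hv]
        ext1
        · simp
        · ext1
          · simp only [Prod.snd_add, Prod.fst_add, Prod.smul_fst, Prod.smul_snd, smul_eq_mul]
            field_simp
            ring
          · simp only [Prod.snd_add, Prod.smul_snd]
            rw [smul_add, smul_smul, mul_div_cancel₀ _ ht, add_comm]
      rw [h4, hqe]
      have h5 : ∀ P : F[X], P.degree < s → ∀ y : F,
          P.eval y = ∑ i ∈ Finset.range s, P.coeff i * y ^ i := by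
        intro P hP y
        rcases eq_or_ne P 0 with rfl | h0
        · simp
        · rw [degree_eq_natDegree h0] at hP
          exact Polynomial.eval_eq_sum_range' (by exact_mod_cast hP) y
      rw [h5 _ (hqd _)]
      refine Finset.sum_congr rfl fun i _ => ?_
      rw [hre, h5 _ (hrd i), Finset.sum_mul]
    have h6 := fun (k : ℕ) (hk : k < s) (hik : i < k) =>
      degree_bound hs (by omega) (fun i k => (r i).coeff k) Ψ hΨd h3 hi hk hik
    refine mem_UP.2 ⟨r i, ?_, hre i⟩
    rw [degree_lt_iff_coeff_zero]
    intro m hm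
    rcases lt_or_ge m s with hms | hms
    · exact h6 m hms (by omega)
    · exact coeff_eq_zero_of_degree_lt (lt_of_lt_of_le (hrd i) (by exact_mod_cast hms))
  -- the normal forms
  have hNF : ∀ i, i < s → NF N (i + 1) (fun h => (q h).coeff i) := by
    intro i hi
    refine NF_key h2 N (K := Module.finrank F (F × F × Z) * (s - 1) + 1) (by omega) ?_ (hdeg i hi)
    exact PD_of_isotropic h2 N hs (by omega) (fun x v hv => hcoef i x v hv)
  have hHom : ∀ i, ∃ G : F × F × (F × F × Z) → F, i < s →
      G ∈ PD F (F × F × (F × F × Z)) s ∧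
      ∀ (t : F) (h : F × F × Z), G (t • (1, -Mp N h, h)) = t ^ i * (q h).coeff i := by
    intro i
    by_cases hi : i < s
    · obtain ⟨A, hA, B, hB, hAB⟩ := hNF i hi
      rw [Nat.add_sub_cancel] at hB
      obtain ⟨A1, hA1, hA2⟩ := PD_homog hA
      obtain ⟨B1, hB1, hB2⟩ : ∃ B1 ∈ PD F (F × F × F × Z) i,
          ∀ (t : F) (y : F × F × Z), t * B1 (t, t • y) = t ^ i * B y := by
        cases i with
        | zero =>
          refine ⟨0, Submodule.zero_mem _, fun t y => ?_⟩
          rw [PD_zero hB]; simp
        | succ i =>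
          obtain ⟨B1, h1, h3⟩ := PD_homog hB
          refine ⟨B1, h1, fun t y => ?_⟩
          rw [h3]; ring
      -- the projection `(x₁, x₂, u, w, z) ↦ (x₁, x₂, w, z)`
      set pr : F × F × (F × F × Z) →ₗ[F] F × F × F × Z :=
        LinearMap.prodMap LinearMap.id (LinearMap.prodMap LinearMap.id (LinearMap.snd F F (F × Z)))
        with hpr
      set pu : F × F × (F × F × Z) →ₗ[F] F :=
        (LinearMap.fst F F (F × Z)).comp ((LinearMap.snd F F (F × F × Z)).comp
          (LinearMap.snd F F (F × F × F × Z))) with hpu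
      have h5 : (fun x => A1 (pr x + 0)) ∈ PD F (F × F × (F × F × Z)) s :=
        PD_mono (by omega) (PD_comp hA1 pr 0)
      have h6 : (fun x => (pu x + 0) * B1 (pr x + 0)) ∈ PD F (F × F × (F × F × Z)) s :=
        PD_mono (by omega : i + 1 ≤ s) (PD_affmul (PD_comp hB1 pr 0) pu 0)
      refine ⟨_, fun _ => ⟨Submodule.add_mem _ h5 h6, fun t h => ?_⟩⟩
      have h7 : pr (t • (1, -Mp N h, h)) = (t, t • (-Mp N h, h.2)) := by
        rw [hpr]
        ext1
        · simp
        · ext1 <;> simp
      have h8 : pu (t • (1, -Mp N h, h)) = t * h.1 := by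
        rw [hpu]; simp
      simp only [Pi.add_apply, add_zero]
      have hAB' : (q h).coeff i = A (-Mp N h, h.2) + h.1 * B (-Mp N h, h.2) := hAB h
      rw [h7, h8, hA2, hAB']
      linear_combination h.1 * hB2 t (-Mp N h, h.2)
    · exact ⟨0, fun h => absurd h hi⟩
  choose Gi hGi using hHom
  refine ⟨∑ i ∈ Finset.range s, Gi i, Submodule.sum_mem _ fun i hi =>
    (hGi i (Finset.mem_range.1 hi)).1, ?_⟩
  set G := ∑ i ∈ Finset.range s, Gi i with hG
  have hGm : G ∈ PD F (F × F × (F × F × Z)) s := Submodule.sum_mem _ fun i hi =>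
    (hGi i (Finset.mem_range.1 hi)).1
  have hcone : ∀ (t : F) (h : F × F × Z), g (t • (1, -Mp N h, h)) = G (t • (1, -Mp N h, h)) := by
    intro t h
    rw [hqe, hG, Finset.sum_apply]
    have h5 : ∀ P : F[X], P.degree < s → ∀ y : F,
        P.eval y = ∑ i ∈ Finset.range s, P.coeff i * y ^ i := by
      intro P hP y
      rcases eq_or_ne P 0 with rfl | h0
      · simp
      · rw [degree_eq_natDegree h0] at hP
        exact Polynomial.eval_eq_sum_range' (by exact_mod_cast hP) y
    rw [h5 _ (hqd h)]
    refine Finset.sum_congr rfl fun i hi => ?_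
    rw [(hGi i (Finset.mem_range.1 hi)).2, mul_comm]
  -- the points with `x₁ ≠ 0`
  have hne : ∀ n, MQ N n = 0 → n.1 ≠ 0 → g n = G n := by
    intro n hn h1
    have h3 : n = n.1 • (1, -Mp N (n.1⁻¹ • n.2.2), n.1⁻¹ • n.2.2) := by
      have h4 : n.2.1 = - (n.1⁻¹ * Mp N n.2.2) := by
        simp only [MQ] at hn
        field_simp
        linear_combination hn
      rw [Mp_smul]
      ext1
      · simp
      · ext1
        · simp only [Prod.smul_fst, Prod.smul_snd, smul_eq_mul]
          rw [h4]
          field_simp
        · simp only [Prod.smul_snd]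
          rw [smul_smul, mul_inv_cancel₀ h1, one_smul]
    rw [h3]
    exact hcone _ _
  have hext : ∀ n v, MQ N n = 0 → BQ N n v = 0 → MQ N v = 0 →
      (∀ t : F, t ≠ 0 → g (n + t • v) = G (n + t • v)) → g n = G n := by
    intro n v h1 h3 h4 h5
    have h6 := UP_eq_zero (Submodule.sub_mem _ (hg' n v h1 h3 h4) (PD_line hGm n v))
      (Finset.univ.erase 0) (by
        rw [Finset.card_erase_of_mem (Finset.mem_univ _), Finset.card_univ]; omega)
      (fun t ht => by
        rw [Pi.sub_apply, h5 t (Finset.ne_of_mem_erase ht), sub_self]) 0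
    rw [Pi.sub_apply, zero_smul, add_zero, sub_eq_zero] at h6
    exact h6
  -- the points with `x₁ = 0` whose last component is not in the radical
  have hI : ∀ n, MQ N n = 0 → n.1 = 0 → (∃ h, Bp N n.2.2 h ≠ 0) → g n = G n := by
    rintro n hn h1 ⟨h, hh⟩
    have h3 : ∃ h, Bp N n.2.2 h = -n.2.1 := by
      refine ⟨(-n.2.1 / Bp N n.2.2 h) • h, ?_⟩
      have := Bp_smul N n.2.2 h 1 (-n.2.1 / Bp N n.2.2 h)
      rw [one_smul] at this
      rw [this]; field_simp
    obtain ⟨h, hh⟩ := h3
    refine hext n (1, -Mp N h, h) hn ?_ ?_ ?_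
    · simp only [BQ, hh, h1]; ring
    · simp [MQ]
    · intro t ht
      refine hne _ ?_ ?_
      · rw [MQ_add, hn]
        have : BQ N n (1, -Mp N h, h) = 0 := by simp only [BQ, hh, h1]; ring
        rw [this]
        simp [MQ]
      · simp [h1, ht]
  intro n hn
  by_cases h1 : n.1 = 0
  · by_cases h3 : ∃ h, Bp N n.2.2 h ≠ 0
    · exact hI n hn h1 h3
    · push Not at h3
      have h4 : MQ N ((0 : F), (0 : F), ((1 : F), (1 : F), (0 : Z))) = 0 := by simp [MQ, Mp]
      have h5 : BQ N n ((0 : F), (0 : F), ((1 : F), (1 : F), (0 : Z))) = 0 := by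
        simp only [BQ, h3]; ring
      refine hext n ((0 : F), (0 : F), ((1 : F), (1 : F), (0 : Z))) hn h5 h4 fun t ht => ?_
      refine hI _ ?_ ?_ ⟨((1 : F), (0 : F), (0 : Z)), ?_⟩
      · rw [MQ_add, hn, h4, h5]; ring
      · simp [h1]
      · have h6 : (n + t • ((0 : F), (0 : F), ((1 : F), (1 : F), (0 : Z)))).2.2 =
            n.2.2 + t • ((1 : F), (1 : F), (0 : Z)) := by simp
        rw [h6, Bp_add_left, h3, zero_add]
        have := Bp_smul N ((1 : F), (1 : F), (0 : Z)) ((1 : F), (0 : F), (0 : Z)) t 1
        rw [one_smul] at this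
        rw [this]
        have h7 : Bp N ((1 : F), (1 : F), (0 : Z)) ((1 : F), (0 : F), (0 : Z)) = 2 := by
          simp [Bp]
        rw [h7]
        simp [ht, h2]
  · exact hne n hn h1

end Model

end Pool.Agent.Q275.Quad
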