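import Mathlib
import Pool.Agent.Q275.QuadC

/-!
# Reduction of a quadratic form of rank at least five to the model form
-/

set_option autoImplicit false

open Polynomial Matrix

namespace Pool.Agent.Q275.Quad

section Reduction

variable {p : ℕ} [Fact p.Prime] {d : ℕ}

/-- The bilinear form of a matrix. -/
def bil (A : Matrix (Fin d) (Fin d) (ZMod p)) (n m : Fin d → ZMod p) : ZMod p :=
  (Matrix.vecMul n A) ⬝ᵥ m

variable {A : Matrix (Fin d) (Fin d) (ZMod p)}

theorem bil_add_left (n n' m : Fin d → ZMod p) : bil A (n + n') m = bil A n m + bil A n' m := by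
  simp only [bil, Matrix.add_vecMul, add_dotProduct]

theorem bil_smul_left (a : ZMod p) (n m : Fin d → ZMod p) : bil A (a • n) m = a * bil A n m := by
  simp only [bil, Matrix.smul_vecMul, smul_dotProduct, smul_eq_mul]

theorem bil_comm (hA : A.IsSymm) (n m : Fin d → ZMod p) : bil A n m = bil A m n := by
  simp only [bil]
  rw [← Matrix.dotProduct_mulVec, dotProduct_comm, ← Matrix.vecMul_transpose, hA.eq]

theorem bil_add_right (hA : A.IsSymm) (n m m' : Fin d → ZMod p) :
    bil A n (m + m') = bil A n m + bil A n m' := by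
  rw [bil_comm hA, bil_add_left, bil_comm hA m, bil_comm hA m']

theorem bil_smul_right (hA : A.IsSymm) (a : ZMod p) (n m : Fin d → ZMod p) :
    bil A n (a • m) = a * bil A n m := by
  rw [bil_comm hA, bil_smul_left, bil_comm hA]

theorem bil_zero_left (m : Fin d → ZMod p) : bil A 0 m = 0 := by
  have := bil_smul_left (A := A) 0 0 m
  simpa using this

theorem bil_sum_left {ι : Type*} (s : Finset ι) (f : ι → Fin d → ZMod p) (m : Fin d → ZMod p) :
    bil A (∑ i ∈ s, f i) m = ∑ i ∈ s, bil A (f i) m := by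
  classical
  induction s using Finset.induction_on with
  | empty => simp [bil_zero_left]
  | insert a s ha ih => rw [Finset.sum_insert ha, Finset.sum_insert ha, bil_add_left, ih]

/-- A further anisotropic vector orthogonal to a given system. -/
theorem exists_aniso (h2 : (2 : ZMod p) ≠ 0) (hA : A.IsSymm) {k : ℕ} (hr : k < A.rank)
    (v : Fin k → Fin d → ZMod p) (hv : ∀ i, bil A (v i) (v i) ≠ 0)
    (hvo : ∀ i j, i ≠ j → bil A (v i) (v j) = 0) :
    ∃ u, (∀ i, bil A u (v i) = 0) ∧ bil A u u ≠ 0 := by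
  by_contra hcon
  push Not at hcon
  have h1 : ∀ u u', (∀ i, bil A u (v i) = 0) → (∀ i, bil A u' (v i) = 0) → bil A u u' = 0 := by
    intro u u' hu hu'
    have h3 := hcon (u + u') fun i => by rw [bil_add_left, hu, hu', add_zero]
    have h4 := hcon u hu
    have h5 := hcon u' hu'
    rw [bil_add_left, bil_add_right hA, bil_add_right hA, h4, h5, bil_comm hA u' u] at h3
    have : (2 : ZMod p) * bil A u u' = 0 := by linear_combination h3
    exact (mul_eq_zero.1 this).resolve_left h2
  set π : (Fin d → ZMod p) → (Fin d → ZMod p) := fun n =>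
    n + ∑ i, (-(bil A n (v i) / bil A (v i) (v i))) • v i with hπ
  have hπo : ∀ n i, bil A (π n) (v i) = 0 := by
    intro n i
    rw [hπ]
    simp only [bil_add_left, bil_sum_left, bil_smul_left]
    rw [Finset.sum_eq_single i]
    · have := hv i
      field_simp
      ring
    · intro j _ hj
      rw [hvo j i hj, mul_zero]
    · intro h; exact absurd (Finset.mem_univ i) h
  have h6 : ∀ n m, bil A n m = ∑ i, bil A n (v i) * (bil A (v i) (v i))⁻¹ * bil A (v i) m := by
    intro n m
    have h7 : bil A (π n) (π m) = 0 := h1 _ _ (hπo n) (hπo m)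
    have h8 : bil A (π n) (π m) = bil A (π n) m := by
      have hπm : π m = m + ∑ i, (-(bil A m (v i) / bil A (v i) (v i))) • v i := rfl
      rw [bil_comm hA, bil_comm hA (π n) m, hπm, bil_add_left, bil_sum_left]
      simp only [bil_smul_left]
      rw [Finset.sum_eq_zero, add_zero]
      intro i _
      rw [bil_comm hA (v i) (π n), hπo, mul_zero]
    rw [h8, hπ] at h7
    simp only [bil_add_left, bil_sum_left, bil_smul_left] at h7
    rw [add_eq_zero_iff_eq_neg, ← Finset.sum_neg_distrib] at h7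
    rw [h7]
    refine Finset.sum_congr rfl fun i _ => ?_
    ring
  have h9 : A = (Matrix.of fun (j : Fin d) (i : Fin k) => bil A (Pi.single j 1) (v i)) *
      (Matrix.of fun (i : Fin k) (l : Fin d) =>
        (bil A (v i) (v i))⁻¹ * bil A (v i) (Pi.single l 1)) := by
    ext j l
    rw [Matrix.mul_apply]
    simp only [Matrix.of_apply]
    have h10 : A j l = bil A (Pi.single j 1) (Pi.single l 1) := by
      simp [bil]
    rw [h10, h6]
    refine Finset.sum_congr rfl fun i _ => ?_
    ring
  have h11 : A.rank ≤ k := by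
    rw [h9]
    exact (Matrix.rank_mul_le_left _ _).trans (Matrix.rank_le_width _)
  omega

theorem represent (hp : p % 2 = 1) {a b : ZMod p} (ha : a ≠ 0) (hb : b ≠ 0) (c : ZMod p) :
    ∃ x y : ZMod p, a * x ^ 2 + b * y ^ 2 = c := by
  have h1 : (C a * X ^ 2 : (ZMod p)[X]).degree = 2 := degree_C_mul_X_pow 2 ha
  have h3 : (C b * X ^ 2 + C (-c) : (ZMod p)[X]).degree = 2 := by
    rw [degree_add_C]
    · exact degree_C_mul_X_pow 2 hb
    · rw [degree_C_mul_X_pow 2 hb]; norm_num
  obtain ⟨x, y, hxy⟩ := FiniteField.exists_root_sum_quadratic h1 h3 (by rw [ZMod.card]; exact hp)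
  refine ⟨x, y, ?_⟩
  simp only [eval_mul, eval_C, eval_pow, eval_X, eval_add] at hxy
  linear_combination hxy

/-- A further orthogonal vector with a prescribed value of the form. -/
theorem exists_next (hp : p % 2 = 1) (h2 : (2 : ZMod p) ≠ 0) (hA : A.IsSymm) {k : ℕ}
    (hr : k + 1 < A.rank)
    (v : Fin k → Fin d → ZMod p) (hv : ∀ i, bil A (v i) (v i) ≠ 0)
    (hvo : ∀ i j, i ≠ j → bil A (v i) (v j) = 0) (c : ZMod p) :
    ∃ u, (∀ i, bil A u (v i) = 0) ∧ bil A u u = c := by
  obtain ⟨u, hu1, hu2⟩ := exists_aniso h2 hA (by omega : k < A.rank) v hv hvo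
  obtain ⟨u', hu1', hu2'⟩ := exists_aniso h2 hA hr (Fin.cons u v : Fin (k + 1) → Fin d → ZMod p)
    (by
      intro i
      refine Fin.cases ?_ (fun i => ?_) i
      · simpa using hu2
      · simpa using hv i)
    (by
      intro i j
      refine Fin.cases ?_ (fun i => ?_) i
      · refine Fin.cases ?_ (fun j => ?_) j
        · intro h; exact absurd rfl h
        · intro _; simpa using hu1 j
      · refine Fin.cases ?_ (fun j => ?_) j
        · intro _
          simp only [Fin.cons_succ, Fin.cons_zero]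
          rw [bil_comm hA]; exact hu1 i
        · intro h
          simp only [Fin.cons_succ]
          exact hvo i j fun e => h (by rw [e]))
  have hu3 : bil A u' u = 0 := by simpa using hu1' 0
  have hu4 : ∀ i, bil A u' (v i) = 0 := fun i => by simpa using hu1' i.succ
  obtain ⟨x, y, hxy⟩ := represent hp hu2 hu2' c
  refine ⟨x • u + y • u', fun i => ?_, ?_⟩
  · rw [bil_add_left, bil_smul_left, bil_smul_left, hu1, hu4]; ring
  · rw [bil_add_left, bil_smul_left, bil_smul_left, bil_add_right hA, bil_add_right hA,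
      bil_smul_right hA, bil_smul_right hA, bil_smul_right hA, bil_smul_right hA,
      bil_comm hA u u', hu3]
    linear_combination hxy

/-- Orthogonal systems with prescribed values of the form. -/
theorem exists_system (hp : p % 2 = 1) (h2 : (2 : ZMod p) ≠ 0) (hA : A.IsSymm) {k : ℕ}
    (hr : k < A.rank) (c : Fin k → ZMod p) (hc : ∀ i, c i ≠ 0) :
    ∃ v : Fin k → Fin d → ZMod p, (∀ i, bil A (v i) (v i) = c i) ∧
      ∀ i j, i ≠ j → bil A (v i) (v j) = 0 := by
  induction k with
  | zero => exact ⟨fun i => i.elim0, fun i => i.elim0, fun i => i.elim0⟩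
  | succ k ih =>
    obtain ⟨v, hv1, hv2⟩ := ih (by omega) (fun i => c i.succ) (fun i => hc _)
    obtain ⟨u, hu1, hu2⟩ := exists_next hp h2 hA hr v (fun i => by rw [hv1]; exact hc _) hv2 (c 0)
    refine ⟨Fin.cons u v, ?_, ?_⟩
    · intro i
      refine Fin.cases ?_ (fun i => ?_) i
      · simpa using hu2
      · simpa using hv1 i
    · intro i j
      refine Fin.cases ?_ (fun i => ?_) i
      · refine Fin.cases ?_ (fun j => ?_) j
        · intro h; exact absurd rfl h
        · intro _; simpa using hu1 j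
      · refine Fin.cases ?_ (fun j => ?_) j
        · intro _
          simp only [Fin.cons_succ, Fin.cons_zero]
          rw [bil_comm hA]; exact hu1 i
        · intro h
          simp only [Fin.cons_succ]
          exact hv2 i j fun e => h (by rw [e])

/-- The linear functional `n ↦ n A eᵀ`. -/
def bilL (A : Matrix (Fin d) (Fin d) (ZMod p)) (e : Fin d → ZMod p) :
    (Fin d → ZMod p) →ₗ[ZMod p] ZMod p where
  toFun n := bil A n e
  map_add' n m := bil_add_left n m e
  map_smul' a n := bil_smul_left a n e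

theorem toQuad_apply (n : Fin d → ZMod p) : A.toQuadraticForm' n = bil A n n := by
  simp only [Matrix.toQuadraticForm', LinearMap.BilinMap.toQuadraticMap_apply,
    Matrix.toLinearMap₂'_apply', bil, Matrix.dotProduct_mulVec]

/-- **The theorem for forms of rank at least five.** -/
theorem general (hp : p % 2 = 1) (h2 : (2 : ZMod p) ≠ 0) (hA : A.IsSymm) (hr : 5 ≤ A.rank)
    {s : ℕ} (hs : 0 < s) (hcard : 2 * ((d + 2) * (s - 1) + 1) + 2 * s + 5 ≤ p)
    (g : (Fin d → ZMod p) → ZMod p)
    (hg : ∀ n v : Fin d → ZMod p, (∀ t : ZMod p, bil A (n + t • v) (n + t • v) = 0) →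
      (fun t : ZMod p => g (n + t • v)) ∈ UP (ZMod p) s) :
    ∃ G ∈ PD (ZMod p) (Fin d → ZMod p) s, ∀ n, bil A n n = 0 → g n = G n := by
  obtain ⟨e, he1, he2⟩ := exists_system hp h2 hA (k := 4) (by omega) ![1, -1, 1, -1] (by
    intro i
    fin_cases i <;> simp)
  have q0 : bil A (e 0) (e 0) = 1 := by simpa using he1 0
  have q1 : bil A (e 1) (e 1) = -1 := by simpa using he1 1
  have q2 : bil A (e 2) (e 2) = 1 := by simpa using he1 2
  have q3 : bil A (e 3) (e 3) = -1 := by simpa using he1 3
  have o01 := he2 0 1 (by decide)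
  have o02 := he2 0 2 (by decide)
  have o03 := he2 0 3 (by decide)
  have o10 := he2 1 0 (by decide)
  have o12 := he2 1 2 (by decide)
  have o13 := he2 1 3 (by decide)
  have o20 := he2 2 0 (by decide)
  have o21 := he2 2 1 (by decide)
  have o23 := he2 2 3 (by decide)
  have o30 := he2 3 0 (by decide)
  have o31 := he2 3 1 (by decide)
  have o32 := he2 3 2 (by decide)
  set Z : Submodule (ZMod p) (Fin d → ZMod p) :=
    LinearMap.ker (bilL A (e 0)) ⊓ LinearMap.ker (bilL A (e 1)) ⊓ LinearMap.ker (bilL A (e 2)) ⊓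
      LinearMap.ker (bilL A (e 3)) with hZ
  have hZm : ∀ z : Fin d → ZMod p, z ∈ Z ↔ ((bil A z (e 0) = 0 ∧ bil A z (e 1) = 0) ∧
      bil A z (e 2) = 0) ∧ bil A z (e 3) = 0 := by
    intro z
    rw [hZ]
    simp only [Submodule.mem_inf, LinearMap.mem_ker, bilL, LinearMap.coe_mk, AddHom.coe_mk]
  set N : QuadraticForm (ZMod p) Z := (A.toQuadraticForm').comp Z.subtype with hN
  have hNa : ∀ z : Z, N z = bil A (z : Fin d → ZMod p) z := by
    intro z
    rw [hN, QuadraticMap.comp_apply, toQuad_apply]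
    rfl
  set Φ : ZMod p × ZMod p × (ZMod p × ZMod p × Z) → (Fin d → ZMod p) := fun x =>
    ((x.1 + x.2.1) * (2 : ZMod p)⁻¹) • e 0 + (((x.1 - x.2.1) * (2 : ZMod p)⁻¹) • e 1 +
      (x.2.2.1 • e 2 + (x.2.2.2.1 • e 3 + (x.2.2.2.2 : Fin d → ZMod p)))) with hΦ
  have hΦl : ∀ n v (t : ZMod p), Φ (n + t • v) = Φ n + t • Φ v := by
    intro n v t
    rw [hΦ]
    simp only [Prod.fst_add, Prod.snd_add, Prod.smul_fst, Prod.smul_snd, smul_eq_mul,
      Submodule.coe_add, Submodule.coe_smul]
    module
  have hΦM : ∀ x, bil A (Φ x) (Φ x) = MQ N x := by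
    rintro ⟨x1, x2, u, w, z⟩
    obtain ⟨⟨⟨z0, z1⟩, z2⟩, z3⟩ := (hZm z).1 z.2
    have z0' : bil A (e 0) z = 0 := by rw [bil_comm hA]; exact z0
    have z1' : bil A (e 1) z = 0 := by rw [bil_comm hA]; exact z1
    have z2' : bil A (e 2) z = 0 := by rw [bil_comm hA]; exact z2
    have z3' : bil A (e 3) z = 0 := by rw [bil_comm hA]; exact z3
    simp only [hΦ, MQ, Mp, hNa]
    simp only [bil_add_left, bil_smul_left, bil_add_right hA, bil_smul_right hA, q0, q1, q2, q3,
      o01, o02, o03, o10, o12, o13, o20, o21, o23, o30, o31, o32, z0, z1, z2, z3, z0', z1', z2',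
      z3']
    field_simp
    ring
  -- the inverse
  set zp : (Fin d → ZMod p) →ₗ[ZMod p] (Fin d → ZMod p) :=
    LinearMap.id - (bilL A (e 0)).smulRight (e 0) + (bilL A (e 1)).smulRight (e 1)
      - (bilL A (e 2)).smulRight (e 2) + (bilL A (e 3)).smulRight (e 3) with hzp
  have hzpa : ∀ n, zp n = n - bil A n (e 0) • e 0 + bil A n (e 1) • e 1 - bil A n (e 2) • e 2 +
      bil A n (e 3) • e 3 := fun n => rfl
  have hzpZ : ∀ n, zp n ∈ Z := by
    intro n
    rw [hZm, hzpa]
    simp only [sub_eq_add_neg, ← neg_smul]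
    simp only [bil_add_left, bil_smul_left, q0, q1, q2, q3,
      o01, o02, o03, o10, o12, o13, o20, o21, o23, o30, o31, o32]
    refine ⟨⟨⟨?_, ?_⟩, ?_⟩, ?_⟩ <;> ring
  set Ψ : (Fin d → ZMod p) →ₗ[ZMod p] ZMod p × ZMod p × (ZMod p × ZMod p × Z) :=
    LinearMap.prod (bilL A (e 0) - bilL A (e 1)) (LinearMap.prod (bilL A (e 0) + bilL A (e 1))
      (LinearMap.prod (bilL A (e 2)) (LinearMap.prod (-bilL A (e 3))
        (LinearMap.codRestrict Z zp hzpZ)))) with hΨ
  have hΦΨ : ∀ n, Φ (Ψ n) = n := by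
    intro n
    have h3 : Ψ n = (bil A n (e 0) - bil A n (e 1), bil A n (e 0) + bil A n (e 1),
      bil A n (e 2), -bil A n (e 3), ⟨zp n, hzpZ n⟩) := rfl
    rw [h3, hΦ]
    simp only [hzpa]
    have h4 : (bil A n (e 0) - bil A n (e 1) + (bil A n (e 0) + bil A n (e 1))) * (2 : ZMod p)⁻¹ =
        bil A n (e 0) := by field_simp; ring
    have h5 : (bil A n (e 0) - bil A n (e 1) - (bil A n (e 0) + bil A n (e 1))) * (2 : ZMod p)⁻¹ =
        -bil A n (e 1) := by field_simp; ring
    rw [h4, h5]
    module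
  have hfr : Module.finrank (ZMod p) (ZMod p × ZMod p × Z) ≤ d + 2 := by
    rw [Module.finrank_prod, Module.finrank_prod, Module.finrank_self]
    have := Submodule.finrank_le Z
    rw [Module.finrank_fin_fun] at this
    omega
  obtain ⟨G, hG, hgG⟩ := model h2 N hs (by
    rw [ZMod.card]
    refine le_trans ?_ hcard
    have := Nat.mul_le_mul_right (s - 1) hfr
    omega) (fun x => g (Φ x)) (by
    intro n v hv
    have := hg (Φ n) (Φ v) (fun t => by rw [← hΦl, hΦM]; exact hv t)
    refine UP_congr this fun t => ?_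
    rw [hΦl])
  refine ⟨fun n => G (Ψ n + 0), PD_comp hG Ψ 0, fun n hn => ?_⟩
  have h6 := hgG (Ψ n) (by rw [← hΦM, hΦΨ]; exact hn)
  show g n = G (Ψ n + 0)
  rw [add_zero, ← h6, hΦΨ]

end Reduction

end Pool.Agent.Q275.Quad
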