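import Mathlib

/-!
# The weight of an integer and the orders of permutations

`w m` is the sum of the prime powers `p ^ v_p(m)` that divide `m` exactly.
-/

set_option autoImplicit false

namespace Pool.Agent.Q275.SymOrd

open Finset

/-- The sum of the prime powers exactly dividing `m`. -/
def w (m : ℕ) : ℕ := ∑ p ∈ m.primeFactors, p ^ m.factorization p

theorem sum_le_prod {ι : Type} [DecidableEq ι] (s : Finset ι) (f : ι → ℕ) (h : ∀ i ∈ s, 2 ≤ f i) :
    ∑ i ∈ s, f i ≤ ∏ i ∈ s, f i := by
  induction s using Finset.induction_on with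
  | empty => simp
  | insert a s ha ih =>
    rw [Finset.sum_insert ha, Finset.prod_insert ha]
    have h1 := ih fun i hi => h i (Finset.mem_insert_of_mem hi)
    have h2 := h a (Finset.mem_insert_self _ _)
    rcases Finset.eq_empty_or_nonempty s with rfl | hne
    · simp
    · have h3 : 2 ≤ ∏ i ∈ s, f i := by
        obtain ⟨b, hb⟩ := hne
        have hb2 := h b (Finset.mem_insert_of_mem hb)
        refine hb2.trans (Finset.single_le_prod' (f := f) (fun i hi => ?_) hb)
        have := h i (Finset.mem_insert_of_mem hi)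
        omega
      calc f a + ∑ i ∈ s, f i ≤ f a + ∏ i ∈ s, f i := by omega
        _ ≤ f a * ∏ i ∈ s, f i := by nlinarith

theorem w_le {m : ℕ} (hm : m ≠ 0) : w m ≤ m := by
  unfold w
  refine (sum_le_prod _ _ fun p hp => ?_).trans (le_of_eq ?_)
  · have hpp := Nat.prime_of_mem_primeFactors hp
    have h1 : m.factorization p ≠ 0 := by
      rw [← Finsupp.mem_support_iff, Nat.support_factorization]
      exact hp
    calc 2 ≤ p := hpp.two_le
      _ = p ^ 1 := (pow_one p).symm
      _ ≤ p ^ m.factorization p := Nat.pow_le_pow_right hpp.pos (by omega)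
  · exact Nat.prod_factorization_pow_eq_self hm

theorem w_lcm {a b : ℕ} (ha : a ≠ 0) (hb : b ≠ 0) : w (Nat.lcm a b) ≤ w a + w b := by
  unfold w
  have h1 : (Nat.lcm a b).primeFactors = a.primeFactors ∪ b.primeFactors := by
    ext p
    simp only [Nat.mem_primeFactors, Finset.mem_union]
    constructor
    · rintro ⟨hp, hd, -⟩
      have h1 : p ∣ a * b := hd.trans (Nat.lcm_dvd_mul a b)
      rcases (hp.dvd_mul).1 h1 with h | h
      · exact Or.inl ⟨hp, h, ha⟩
      · exact Or.inr ⟨hp, h, hb⟩
    · rintro (⟨hp, hd, -⟩ | ⟨hp, hd, -⟩)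
      · exact ⟨hp, hd.trans (Nat.dvd_lcm_left a b), Nat.lcm_ne_zero ha hb⟩
      · exact ⟨hp, hd.trans (Nat.dvd_lcm_right a b), Nat.lcm_ne_zero ha hb⟩
  have h2 : (Nat.lcm a b).factorization = a.factorization ⊔ b.factorization :=
    Nat.factorization_lcm ha hb
  rw [h1, h2]
  have h3 : ∑ p ∈ a.primeFactors, p ^ a.factorization p =
      ∑ p ∈ a.primeFactors ∪ b.primeFactors, if p ∈ a.primeFactors then p ^ a.factorization p else 0 := by
    rw [← Finset.sum_filter]
    congr 1
    ext p
    simp only [Finset.mem_filter, Finset.mem_union]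
    tauto
  have h4 : ∑ p ∈ b.primeFactors, p ^ b.factorization p =
      ∑ p ∈ a.primeFactors ∪ b.primeFactors, if p ∈ b.primeFactors then p ^ b.factorization p else 0 := by
    rw [← Finset.sum_filter]
    congr 1
    ext p
    simp only [Finset.mem_filter, Finset.mem_union]
    tauto
  rw [h3, h4, ← Finset.sum_add_distrib]
  refine Finset.sum_le_sum fun p hp => ?_
  have h5 : (a.factorization ⊔ b.factorization) p = a.factorization p ⊔ b.factorization p := by
    rw [Finsupp.sup_apply]
  rw [h5]
  by_cases hpa : p ∈ a.primeFactors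
  · by_cases hpb : p ∈ b.primeFactors
    · rw [if_pos hpa, if_pos hpb]
      rcases le_total (a.factorization p) (b.factorization p) with h | h
      · rw [sup_eq_right.2 h]
        omega
      · rw [sup_eq_left.2 h]
        omega
    · rw [if_pos hpa, if_neg hpb]
      have : b.factorization p = 0 := by
        rw [← Finsupp.notMem_support_iff, Nat.support_factorization]
        exact hpb
      rw [this, sup_eq_left.2 (Nat.zero_le _)]
      omega
  · have hpb : p ∈ b.primeFactors := by
      rcases Finset.mem_union.1 hp with h | h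
      · exact absurd h hpa
      · exact h
    rw [if_neg hpa, if_pos hpb]
    have : a.factorization p = 0 := by
      rw [← Finsupp.notMem_support_iff, Nat.support_factorization]
      exact hpa
    rw [this, sup_eq_right.2 (Nat.zero_le _)]
    omega

theorem w_one : w 1 = 0 := by
  unfold w
  simp

theorem w_multiset (s : Multiset ℕ) (h : ∀ a ∈ s, a ≠ 0) : s.lcm ≠ 0 ∧ w s.lcm ≤ s.sum := by
  induction s using Multiset.induction_on with
  | empty =>
    simp [w_one]
  | cons a s ih =>
    have h1 := ih fun b hb => h b (Multiset.mem_cons_of_mem hb)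
    have h2 := h a (Multiset.mem_cons_self _ _)
    rw [Multiset.lcm_cons, Multiset.sum_cons]
    have e : GCDMonoid.lcm a s.lcm = Nat.lcm a s.lcm := rfl
    rw [e]
    refine ⟨Nat.lcm_ne_zero h2 h1.1, ?_⟩
    have h3 := w_lcm h2 h1.1
    have h4 := w_le h2
    omega

theorem w_orderOf {n : ℕ} (σ : Equiv.Perm (Fin n)) : orderOf σ ≠ 0 ∧ w (orderOf σ) ≤ n := by
  have h1 := Equiv.Perm.lcm_cycleType σ
  have h2 := w_multiset σ.cycleType fun a ha => by
    have := Equiv.Perm.two_le_of_mem_cycleType ha
    omega
  rw [h1] at h2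
  refine ⟨h2.1, h2.2.trans ?_⟩
  rw [Equiv.Perm.sum_cycleType]
  calc σ.support.card ≤ (Finset.univ : Finset (Fin n)).card := Finset.card_le_card (Finset.subset_univ _)
    _ = n := by simp

/-! ### The finite sets of integers of small weight -/

/-- A finite set containing all the `m` of weight at most `n` with primes in `L`. -/
def FS (K : ℕ) : List ℕ → ℕ → Finset ℕ
  | [], _ => {1}
  | p :: L, n => FS K L n ∪
      (Finset.range K).biUnion fun k =>
        if p ^ (k + 1) ≤ n then (FS K L (n - p ^ (k + 1))).image (fun x => p ^ (k + 1) * x) else ∅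

/-- The corresponding count. -/
def cnt (K : ℕ) : List ℕ → ℕ → ℕ
  | [], _ => 1
  | p :: L, n => cnt K L n +
      ∑ k ∈ Finset.range K, if p ^ (k + 1) ≤ n then cnt K L (n - p ^ (k + 1)) else 0

theorem card_FS (K : ℕ) (L : List ℕ) : ∀ n, (FS K L n).card ≤ cnt K L n := by
  induction L with
  | nil => intro n; simp [FS, cnt]
  | cons p L ih =>
    intro n
    unfold FS cnt
    refine (Finset.card_union_le _ _).trans (Nat.add_le_add (ih n) ?_)
    refine Finset.card_biUnion_le.trans (Finset.sum_le_sum fun k _ => ?_)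
    split_ifs
    · exact Finset.card_image_le.trans (ih _)
    · simp

theorem w_mul {p k m : ℕ} (hp : p.Prime) (hk : k ≠ 0) (hm : m ≠ 0) (hpm : ¬ p ∣ m) :
    w (p ^ k * m) = p ^ k + w m := by
  unfold w
  have hcop : Nat.Coprime (p ^ k) m := (Nat.Coprime.pow_left k ((Nat.Prime.coprime_iff_not_dvd hp).2 hpm))
  rw [hcop.primeFactors_mul, Nat.primeFactors_prime_pow hk hp,
    Nat.factorization_mul (pow_ne_zero _ hp.ne_zero) hm]
  have hnot : p ∉ m.primeFactors := fun h => hpm (Nat.dvd_of_mem_primeFactors h)
  rw [Finset.sum_union (Finset.disjoint_singleton_left.2 hnot), Finset.sum_singleton]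
  have h1 : ((p ^ k).factorization + m.factorization) p = k := by
    rw [Finsupp.add_apply, hp.factorization_pow, Finsupp.single_eq_same,
      Nat.factorization_eq_zero_of_not_dvd hpm, add_zero]
  rw [h1]
  congr 1
  refine Finset.sum_congr rfl fun q hq => ?_
  have hqp : q ≠ p := fun h => hnot (h ▸ hq)
  rw [Finsupp.add_apply, hp.factorization_pow, Finsupp.single_eq_of_ne hqp, zero_add]

theorem mem_FS {K : ℕ} (L : List ℕ) : ∀ (n m : ℕ), m ≠ 0 → (∀ p ∈ m.primeFactors, p ∈ L) → w m ≤ n →
    n < 2 ^ (K + 1) → m ∈ FS K L n := by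
  induction L with
  | nil =>
    intro n m hm h _ _
    have h1 : m.primeFactors = ∅ := by
      rw [Finset.eq_empty_iff_forall_notMem]
      intro p hp
      exact absurd (h p hp) (by simp)
    rw [Nat.primeFactors_eq_empty] at h1
    have h2 : m = 1 := by
      rcases h1 with h | h
      · exact absurd h hm
      · exact h
    subst h2
    simp [FS]
  | cons p L ih =>
    intro n m hm h hw hn
    unfold FS
    rw [Finset.mem_union]
    by_cases hp : p ∈ m.primeFactors
    · right
      have hpp := Nat.prime_of_mem_primeFactors hp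
      set k := m.factorization p with hk
      have hk0 : k ≠ 0 := by
        rw [hk, ← Finsupp.mem_support_iff, Nat.support_factorization]
        exact hp
      have e1 : p ^ k * (m / p ^ k) = m := Nat.ordProj_mul_ordCompl_eq_self m p
      have h2 : ¬ p ∣ m / p ^ k := Nat.not_dvd_ordCompl hpp hm
      have h3 : m / p ^ k ≠ 0 := (Nat.ordCompl_pos p hm).ne'
      have h4 : w m = p ^ k + w (m / p ^ k) := by
        conv_lhs => rw [← e1]
        exact w_mul hpp hk0 h3 h2
      have h5 : p ^ k ≤ n := by omega
      have h6 : k ≤ K := by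
        by_contra hcon
        have h7 : 2 ^ (K + 1) ≤ 2 ^ k := Nat.pow_le_pow_right (by norm_num) (by omega)
        have h8 : 2 ^ k ≤ p ^ k := Nat.pow_le_pow_left hpp.two_le k
        omega
      obtain ⟨j, hj⟩ : ∃ j, k = j + 1 := ⟨k - 1, by omega⟩
      rw [Finset.mem_biUnion]
      refine ⟨j, Finset.mem_range.2 (by omega), ?_⟩
      rw [← hj, if_pos h5, Finset.mem_image]
      refine ⟨m / p ^ k, ih _ _ h3 ?_ (by omega) (by omega), e1⟩
      intro q hq
      have h9 : q ∈ m.primeFactors := by
        rw [Nat.mem_primeFactors] at hq ⊢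
        exact ⟨hq.1, hq.2.1.trans (Nat.div_dvd_of_dvd (Nat.ordProj_dvd m p)), hm⟩
      have h10 := h q h9
      rcases List.mem_cons.1 h10 with h11 | h11
      · have h12 := Nat.dvd_of_mem_primeFactors hq
        rw [h11] at h12
        exact absurd h12 h2
      · exact h11
    · left
      refine ih n m hm (fun q hq => ?_) hw hn
      rcases List.mem_cons.1 (h q hq) with h11 | h11
      · exact absurd (h11 ▸ hq) hp
      · exact h11

/-- Rankin's inequality. -/
theorem rankin {K : ℕ} {x : ℝ} (hx0 : 0 ≤ x) (L : List ℕ) : ∀ n,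
    (cnt K L n : ℝ) * x ^ n ≤ (L.map fun p => 1 + ∑ k ∈ Finset.range K, x ^ (p ^ (k + 1))).prod ∨ 1 < x := by
  by_cases hx1 : 1 < x
  · exact fun _ => Or.inr hx1
  push Not at hx1
  suffices h : ∀ n, (cnt K L n : ℝ) * x ^ n ≤
      (L.map fun p => 1 + ∑ k ∈ Finset.range K, x ^ (p ^ (k + 1))).prod from fun n => Or.inl (h n)
  induction L with
  | nil =>
    intro n
    simp only [cnt, List.map_nil, List.prod_nil, Nat.cast_one, one_mul]
    exact pow_le_one₀ hx0 hx1
  | cons p L ih =>
    intro n
    rw [List.map_cons, List.prod_cons]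
    set G := (L.map fun p => 1 + ∑ k ∈ Finset.range K, x ^ (p ^ (k + 1))).prod with hG
    have hG0 : 0 ≤ G := (by
      have := ih 0
      refine le_trans ?_ this
      positivity)
    unfold cnt
    push_cast
    rw [add_mul, add_mul, one_mul, Finset.sum_mul, Finset.sum_mul]
    refine add_le_add (ih n) (Finset.sum_le_sum fun k _ => ?_)
    split_ifs with h
    · have e : x ^ n = x ^ (n - p ^ (k + 1)) * x ^ (p ^ (k + 1)) := by
        rw [← pow_add]
        congr 1
        omega
      rw [e, ← mul_assoc, mul_comm (x ^ (p ^ (k + 1))) G]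
      exact mul_le_mul_of_nonneg_right (ih _) (by positivity)
    · simp only [zero_mul]
      positivity

theorem rankin' {K : ℕ} {x : ℝ} (hx0 : 0 ≤ x) (hx1 : x ≤ 1) (L : List ℕ) (n : ℕ) :
    (cnt K L n : ℝ) * x ^ n ≤ (L.map fun p => 1 + ∑ k ∈ Finset.range K, x ^ (p ^ (k + 1))).prod := by
  rcases rankin hx0 (K := K) L n with h | h
  · exact h
  · exact absurd h (not_lt.2 hx1)

/-- The number of orders is at most the count. -/
theorem orders_le {K n : ℕ} (L : List ℕ) (hL : ∀ p, p.Prime → p ≤ n → p ∈ L) (hn : n < 2 ^ (K + 1)) :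
    (Set.range fun σ : Equiv.Perm (Fin n) => orderOf σ).ncard ≤ cnt K L n := by
  have hsub : (Set.range fun σ : Equiv.Perm (Fin n) => orderOf σ) ⊆ ((FS K L n : Finset ℕ) : Set ℕ) := by
    rintro m ⟨σ, rfl⟩
    obtain ⟨h1, h2⟩ := w_orderOf σ
    refine mem_FS L n _ h1 (fun p hp => hL p (Nat.prime_of_mem_primeFactors hp) ?_) h2 hn
    refine le_trans ?_ h2
    have hpp := Nat.prime_of_mem_primeFactors hp
    have h3 : (orderOf σ).factorization p ≠ 0 := by
      rw [← Finsupp.mem_support_iff, Nat.support_factorization]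
      exact hp
    calc p = p ^ 1 := (pow_one p).symm
      _ ≤ p ^ (orderOf σ).factorization p := Nat.pow_le_pow_right hpp.pos (by omega)
      _ ≤ w (orderOf σ) := Finset.single_le_sum
        (f := fun p => p ^ (orderOf σ).factorization p) (fun _ _ => Nat.zero_le _) hp
  calc _ ≤ ((FS K L n : Finset ℕ) : Set ℕ).ncard := Set.ncard_le_ncard hsub (Finset.finite_toSet _)
    _ = (FS K L n).card := Set.ncard_coe_finset _
    _ ≤ _ := card_FS K L n

end Pool.Agent.Q275.SymOrd
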