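import Pool.Agent.Q275.SymOrdA

/-!
# The count for `n ≤ 860`, by dynamic programming
-/

set_option autoImplicit false
set_option maxRecDepth 100000

namespace Pool.Agent.Q275.SymOrd

open Finset

/-- Adds the list shifted by `k`. -/
def shiftAdd (acc r : List ℕ) (k : ℕ) : List ℕ :=
  List.zipWith (fun a b => a + b) acc (List.replicate k 0 ++ r)

/-- Adds the shifts by `q`, `q * p`, ..., as long as they are smaller than `N`. -/
def stepAux (r : List ℕ) (p N : ℕ) : ℕ → ℕ → List ℕ → List ℕ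
  | 0, _, acc => acc
  | f + 1, q, acc => if q < N then stepAux r p N f (q * p) (shiftAdd acc r q) else acc

/-- The list of the counts. -/
def rows (K N : ℕ) : List ℕ → List ℕ
  | [] => List.replicate N 1
  | p :: L => stepAux (rows K N L) p N K p (rows K N L)

theorem shiftAdd_length {acc r : List ℕ} {N k : ℕ} (ha : acc.length = N) (hr : r.length = N) :
    (shiftAdd acc r k).length = N := by
  unfold shiftAdd
  rw [List.length_zipWith, List.length_append, List.length_replicate]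
  omega

theorem shiftAdd_getD {acc r : List ℕ} {N k n : ℕ} (ha : acc.length = N) (hr : r.length = N)
    (hn : n < N) : (shiftAdd acc r k).getD n 0 =
      acc.getD n 0 + if k ≤ n then r.getD (n - k) 0 else 0 := by
  unfold shiftAdd
  rw [List.getD_eq_getElem?_getD, List.getElem?_zipWith, List.getD_eq_getElem?_getD,
    List.getElem?_append, List.length_replicate]
  have h1 : acc[n]? = some acc[n] := List.getElem?_eq_getElem (by omega)
  rw [h1]
  split_ifs with h2 h3 h3
  · omega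
  · rw [List.getElem?_replicate, if_pos h2]
    simp
  · have h4 : r[n - k]? = some r[n - k] := List.getElem?_eq_getElem (by omega)
    rw [h4, List.getD_eq_getElem?_getD, h4]
    simp
  · omega

theorem stepAux_spec {r : List ℕ} {p N : ℕ} (hp : 1 ≤ p) (hr : r.length = N) (f : ℕ) :
    ∀ (q : ℕ) (acc : List ℕ), acc.length = N →
      (stepAux r p N f q acc).length = N ∧ ∀ n < N, (stepAux r p N f q acc).getD n 0 =
        acc.getD n 0 + ∑ j ∈ Finset.range f, if q * p ^ j ≤ n then r.getD (n - q * p ^ j) 0 else 0 := by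
  induction f with
  | zero =>
    intro q acc ha
    refine ⟨ha, fun n _ => ?_⟩
    simp [stepAux]
  | succ f ih =>
    intro q acc ha
    unfold stepAux
    split_ifs with hq
    · obtain ⟨h1, h2⟩ := ih (q * p) (shiftAdd acc r q) (shiftAdd_length ha hr)
      refine ⟨h1, fun n hn => ?_⟩
      rw [h2 n hn, shiftAdd_getD ha hr hn, Finset.sum_range_succ', add_assoc, pow_zero, mul_one]
      congr 1
      rw [add_comm]
      have e : ∀ j ∈ Finset.range f,
          (if q * p * p ^ j ≤ n then r.getD (n - q * p * p ^ j) 0 else 0) =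
          if q * p ^ (j + 1) ≤ n then r.getD (n - q * p ^ (j + 1)) 0 else 0 := by
        intro j _
        rw [mul_assoc, ← pow_succ']
      rw [Finset.sum_congr rfl e]
    · refine ⟨ha, fun n hn => ?_⟩
      rw [Finset.sum_eq_zero, add_zero]
      intro j _
      rw [if_neg]
      have : q * 1 ≤ q * p ^ j := Nat.mul_le_mul_left _ (Nat.one_le_pow _ _ hp)
      omega

theorem rows_spec (K N : ℕ) (L : List ℕ) (hL : ∀ p ∈ L, 1 ≤ p) :
    (rows K N L).length = N ∧ ∀ n < N, (rows K N L).getD n 0 = cnt K L n := by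
  induction L with
  | nil =>
    refine ⟨by simp [rows], fun n hn => ?_⟩
    unfold rows cnt
    rw [List.getD_eq_getElem?_getD, List.getElem?_replicate, if_pos hn]
    rfl
  | cons p L ih =>
    obtain ⟨h1, h2⟩ := ih fun q hq => hL q (List.mem_cons_of_mem _ hq)
    have hp := hL p List.mem_cons_self
    unfold rows
    obtain ⟨h3, h4⟩ := stepAux_spec hp h1 K p (rows K N L) h1
    refine ⟨h3, fun n hn => ?_⟩
    rw [h4 n hn, h2 n hn]
    have e : ∀ j ∈ Finset.range K,
        (if p * p ^ j ≤ n then (rows K N L).getD (n - p * p ^ j) 0 else 0) =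
        if p ^ (j + 1) ≤ n then cnt K L (n - p ^ (j + 1)) else 0 := by
      intro j _
      rw [← pow_succ']
      by_cases h : p ^ (j + 1) ≤ n
      · rw [if_pos h, if_pos h, h2 _ (by omega)]
      · rw [if_neg h, if_neg h]
    rw [Finset.sum_congr rfl e]
    rfl

/-- The test. -/
def chk : ℕ → List ℕ → List ℕ → Bool
  | _, [], _ => true
  | _, _ :: _, [] => false
  | n, c :: cs, a :: as =>
    Nat.ble (a * a) (4096 * n) && (Nat.ble (c * 8192 ^ a) (8321 ^ a) && chk (n + 1) cs as)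

theorem chk_spec (cs : List ℕ) : ∀ (n : ℕ) (as : List ℕ), chk n cs as = true →
    ∀ i < cs.length, ∃ a : ℕ, a * a ≤ 4096 * (n + i) ∧ cs.getD i 0 * 8192 ^ a ≤ 8321 ^ a := by
  induction cs with
  | nil => intro n as _ i hi; simp at hi
  | cons c cs ih =>
    intro n as h i hi
    cases as with
    | nil => simp [chk] at h
    | cons a as =>
      simp only [chk, Bool.and_eq_true, Nat.ble_eq] at h
      rcases i with _ | i
      · exact ⟨a, by simpa using h.1, by simpa using h.2.1⟩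
      · obtain ⟨b, hb1, hb2⟩ := ih (n + 1) as h.2.2 i (by simpa using hi)
        refine ⟨b, ?_, by simpa using hb2⟩
        calc b * b ≤ 4096 * (n + 1 + i) := hb1
          _ = 4096 * (n + (i + 1)) := by ring

/-- The primes up to `860`. -/
def pr : List ℕ := [
  2, 3, 5, 7, 11, 13, 17, 19, 23, 29, 31, 37, 41, 43, 47, 53, 59, 61, 67, 71, 73, 79, 83, 89, 97,
  101, 103, 107, 109, 113, 127, 131, 137, 139, 149, 151, 157, 163, 167, 173, 179, 181, 191, 193,
  197, 199, 211, 223, 227, 229, 233, 239, 241, 251, 257, 263, 269, 271, 277, 281, 283, 293, 307,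
  311, 313, 317, 331, 337, 347, 349, 353, 359, 367, 373, 379, 383, 389, 397, 401, 409, 419, 421,
  431, 433, 439, 443, 449, 457, 461, 463, 467, 479, 487, 491, 499, 503, 509, 521, 523, 541, 547,
  557, 563, 569, 571, 577, 587, 593, 599, 601, 607, 613, 617, 619, 631, 641, 643, 647, 653, 659,
  661, 673, 677, 683, 691, 701, 709, 719, 727, 733, 739, 743, 751, 757, 761, 769, 773, 787, 797,
  809, 811, 821, 823, 827, 829, 839, 853, 857, 859]

/-- The integer parts of `64 √n`. -/
def sq : List ℕ := [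
  0, 64, 90, 110, 128, 143, 156, 169, 181, 192, 202, 212, 221, 230, 239, 247, 256, 263, 271, 278,
  286, 293, 300, 306, 313, 320, 326, 332, 338, 344, 350, 356, 362, 367, 373, 378, 384, 389, 394,
  399, 404, 409, 414, 419, 424, 429, 434, 438, 443, 448, 452, 457, 461, 465, 470, 474, 478, 483,
  487, 491, 495, 499, 503, 507, 512, 515, 519, 523, 527, 531, 535, 539, 543, 546, 550, 554, 557,
  561, 565, 568, 572, 576, 579, 583, 586, 590, 593, 596, 600, 603, 607, 610, 613, 617, 620, 623,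
  627, 630, 633, 636, 640, 643, 646, 649, 652, 655, 658, 662, 665, 668, 671, 674, 677, 680, 683,
  686, 689, 692, 695, 698, 701, 704, 706, 709, 712, 715, 718, 721, 724, 726, 729, 732, 735, 738,
  740, 743, 746, 749, 751, 754, 757, 759, 762, 765, 768, 770, 773, 775, 778, 781, 783, 786, 789,
  791, 794, 796, 799, 801, 804, 807, 809, 812, 814, 817, 819, 822, 824, 827, 829, 832, 834, 836,
  839, 841, 844, 846, 849, 851, 853, 856, 858, 861, 863, 865, 868, 870, 872, 875, 877, 879, 882,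
  884, 886, 889, 891, 893, 896, 898, 900, 902, 905, 907, 909, 911, 914, 916, 918, 920, 923, 925,
  927, 929, 931, 934, 936, 938, 940, 942, 944, 947, 949, 951, 953, 955, 957, 960, 962, 964, 966,
  968, 970, 972, 974, 976, 979, 981, 983, 985, 987, 989, 991, 993, 995, 997, 999, 1001, 1003,
  1005, 1007, 1009, 1011, 1013, 1015, 1017, 1019, 1021, 1024, 1025, 1027, 1029, 1031, 1033, 1035,
  1037, 1039, 1041, 1043, 1045, 1047, 1049, 1051, 1053, 1055, 1057, 1059, 1061, 1063, 1065, 1067,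
  1069, 1070, 1072, 1074, 1076, 1078, 1080, 1082, 1084, 1086, 1088, 1089, 1091, 1093, 1095, 1097,
  1099, 1101, 1102, 1104, 1106, 1108, 1110, 1112, 1114, 1115, 1117, 1119, 1121, 1123, 1125, 1126,
  1128, 1130, 1132, 1134, 1135, 1137, 1139, 1141, 1143, 1144, 1146, 1148, 1150, 1152, 1153, 1155,
  1157, 1159, 1160, 1162, 1164, 1166, 1167, 1169, 1171, 1173, 1174, 1176, 1178, 1180, 1181, 1183,
  1185, 1187, 1188, 1190, 1192, 1193, 1195, 1197, 1199, 1200, 1202, 1204, 1205, 1207, 1209, 1210,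
  1212, 1214, 1216, 1217, 1219, 1221, 1222, 1224, 1226, 1227, 1229, 1231, 1232, 1234, 1236, 1237,
  1239, 1241, 1242, 1244, 1245, 1247, 1249, 1250, 1252, 1254, 1255, 1257, 1259, 1260, 1262, 1263,
  1265, 1267, 1268, 1270, 1271, 1273, 1275, 1276, 1278, 1280, 1281, 1283, 1284, 1286, 1287, 1289,
  1291, 1292, 1294, 1295, 1297, 1299, 1300, 1302, 1303, 1305, 1306, 1308, 1310, 1311, 1313, 1314,
  1316, 1317, 1319, 1320, 1322, 1324, 1325, 1327, 1328, 1330, 1331, 1333, 1334, 1336, 1337, 1339,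
  1340, 1342, 1344, 1345, 1347, 1348, 1350, 1351, 1353, 1354, 1356, 1357, 1359, 1360, 1362, 1363,
  1365, 1366, 1368, 1369, 1371, 1372, 1374, 1375, 1377, 1378, 1380, 1381, 1383, 1384, 1386, 1387,
  1388, 1390, 1391, 1393, 1394, 1396, 1397, 1399, 1400, 1402, 1403, 1405, 1406, 1408, 1409, 1410,
  1412, 1413, 1415, 1416, 1418, 1419, 1421, 1422, 1423, 1425, 1426, 1428, 1429, 1431, 1432, 1433,
  1435, 1436, 1438, 1439, 1441, 1442, 1443, 1445, 1446, 1448, 1449, 1450, 1452, 1453, 1455, 1456,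
  1458, 1459, 1460, 1462, 1463, 1465, 1466, 1467, 1469, 1470, 1472, 1473, 1474, 1476, 1477, 1478,
  1480, 1481, 1483, 1484, 1485, 1487, 1488, 1489, 1491, 1492, 1494, 1495, 1496, 1498, 1499, 1500,
  1502, 1503, 1505, 1506, 1507, 1509, 1510, 1511, 1513, 1514, 1515, 1517, 1518, 1519, 1521, 1522,
  1523, 1525, 1526, 1527, 1529, 1530, 1531, 1533, 1534, 1536, 1537, 1538, 1539, 1541, 1542, 1543,
  1545, 1546, 1547, 1549, 1550, 1551, 1553, 1554, 1555, 1557, 1558, 1559, 1561, 1562, 1563, 1565,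
  1566, 1567, 1568, 1570, 1571, 1572, 1574, 1575, 1576, 1578, 1579, 1580, 1581, 1583, 1584, 1585,
  1587, 1588, 1589, 1591, 1592, 1593, 1594, 1596, 1597, 1598, 1600, 1601, 1602, 1603, 1605, 1606,
  1607, 1608, 1610, 1611, 1612, 1614, 1615, 1616, 1617, 1619, 1620, 1621, 1622, 1624, 1625, 1626,
  1627, 1629, 1630, 1631, 1632, 1634, 1635, 1636, 1637, 1639, 1640, 1641, 1642, 1644, 1645, 1646,
  1647, 1649, 1650, 1651, 1652, 1654, 1655, 1656, 1657, 1659, 1660, 1661, 1662, 1664, 1665, 1666,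
  1667, 1668, 1670, 1671, 1672, 1673, 1675, 1676, 1677, 1678, 1679, 1681, 1682, 1683, 1684, 1686,
  1687, 1688, 1689, 1690, 1692, 1693, 1694, 1695, 1696, 1698, 1699, 1700, 1701, 1702, 1704, 1705,
  1706, 1707, 1708, 1710, 1711, 1712, 1713, 1714, 1716, 1717, 1718, 1719, 1720, 1722, 1723, 1724,
  1725, 1726, 1728, 1729, 1730, 1731, 1732, 1733, 1735, 1736, 1737, 1738, 1739, 1740, 1742, 1743,
  1744, 1745, 1746, 1748, 1749, 1750, 1751, 1752, 1753, 1755, 1756, 1757, 1758, 1759, 1760, 1762,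
  1763, 1764, 1765, 1766, 1767, 1768, 1770, 1771, 1772, 1773, 1774, 1775, 1777, 1778, 1779, 1780,
  1781, 1782, 1783, 1785, 1786, 1787, 1788, 1789, 1790, 1792, 1793, 1794, 1795, 1796, 1797, 1798,
  1799, 1801, 1802, 1803, 1804, 1805, 1806, 1807, 1809, 1810, 1811, 1812, 1813, 1814, 1815, 1816,
  1818, 1819, 1820, 1821, 1822, 1823, 1824, 1825, 1827, 1828, 1829, 1830, 1831, 1832, 1833, 1834,
  1836, 1837, 1838, 1839, 1840, 1841, 1842, 1843, 1844, 1846, 1847, 1848, 1849, 1850, 1851, 1852,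
  1853, 1854, 1856, 1857, 1858, 1859, 1860, 1861, 1862, 1863, 1864, 1865, 1867, 1868, 1869, 1870,
  1871, 1872, 1873, 1874, 1875, 1876]

theorem big_check : chk 0 (rows 9 861 pr) sq = true := by decide +kernel

theorem pr_complete' : ∀ q < 861, q < 2 ∨ q ∈ pr ∨
    ∃ d ∈ [2, 3, 5, 7, 11, 13, 17, 19, 23, 29], q % d = 0 ∧ d < q := by decide +kernel

theorem pr_complete {q : ℕ} (hq : q.Prime) (h : q ≤ 860) : q ∈ pr := by
  rcases pr_complete' q (by omega) with h1 | h1 | ⟨d, h1, h2, h3⟩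
  · exact absurd hq.two_le (by omega)
  · exact h1
  · exfalso
    have h4 : d ∣ q := Nat.dvd_of_mod_eq_zero h2
    rcases (Nat.dvd_prime hq).1 h4 with h5 | h5
    · subst h5
      simp at h1
    · omega

theorem pr_pos : ∀ p ∈ pr, 1 ≤ p := by decide +kernel

theorem exp_lower : (8321 / 8192 : ℝ) ≤ Real.exp (1 / 64) := by
  have := Real.quadratic_le_exp_of_nonneg (show (0 : ℝ) ≤ 1 / 64 by norm_num)
  refine le_trans ?_ this
  norm_num

/-- `exp (a / 64)` is at least `(8321 / 8192) ^ a`. -/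
theorem exp_lower_pow (a : ℕ) : (8321 : ℝ) ^ a ≤ 8192 ^ a * Real.exp (a / 64) := by
  have h1 : (8321 / 8192 : ℝ) ^ a ≤ Real.exp (1 / 64) ^ a :=
    pow_le_pow_left₀ (by norm_num) exp_lower a
  rw [← Real.exp_nat_mul, div_pow, div_le_iff₀ (by positivity)] at h1
  calc (8321 : ℝ) ^ a ≤ Real.exp (a * (1 / 64)) * 8192 ^ a := h1
    _ = _ := by rw [mul_comm, mul_one_div]

theorem small_n {n : ℕ} (hn : n ≤ 860) :
    ((Set.range fun σ : Equiv.Perm (Fin n) => orderOf σ).ncard : ℝ) ≤ Real.exp (Real.sqrt n) := by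
  have h1 := orders_le (K := 9) (n := n) pr (fun p hp hpn => pr_complete hp (by omega)) (by omega)
  obtain ⟨h2, h3⟩ := rows_spec 9 861 pr pr_pos
  have h4 := h3 n (by omega)
  obtain ⟨a, ha1, ha2⟩ := chk_spec _ 0 sq big_check n (by rw [h2]; omega)
  rw [h4] at ha2
  rw [zero_add] at ha1
  have h5 : (a : ℝ) / 64 ≤ Real.sqrt n := by
    refine Real.le_sqrt_of_sq_le ?_
    have h6 : (a : ℝ) * a ≤ 4096 * n := by exact_mod_cast ha1
    rw [div_pow, div_le_iff₀ (by norm_num)]
    nlinarith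
  have h6 : ((cnt 9 pr n : ℕ) : ℝ) * 8192 ^ a ≤ 8321 ^ a := by exact_mod_cast ha2
  have h7 := h6.trans (exp_lower_pow a)
  rw [mul_comm] at h7
  have h8 : ((cnt 9 pr n : ℕ) : ℝ) ≤ Real.exp (a / 64) := le_of_mul_le_mul_left h7 (by positivity)
  calc ((Set.range fun σ : Equiv.Perm (Fin n) => orderOf σ).ncard : ℝ) ≤ (cnt 9 pr n : ℕ) := by
        exact_mod_cast h1
    _ ≤ Real.exp (a / 64) := h8
    _ ≤ _ := Real.exp_le_exp.2 h5

end Pool.Agent.Q275.SymOrd
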