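import Pool.Agent.Q275.SymOrdB

/-!
# The range `860 ≤ n ≤ 250000`, by Rankin's method
-/

set_option autoImplicit false
set_option maxRecDepth 100000

namespace Pool.Agent.Q275.SymOrd

open Finset

/-! ### Sums over integers prime to `30` -/

/-- The residues prime to `30`. -/
def R30 : Finset ℕ := {1, 7, 11, 13, 17, 19, 23, 29}

theorem sum_coprime {Q : Finset ℕ} {J₀ J : ℕ} (hQ : ∀ m ∈ Q, m % 30 ∈ R30 ∧ J₀ ≤ m / 30 ∧ m / 30 < J)
    {F f : ℕ → ℝ} (hf : ∀ j, 0 ≤ f j) (hF : ∀ m ∈ Q, F m ≤ f (m / 30)) :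
    ∑ m ∈ Q, F m ≤ 8 * ∑ j ∈ Finset.Ico J₀ J, f j := by
  refine (Finset.sum_le_sum hF).trans ?_
  rw [← Finset.sum_fiberwise_of_maps_to (s := Q) (t := Finset.Ico J₀ J) (g := fun m => m / 30)
    (fun m hm => Finset.mem_Ico.2 (hQ m hm).2), Finset.mul_sum]
  refine Finset.sum_le_sum fun j _ => ?_
  have h1 : ∑ m ∈ Q with m / 30 = j, f (m / 30) = ((Q.filter fun m => m / 30 = j).card : ℝ) * f j := by
    rw [← nsmul_eq_mul, ← Finset.sum_const]
    refine Finset.sum_congr rfl fun m hm => ?_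
    rw [(Finset.mem_filter.1 hm).2]
  rw [h1]
  refine mul_le_mul_of_nonneg_right ?_ (hf j)
  have h2 : (Q.filter fun m => m / 30 = j) ⊆ R30.image fun r => 30 * j + r := by
    intro m hm
    obtain ⟨hm1, hm2⟩ := Finset.mem_filter.1 hm
    refine Finset.mem_image.2 ⟨m % 30, (hQ m hm1).1, ?_⟩
    omega
  have h3 := (Finset.card_le_card h2).trans Finset.card_image_le
  have h4 : R30.card = 8 := by decide
  rw [h4] at h3
  exact_mod_cast h3

theorem mem_R30 : ∀ r < 30, Nat.Coprime r 30 → r ∈ R30 := by decide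

theorem pow_mod30 {p : ℕ} (hp : p.Prime) (h7 : 7 ≤ p) (k : ℕ) : p ^ k % 30 ∈ R30 := by
  have h1 : Nat.Coprime p 30 := by
    rw [Nat.Prime.coprime_iff_not_dvd hp]
    intro h
    have h2 := Nat.le_of_dvd (by norm_num) h
    have h3 : ∀ q < 31, 7 ≤ q → q ∣ 30 → ¬ q.Prime := by
      intro q hq h7 hd
      interval_cases q <;> first | omega | norm_num
    exact h3 p (by omega) h7 h hp
  refine mem_R30 _ (Nat.mod_lt _ (by norm_num)) ?_
  have h2 : Nat.Coprime (p ^ k) 30 := Nat.Coprime.pow_left k h1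
  have h3 : Nat.gcd (p ^ k % 30) 30 = Nat.gcd (p ^ k) 30 := (Nat.mod_modEq (p ^ k) 30).gcd_eq
  unfold Nat.Coprime at h2 ⊢
  rw [h3, h2]

/-- The sum over the powers of a set of primes. -/
theorem sum_primes {P : Finset ℕ} {J₀ K : ℕ} (hP : ∀ p ∈ P, p.Prime ∧ 7 ≤ p ∧ J₀ ≤ p / 30)
    {h : ℝ → ℝ} (h0 : ∀ y, 0 ≤ y → y ≤ 1 → 0 ≤ h y)
    (hmono : ∀ y z, 0 ≤ y → y ≤ z → z ≤ 1 → h y ≤ h z) {x : ℝ} (hx0 : 0 ≤ x) (hx1 : x ≤ 1) :
    ∃ J, J₀ ≤ J ∧ ∑ p ∈ P, ∑ k ∈ Finset.range K, h (x ^ (p ^ (k + 1))) ≤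
      8 * ∑ j ∈ Finset.Ico J₀ J, h ((x ^ 30) ^ j) := by
  classical
  set Q : Finset ℕ := (P ×ˢ Finset.range K).image fun t => t.1 ^ (t.2 + 1) with hQ
  have hinj : Set.InjOn (fun t : ℕ × ℕ => t.1 ^ (t.2 + 1)) (P ×ˢ Finset.range K : Finset (ℕ × ℕ)) := by
    rintro ⟨p, a⟩ hp ⟨q, b⟩ hq hpq
    have hp' := Finset.mem_product.1 (Finset.mem_coe.1 hp)
    have hq' := Finset.mem_product.1 (Finset.mem_coe.1 hq)
    have hpp := (hP p hp'.1).1
    have hqq := (hP q hq'.1).1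
    simp only at hpq
    have h1 : p ∣ q ^ (b + 1) := by
      rw [← hpq]
      exact dvd_pow_self p (by omega)
    have h2 : p = q := (Nat.prime_dvd_prime_iff_eq hpp hqq).1 (hpp.dvd_of_dvd_pow h1)
    subst h2
    have h3 := Nat.pow_right_injective hpp.two_le hpq
    simp only [Prod.mk.injEq, true_and]
    omega
  refine ⟨max J₀ (∑ m ∈ Q, m + 1), le_max_left _ _, ?_⟩
  have h1 : ∑ p ∈ P, ∑ k ∈ Finset.range K, h (x ^ (p ^ (k + 1))) = ∑ m ∈ Q, h (x ^ m) := by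
    rw [hQ, Finset.sum_image hinj, Finset.sum_product]
  rw [h1]
  have hxp : ∀ j : ℕ, 0 ≤ (x ^ 30) ^ j ∧ (x ^ 30) ^ j ≤ 1 := fun j =>
    ⟨by positivity, pow_le_one₀ (by positivity) (pow_le_one₀ hx0 hx1)⟩
  have key := sum_coprime (Q := Q) (J₀ := J₀) (J := max J₀ (∑ m ∈ Q, m + 1))
    (F := fun m => h (x ^ m)) (f := fun j => h ((x ^ 30) ^ j)) ?_ ?_ ?_
  · exact key
  · intro m hm
    have hm' := hm
    rw [hQ, Finset.mem_image] at hm
    obtain ⟨⟨p, k⟩, ht, rfl⟩ := hm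
    have hp := hP p (Finset.mem_product.1 ht).1
    refine ⟨pow_mod30 hp.1 hp.2.1 _, hp.2.2.trans (Nat.div_le_div_right ?_), ?_⟩
    · calc p = p ^ 1 := (pow_one p).symm
        _ ≤ p ^ (k + 1) := Nat.pow_le_pow_right hp.1.pos (by omega)
    · have h2 := Finset.single_le_sum (f := fun m : ℕ => m) (fun _ _ => Nat.zero_le _) hm'
      simp only at h2
      refine lt_of_le_of_lt ((Nat.div_le_self _ _).trans h2) ?_
      have := le_max_right J₀ (∑ m ∈ Q, m + 1)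
      omega
  · exact fun j => h0 _ (hxp j).1 (hxp j).2
  · intro m _
    refine hmono _ _ (by positivity) ?_ (hxp _).2
    rw [← pow_mul]
    exact pow_le_pow_of_le_one hx0 hx1 (Nat.mul_div_le m 30)

/-! ### Fixed point arithmetic -/

/-- An upper bound for `2 ^ 64 z ^ p`, if `y` is one for `2 ^ 64 z`. -/
def pu (y p : ℕ) : ℕ := y ^ p / 2 ^ (64 * (p - 1)) + 1

/-- The sum of the iterated powers. -/
def ps (p : ℕ) : ℕ → ℕ → ℕ
  | 0, _ => 0
  | K + 1, y => y + ps p K (pu y p)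

/-- An upper bound for the product. -/
def prodN (X K : ℕ) : List ℕ → ℕ
  | [] => 2 ^ 64
  | p :: L => prodN X K L * (2 ^ 64 + ps p K (pu X p)) / 2 ^ 64 + 1

theorem pu_spec {y p : ℕ} (hp : 1 ≤ p) {z : ℝ} (hz : 0 ≤ z) (h : z * 2 ^ 64 ≤ y) :
    z ^ p * 2 ^ 64 ≤ (pu y p : ℕ) := by
  unfold pu
  have h1 : (z * 2 ^ 64) ^ p ≤ (y : ℝ) ^ p := pow_le_pow_left₀ (by positivity) h p
  have h2 : y ^ p < (y ^ p / 2 ^ (64 * (p - 1)) + 1) * 2 ^ (64 * (p - 1)) := by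
    have h3 := Nat.lt_div_mul_add (a := y ^ p) (b := 2 ^ (64 * (p - 1))) (by positivity)
    rw [add_mul, one_mul]
    exact h3
  have h3 : (y : ℝ) ^ p ≤ ((y ^ p / 2 ^ (64 * (p - 1)) + 1 : ℕ) : ℝ) * 2 ^ (64 * (p - 1)) := by
    exact_mod_cast h2.le
  have h4 : (z * 2 ^ 64) ^ p = z ^ p * 2 ^ 64 * 2 ^ (64 * (p - 1)) := by
    rw [mul_pow, ← pow_mul, mul_assoc, ← pow_add]
    congr 2
    have : 64 * (p - 1) + 64 = 64 * p := by omega
    omega
  rw [h4] at h1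
  exact le_of_mul_le_mul_right (h1.trans h3) (by positivity)

theorem ps_spec {p : ℕ} (hp : 1 ≤ p) (K : ℕ) : ∀ {y : ℕ} {z : ℝ}, 0 ≤ z → z * 2 ^ 64 ≤ y →
    (∑ k ∈ Finset.range K, z ^ (p ^ k)) * 2 ^ 64 ≤ (ps p K y : ℕ) := by
  induction K with
  | zero => intro y z _ _; simp [ps]
  | succ K ih =>
    intro y z hz h
    unfold ps
    rw [Finset.sum_range_succ', add_mul, pow_zero, pow_one, add_comm]
    push_cast
    refine add_le_add h ?_
    have h1 := ih (y := pu y p) (z := z ^ p) (by positivity) (pu_spec hp hz h)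
    refine le_trans (le_of_eq ?_) h1
    congr 1
    refine Finset.sum_congr rfl fun k _ => ?_
    rw [← pow_mul, ← pow_succ']

theorem prodN_spec {X K : ℕ} {x : ℝ} (hx : 0 ≤ x) (h : x * 2 ^ 64 ≤ X) (L : List ℕ)
    (hL : ∀ p ∈ L, 1 ≤ p) :
    (L.map fun p => 1 + ∑ k ∈ Finset.range K, x ^ (p ^ (k + 1))).prod * 2 ^ 64 ≤ (prodN X K L : ℕ) := by
  induction L with
  | nil => norm_num [prodN]
  | cons p L ih =>
    have h1 := ih fun q hq => hL q (List.mem_cons_of_mem _ hq)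
    have hp := hL p List.mem_cons_self
    rw [List.map_cons, List.prod_cons]
    set G := (L.map fun p => 1 + ∑ k ∈ Finset.range K, x ^ (p ^ (k + 1))).prod
    unfold prodN
    have h2 : (∑ k ∈ Finset.range K, x ^ (p ^ (k + 1))) * 2 ^ 64 ≤ (ps p K (pu X p) : ℕ) := by
      refine le_trans (le_of_eq ?_) (ps_spec hp K (z := x ^ p) (by positivity) (pu_spec hp hx h))
      congr 1
      refine Finset.sum_congr rfl fun k _ => ?_
      rw [← pow_mul, ← pow_succ']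
    set s := ∑ k ∈ Finset.range K, x ^ (p ^ (k + 1)) with hs
    have hs0 : 0 ≤ s := Finset.sum_nonneg fun _ _ => by positivity
    set A := prodN X K L
    set B := ps p K (pu X p)
    have h3 : A * (2 ^ 64 + B) < (A * (2 ^ 64 + B) / 2 ^ 64 + 1) * 2 ^ 64 := by
      have h4 := Nat.lt_div_mul_add (a := A * (2 ^ 64 + B)) (b := 2 ^ 64) (by positivity)
      rw [add_mul, one_mul]
      exact h4
    have h4 : (A : ℝ) * (2 ^ 64 + B) ≤ ((A * (2 ^ 64 + B) / 2 ^ 64 + 1 : ℕ) : ℝ) * 2 ^ 64 := by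
      exact_mod_cast h3.le
    have h5 : (G * 2 ^ 64) * (2 ^ 64 + s * 2 ^ 64) ≤ (A : ℝ) * (2 ^ 64 + B) :=
      mul_le_mul h1 (by linarith) (by positivity) (by positivity)
    have h6 : (G * 2 ^ 64) * (2 ^ 64 + s * 2 ^ 64) = (1 + s) * G * 2 ^ 64 * 2 ^ 64 := by ring
    rw [h6] at h5
    exact le_of_mul_le_mul_right (h5.trans h4) (by positivity)

/-- The primes up to `2010`. -/
def pr2 : List ℕ := [
  2, 3, 5, 7, 11, 13, 17, 19, 23, 29, 31, 37, 41, 43, 47, 53, 59, 61, 67, 71, 73, 79, 83, 89, 97,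
  101, 103, 107, 109, 113, 127, 131, 137, 139, 149, 151, 157, 163, 167, 173, 179, 181, 191, 193,
  197, 199, 211, 223, 227, 229, 233, 239, 241, 251, 257, 263, 269, 271, 277, 281, 283, 293, 307,
  311, 313, 317, 331, 337, 347, 349, 353, 359, 367, 373, 379, 383, 389, 397, 401, 409, 419, 421,
  431, 433, 439, 443, 449, 457, 461, 463, 467, 479, 487, 491, 499, 503, 509, 521, 523, 541, 547,
  557, 563, 569, 571, 577, 587, 593, 599, 601, 607, 613, 617, 619, 631, 641, 643, 647, 653, 659,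
  661, 673, 677, 683, 691, 701, 709, 719, 727, 733, 739, 743, 751, 757, 761, 769, 773, 787, 797,
  809, 811, 821, 823, 827, 829, 839, 853, 857, 859, 863, 877, 881, 883, 887, 907, 911, 919, 929,
  937, 941, 947, 953, 967, 971, 977, 983, 991, 997, 1009, 1013, 1019, 1021, 1031, 1033, 1039,
  1049, 1051, 1061, 1063, 1069, 1087, 1091, 1093, 1097, 1103, 1109, 1117, 1123, 1129, 1151, 1153,
  1163, 1171, 1181, 1187, 1193, 1201, 1213, 1217, 1223, 1229, 1231, 1237, 1249, 1259, 1277, 1279,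
  1283, 1289, 1291, 1297, 1301, 1303, 1307, 1319, 1321, 1327, 1361, 1367, 1373, 1381, 1399, 1409,
  1423, 1427, 1429, 1433, 1439, 1447, 1451, 1453, 1459, 1471, 1481, 1483, 1487, 1489, 1493, 1499,
  1511, 1523, 1531, 1543, 1549, 1553, 1559, 1567, 1571, 1579, 1583, 1597, 1601, 1607, 1609, 1613,
  1619, 1621, 1627, 1637, 1657, 1663, 1667, 1669, 1693, 1697, 1699, 1709, 1721, 1723, 1733, 1741,
  1747, 1753, 1759, 1777, 1783, 1787, 1789, 1801, 1811, 1823, 1831, 1847, 1861, 1867, 1871, 1873,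
  1877, 1879, 1889, 1901, 1907, 1913, 1931, 1933, 1949, 1951, 1973, 1979, 1987, 1993, 1997, 1999,
  2003]

theorem pr2_complete' : ∀ q < 2011, q < 2 ∨ q ∈ pr2 ∨
    ∃ d ∈ [2, 3, 5, 7, 11, 13, 17, 19, 23, 29, 31, 37, 41, 43], q % d = 0 ∧ d < q := by decide +kernel

theorem pr2_complete {q : ℕ} (hq : q.Prime) (h : q ≤ 2010) : q ∈ pr2 := by
  rcases pr2_complete' q (by omega) with h1 | h1 | ⟨d, h1, h2, h3⟩
  · exact absurd hq.two_le (by omega)
  · exact h1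
  · exfalso
    have h4 : d ∣ q := Nat.dvd_of_mod_eq_zero h2
    rcases (Nat.dvd_prime hq).1 h4 with h5 | h5
    · subst h5
      simp at h1
    · omega

theorem pr2_pos : ∀ p ∈ pr2, 1 ≤ p := by decide +kernel

/-- The test for a block. -/
def blk (S a j t : ℕ) : Bool :=
  Nat.ble (8 * pu (2 * S * S * 2 ^ 64 / (2 * S * S + 2 * S + 1) + 1) 2010 * S * S * 1000)
    (t * 2 ^ 64 * 30 * (S - 15)) &&
  (Nat.ble ((j * S * 1000 + a * 64 * 1000 + t * 64 * S) ^ 2) (a * (64 * S * 1000) ^ 2) &&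
  Nat.ble (prodN (2 * S * S * 2 ^ 64 / (2 * S * S + 2 * S + 1) + 1) 17 pr2 * 8192 ^ j)
    (2 ^ 64 * 8321 ^ j))

theorem blk1 : blk 70 855 1089 1 = true := by decide +kernel

theorem blk2 : blk 95 1055 1366 1 = true := by decide +kernel

theorem blk3 : blk 150 1750 1927 1 = true := by decide +kernel

theorem blk4 : blk 300 4400 3290 104 = true := by decide +kernel

theorem blk5 : blk 600 13100 5553 5758 = true := by decide +kernel

theorem blk6 : blk 1000 37400 7651 36275 = true := by decide +kernel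

end Pool.Agent.Q275.SymOrd
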