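import Pool.Agent.Q275.SymOrdC

/-!
# The number of orders of permutations of `n` points is at most `exp √n`
-/

set_option autoImplicit false

namespace Pool.Agent.Q275.SymOrd

open Finset

/-- `1 - exp (-u) ≥ u - u ^ 2 / 2`. -/
theorem one_sub_exp {u : ℝ} (hu : 0 ≤ u) : u - u ^ 2 / 2 ≤ 1 - Real.exp (-u) := by
  have h1 := Real.quadratic_le_exp_of_nonneg hu
  have h2 : 0 < 1 + u + u ^ 2 / 2 := by positivity
  have h3 : Real.exp (-u) ≤ 1 / (1 + u + u ^ 2 / 2) := by
    rw [Real.exp_neg, ← one_div]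
    exact one_div_le_one_div_of_le h2 h1
  have h4 : 1 / (1 + u + u ^ 2 / 2) ≤ 1 - u + u ^ 2 / 2 := by
    rw [div_le_iff₀ h2]
    nlinarith [sq_nonneg (u ^ 2)]
  linarith

theorem geom_Ico {y : ℝ} (hy0 : 0 ≤ y) (hy1 : y < 1) (a b : ℕ) :
    ∑ j ∈ Finset.Ico a b, y ^ j ≤ y ^ a / (1 - y) := by
  have h1 : 0 < 1 - y := by linarith
  rcases le_total b a with h | h
  · rw [Finset.Ico_eq_empty (by omega), Finset.sum_empty]
    positivity
  · rw [geom_sum_Ico' hy1.ne h]
    refine div_le_div_of_nonneg_right ?_ h1.le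
    have : 0 ≤ y ^ b := by positivity
    linarith

/-- The primes up to `n`, those up to `2010` first. -/
noncomputable def LL (n : ℕ) : List ℕ :=
  pr2 ++ ((Finset.range (n + 1)).filter fun p => p.Prime ∧ 2010 < p).toList

theorem mem_LL {n p : ℕ} (hp : p.Prime) (h : p ≤ n) : p ∈ LL n := by
  unfold LL
  rw [List.mem_append, Finset.mem_toList, Finset.mem_filter, Finset.mem_range]
  by_cases h1 : p ≤ 2010
  · exact Or.inl (pr2_complete hp h1)
  · exact Or.inr ⟨by omega, hp, by omega⟩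

/-- The final inequality. -/
theorem final_ineq {S a j t n : ℕ} (hS0 : (0 : ℝ) < S)
    (c2 : (j * S * 1000 + a * 64 * 1000 + t * 64 * S) ^ 2 ≤ a * (64 * S * 1000) ^ 2)
    (han : a ≤ n) (hnS : 4 * n ≤ S ^ 2) : (j : ℝ) / 64 + t / 1000 + n / S ≤ Real.sqrt n := by
  have d1 : (j : ℝ) / 64 + a / S + t / 1000 ≤ Real.sqrt a := by
    refine Real.le_sqrt_of_sq_le ?_
    have d2 : ((j * S * 1000 + a * 64 * 1000 + t * 64 * S : ℝ)) ^ 2 ≤ a * (64 * S * 1000) ^ 2 := by
      exact_mod_cast c2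
    have d3 : (j : ℝ) / 64 + a / S + t / 1000 =
        (j * S * 1000 + a * 64 * 1000 + t * 64 * S) / (64 * S * 1000) := by
      field_simp
    rw [d3, div_pow, div_le_iff₀ (by positivity)]
    exact d2
  have d2 : Real.sqrt n * Real.sqrt n = n := Real.mul_self_sqrt (by positivity)
  have d3 : Real.sqrt a * Real.sqrt a = a := Real.mul_self_sqrt (by positivity)
  have d4 : Real.sqrt a ≤ Real.sqrt n := Real.sqrt_le_sqrt (by exact_mod_cast han)
  have d5 : 2 * Real.sqrt n ≤ S := by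
    have : Real.sqrt n ≤ S / 2 := by
      rw [Real.sqrt_le_left (by positivity)]
      have : (4 * n : ℝ) ≤ S ^ 2 := by exact_mod_cast hnS
      nlinarith
    linarith
  have d6 : (n : ℝ) / S - a / S ≤ Real.sqrt n - Real.sqrt a := by
    rw [← sub_div, div_le_iff₀ hS0]
    nlinarith
  linarith


set_option maxHeartbeats 1000000 in
/-- The bound for a block. -/
theorem block {S a j t n : ℕ} (hS : 60 ≤ S) (h : blk S a j t = true) (han : a ≤ n) (hnS : 4 * n ≤ S ^ 2)
    (hn : n < 2 ^ 18) :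
    ((Set.range fun σ : Equiv.Perm (Fin n) => orderOf σ).ncard : ℝ) ≤ Real.exp (Real.sqrt n) := by
  simp only [blk, Bool.and_eq_true, Nat.ble_eq] at h
  obtain ⟨c1, c2, c3⟩ := h
  set X := 2 * S * S * 2 ^ 64 / (2 * S * S + 2 * S + 1) + 1 with hX
  have h1 := orders_le (K := 17) (n := n) (LL n) (fun p hp hpn => mem_LL hp hpn) hn
  have hS0 : (0 : ℝ) < S := by
    have : (60 : ℝ) ≤ S := by exact_mod_cast hS
    linarith
  have hS60 : (60 : ℝ) ≤ S := by exact_mod_cast hS
  set x := Real.exp (-(1 / S : ℝ)) with hx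
  have hx0 : 0 ≤ x := (Real.exp_pos _).le
  have hx1 : x ≤ 1 := Real.exp_le_one_iff.2 (by
    have : (0 : ℝ) ≤ 1 / S := by positivity
    linarith)
  -- the approximation of `x`
  have hxX : x * 2 ^ 64 ≤ X := by
    have a1 := Real.quadratic_le_exp_of_nonneg (show (0 : ℝ) ≤ 1 / S by positivity)
    have a2 : x ≤ 2 * S * S / (2 * S * S + 2 * S + 1) := by
      rw [hx, Real.exp_neg, inv_le_comm₀ (Real.exp_pos _) (by positivity)]
      refine le_trans (le_of_eq ?_) a1
      field_simp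
    have a3 : 2 * S * S * 2 ^ 64 < X * (2 * S * S + 2 * S + 1) := by
      have := Nat.lt_div_mul_add (a := 2 * S * S * 2 ^ 64) (b := 2 * S * S + 2 * S + 1) (by positivity)
      rw [hX, add_mul, one_mul]
      exact this
    have a4 : (2 * S * S * 2 ^ 64 : ℝ) ≤ X * (2 * S * S + 2 * S + 1) := by exact_mod_cast a3.le
    have a5 : x * 2 ^ 64 ≤ 2 * S * S / (2 * S * S + 2 * S + 1) * 2 ^ 64 := by gcongr
    refine a5.trans ?_
    rw [div_mul_eq_mul_div, div_le_iff₀ (by positivity)]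
    exact a4
  have h2 := rankin' (K := 17) hx0 hx1 (LL n) n
  set f : ℕ → ℝ := fun p => 1 + ∑ k ∈ Finset.range 17, x ^ (p ^ (k + 1)) with hf
  set P := (Finset.range (n + 1)).filter fun p => p.Prime ∧ 2010 < p with hP
  have h3 : ((LL n).map f).prod = (pr2.map f).prod * ∏ p ∈ P, f p := by
    unfold LL
    rw [List.map_append, List.prod_append, Finset.prod_map_toList]
  rw [h3] at h2
  have h4 := prodN_spec (K := 17) hx0 hxX pr2 pr2_pos
  have h5 : ∏ p ∈ P, f p ≤ Real.exp (∑ p ∈ P, ∑ k ∈ Finset.range 17, x ^ (p ^ (k + 1))) := by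
    rw [Real.exp_sum]
    refine Finset.prod_le_prod (fun p _ => ?_) fun p _ => ?_
    · have : 0 ≤ ∑ k ∈ Finset.range 17, x ^ (p ^ (k + 1)) := Finset.sum_nonneg fun _ _ => by positivity
      simp only [hf]
      linarith
    · have := Real.add_one_le_exp (∑ k ∈ Finset.range 17, x ^ (p ^ (k + 1)))
      simp only [hf]
      linarith
  -- the tail
  have hy : x ^ 30 = Real.exp (-(30 / S : ℝ)) := by
    rw [hx, ← Real.exp_nat_mul]
    congr 1
    push_cast
    ring
  have hy1 : x ^ 30 < 1 := by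
    rw [hy, Real.exp_lt_one_iff]
    have : (0 : ℝ) < 30 / S := by positivity
    linarith
  have h6 : ∑ p ∈ P, ∑ k ∈ Finset.range 17, x ^ (p ^ (k + 1)) ≤ t / 1000 := by
    obtain ⟨J, hJ, h7⟩ := sum_primes (P := P) (J₀ := 67) (K := 17) (fun p hp => by
      obtain ⟨-, hp1, hp2⟩ := Finset.mem_filter.1 hp
      exact ⟨hp1, by omega, by omega⟩) (h := fun y => y) (fun y hy _ => hy) (fun y z _ h _ => h) hx0 hx1
    refine h7.trans ?_
    have h8 := geom_Ico (y := x ^ 30) (by positivity) hy1 67 J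
    have h9 : 30 * ((S : ℝ) - 15) / S ^ 2 ≤ 1 - x ^ 30 := by
      rw [hy]
      refine le_trans (le_of_eq ?_) (one_sub_exp (show (0 : ℝ) ≤ 30 / S by positivity))
      field_simp
      ring
    have h10 : 0 < 30 * ((S : ℝ) - 15) / S ^ 2 := by
      have : (0 : ℝ) < S - 15 := by linarith
      positivity
    have h11 : (x ^ 30) ^ 67 * 2 ^ 64 ≤ (pu X 2010 : ℕ) := by
      have := pu_spec (p := 2010) (by norm_num) hx0 hxX
      rw [← pow_mul]
      exact this
    have h12 : (8 * (pu X 2010 : ℕ) * S * S * 1000 : ℝ) ≤ t * 2 ^ 64 * 30 * (S - 15) := by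
      have : ((8 * pu X 2010 * S * S * 1000 : ℕ) : ℝ) ≤ ((t * 2 ^ 64 * 30 * (S - 15) : ℕ) : ℝ) := by
        exact_mod_cast c1
      push_cast at this
      rw [Nat.cast_sub (by omega)] at this
      exact_mod_cast this
    calc 8 * ∑ j ∈ Finset.Ico 67 J, (x ^ 30) ^ j ≤ 8 * ((x ^ 30) ^ 67 / (1 - x ^ 30)) := by linarith
      _ ≤ 8 * ((x ^ 30) ^ 67 / (30 * ((S : ℝ) - 15) / S ^ 2)) := by gcongr
      _ ≤ t / 1000 := by
        have h13 : (0 : ℝ) < S - 15 := by linarith
        rw [div_div_eq_mul_div, mul_div_assoc', div_le_div_iff₀ (by positivity) (by norm_num)]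
        have h14 : (x ^ 30) ^ 67 * 2 ^ 64 * (8 * S * S * 1000) ≤
            (pu X 2010 : ℕ) * (8 * S * S * 1000 : ℝ) := mul_le_mul_of_nonneg_right h11 (by positivity)
        have h15 : (x ^ 30) ^ 67 * 2 ^ 64 * (8 * S * S * 1000) ≤ t * 2 ^ 64 * 30 * ((S : ℝ) - 15) := by
          refine h14.trans (le_trans (le_of_eq ?_) h12)
          ring
        have h16 : (8 * ((x ^ 30) ^ 67 * (S : ℝ) ^ 2) * 1000) * 2 ^ 64 ≤
            (t * (30 * ((S : ℝ) - 15))) * 2 ^ 64 := by
          refine le_trans (le_of_eq ?_) (h15.trans (le_of_eq ?_)) <;> ring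
        exact le_of_mul_le_mul_right h16 (by positivity)
  -- the product
  have h7 : (pr2.map f).prod ≤ Real.exp (j / 64) := by
    have b1 : ((prodN X 17 pr2 : ℕ) : ℝ) * 8192 ^ j ≤ 2 ^ 64 * 8321 ^ j := by exact_mod_cast c3
    have b2 : ((prodN X 17 pr2 : ℕ) : ℝ) * 8192 ^ j ≤ 2 ^ 64 * (8192 ^ j * Real.exp (j / 64)) :=
      b1.trans (mul_le_mul_of_nonneg_left (exp_lower_pow j) (by positivity))
    have b3 : (pr2.map f).prod * 2 ^ 64 * 8192 ^ j ≤ 2 ^ 64 * (8192 ^ j * Real.exp (j / 64)) :=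
      (mul_le_mul_of_nonneg_right h4 (by positivity)).trans b2
    have b4 : (pr2.map f).prod * (2 ^ 64 * 8192 ^ j) ≤ Real.exp (j / 64) * (2 ^ 64 * 8192 ^ j) := by
      refine le_trans (le_of_eq ?_) (b3.trans (le_of_eq ?_)) <;> ring
    exact le_of_mul_le_mul_right b4 (by positivity)
  have h8 : (cnt 17 (LL n) n : ℝ) * x ^ n ≤ Real.exp (j / 64) * Real.exp (t / 1000) := by
    refine h2.trans (mul_le_mul h7 (h5.trans (Real.exp_le_exp.2 h6)) ?_ (Real.exp_pos _).le)
    refine Finset.prod_nonneg fun p _ => ?_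
    have : 0 ≤ ∑ k ∈ Finset.range 17, x ^ (p ^ (k + 1)) := Finset.sum_nonneg fun _ _ => by positivity
    simp only [hf]
    linarith
  have h9 : (cnt 17 (LL n) n : ℝ) ≤ Real.exp (j / 64 + t / 1000 + n / S) := by
    have e1 : x ^ n = Real.exp (-(n / S : ℝ)) := by
      rw [hx, ← Real.exp_nat_mul]
      congr 1
      ring
    rw [e1, Real.exp_neg, ← div_eq_mul_inv, div_le_iff₀ (Real.exp_pos _), ← Real.exp_add,
      ← Real.exp_add] at h8
    exact h8
  refine le_trans (Nat.cast_le.2 h1) (h9.trans (Real.exp_le_exp.2 ?_))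
  exact final_ineq hS0 c2 han hnS

end Pool.Agent.Q275.SymOrd
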