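import Pool.Agent.Q275.SymOrdD

/-!
# The range `n ≥ 250000`
-/

set_option autoImplicit false

namespace Pool.Agent.Q275.SymOrd

open Finset

/-- The polynomial `y - y² / 2 + y³ / 3`. -/
noncomputable def g (y : ℝ) : ℝ := y - y ^ 2 / 2 + y ^ 3 / 3

theorem log_le_g {y : ℝ} (hy : 0 ≤ y) : Real.log (1 + y) ≤ g y := by
  have hmono : MonotoneOn (fun y : ℝ => g y - Real.log (1 + y)) (Set.Ici 0) := by
    refine monotoneOn_of_deriv_nonneg (convex_Ici 0) ?_ ?_ ?_
    · refine ContinuousOn.sub ?_ ?_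
      · unfold g
        fun_prop
      · refine ContinuousOn.log (by fun_prop) ?_
        intro z hz
        have : (0 : ℝ) ≤ z := hz
        linarith
    · intro z hz
      rw [interior_Ici] at hz
      have hz0 : (0 : ℝ) < z := hz
      refine DifferentiableAt.differentiableWithinAt ?_
      refine DifferentiableAt.sub ?_ ?_
      · unfold g
        fun_prop
      · refine DifferentiableAt.log (by fun_prop) (by linarith)
    · intro z hz
      rw [interior_Ici] at hz
      have hz0 : (0 : ℝ) < z := hz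
      have h1 : HasDerivAt (fun y : ℝ => g y - Real.log (1 + y)) (1 - z + z ^ 2 - 1 / (1 + z)) z := by
        refine HasDerivAt.sub ?_ ?_
        · unfold g
          have a1 : HasDerivAt (fun y : ℝ => y - y ^ 2 / 2 + y ^ 3 / 3)
              (1 - (2 * z ^ (2 - 1) * 1) / 2 + (3 * z ^ (3 - 1) * 1) / 3) z := by
            refine HasDerivAt.add (HasDerivAt.sub (hasDerivAt_id z) ?_) ?_
            · exact_mod_cast ((hasDerivAt_id z).pow 2).div_const 2
            · exact_mod_cast ((hasDerivAt_id z).pow 3).div_const 3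
          refine a1.congr_deriv ?_
          norm_num
        · have a2 : HasDerivAt (fun y : ℝ => 1 + y) 1 z := by
            simpa using (hasDerivAt_id z).const_add 1
          exact a2.log (by linarith)
      rw [h1.deriv]
      have h2 : 1 - z + z ^ 2 - 1 / (1 + z) = z ^ 3 / (1 + z) := by
        field_simp
        ring
      rw [h2]
      positivity
  have h := hmono (Set.mem_Ici.2 le_rfl) (Set.mem_Ici.2 hy) hy
  simp only [g, add_zero, Real.log_one] at h ⊢
  norm_num at h
  linarith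

theorem one_add_le {y : ℝ} (hy : 0 ≤ y) : 1 + y ≤ Real.exp (g y) := by
  rw [← Real.log_le_iff_le_exp (by linarith)]
  exact log_le_g hy

theorem g_nonneg {y : ℝ} (hy : 0 ≤ y) (hy1 : y ≤ 1) : 0 ≤ g y := by
  unfold g
  have : 0 ≤ y ^ 3 := by positivity
  nlinarith

theorem g_mono {y z : ℝ} (hy : 0 ≤ y) (hyz : y ≤ z) (hz : z ≤ 1) : g y ≤ g z := by
  unfold g
  have h1 : z - z ^ 2 / 2 + z ^ 3 / 3 - (y - y ^ 2 / 2 + y ^ 3 / 3) =
      (z - y) * ((1 - (z + y) / 2) + (z ^ 2 + z * y + y ^ 2) / 3) := by ring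
  have h2 : 0 ≤ (z - y) * ((1 - (z + y) / 2) + (z ^ 2 + z * y + y ^ 2) / 3) := by
    refine mul_nonneg (by linarith) (add_nonneg (by linarith) ?_)
    have : 0 ≤ z := hy.trans hyz
    positivity
  linarith

/-- The sum of `g` over a geometric progression. -/
theorem sum_g {Y : ℝ} (h0 : 0 ≤ Y) (h1 : Y < 1) (J : ℕ) :
    ∑ j ∈ Finset.Ico 0 J, g (Y ^ j) ≤
      1 / (1 - Y) - 1 / (2 * (1 - Y ^ 2)) + 1 / (3 * (1 - Y ^ 3)) := by
  have e1 : 0 < 1 - Y := by linarith
  have e2 : 0 < 1 - Y ^ 2 := by nlinarith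
  have e3 : 0 < 1 - Y ^ 3 := by
    have : Y ^ 3 < 1 := pow_lt_one₀ h0 h1 (by norm_num)
    linarith
  have key : ∑ j ∈ Finset.Ico 0 J, g (Y ^ j) =
      1 / (1 - Y) - 1 / (2 * (1 - Y ^ 2)) + 1 / (3 * (1 - Y ^ 3)) -
      (Y ^ J / (1 - Y) - (Y ^ J) ^ 2 / (2 * (1 - Y ^ 2)) + (Y ^ J) ^ 3 / (3 * (1 - Y ^ 3))) := by
    rw [← Finset.range_eq_Ico]
    induction J with
    | zero => simp
    | succ J ih =>
      rw [Finset.sum_range_succ, ih, pow_succ]
      set u := Y ^ J
      unfold g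
      field_simp
      ring
  rw [key]
  set u := Y ^ J with hu
  have hu0 : 0 ≤ u := by positivity
  have hu1 : u ≤ 1 := pow_le_one₀ h0 h1.le
  have h2 : u ^ 2 / (2 * (1 - Y ^ 2)) ≤ u / (1 - Y) := by
    rw [div_le_div_iff₀ (by positivity) e1]
    have h3 : u ^ 2 ≤ u := by nlinarith
    have h4 : 1 - Y ≤ 2 * (1 - Y ^ 2) := by nlinarith
    calc u ^ 2 * (1 - Y) ≤ u * (1 - Y) := by gcongr
      _ ≤ u * (2 * (1 - Y ^ 2)) := by gcongr
  have h3 : 0 ≤ u ^ 3 / (3 * (1 - Y ^ 3)) := by positivity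
  linarith

theorem one_add_sum_le (K : ℕ) (a : ℕ → ℝ) (h : ∀ k, 0 ≤ a k) :
    1 + ∑ k ∈ Finset.range K, a k ≤ ∏ k ∈ Finset.range K, (1 + a k) := by
  induction K with
  | zero => simp
  | succ K ih =>
    rw [Finset.sum_range_succ, Finset.prod_range_succ]
    have h1 : 1 ≤ ∏ k ∈ Finset.range K, (1 + a k) := by
      refine le_trans ?_ ih
      have : 0 ≤ ∑ k ∈ Finset.range K, a k := Finset.sum_nonneg fun k _ => h k
      linarith
    have h2 := h K
    nlinarith

theorem K_bound : ∀ K : ℕ, 17 ≤ K → (K + 1) ^ 4 ≤ 2 ^ K := by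
  intro K hK
  induction K, hK using Nat.le_induction with
  | base => norm_num
  | succ K hK ih =>
    have h1 : (K + 1 + 1) ^ 4 ≤ 2 * (K + 1) ^ 4 := by
      have : (17 : ℤ) ≤ K := by exact_mod_cast hK
      have h2 : ((K : ℤ) + 1 + 1) ^ 4 ≤ 2 * ((K : ℤ) + 1) ^ 4 := by
        obtain ⟨c, hc⟩ : ∃ c : ℤ, (K : ℤ) = 17 + c := ⟨K - 17, by ring⟩
        have hc0 : 0 ≤ c := by linarith
        rw [hc]
        have h3 : 2 * (17 + c + 1) ^ 4 - (17 + c + 1 + 1) ^ 4 =
            c ^ 4 + 68 * c ^ 3 + 1722 * c ^ 2 + 19220 * c + 79631 := by ring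
        have h4 : 0 ≤ c ^ 4 + 68 * c ^ 3 + 1722 * c ^ 2 + 19220 * c + 79631 := by positivity
        linarith
      exact_mod_cast h2
    rw [pow_succ 2 K]
    omega

theorem log_bound {n : ℕ} (hn : 250000 ≤ n) :
    ((Nat.log 2 n : ℕ) : ℝ) + 1 ≤ Real.exp (Real.sqrt n / 100) := by
  set K := Nat.log 2 n with hK
  have h17 : 17 ≤ K := by
    rw [hK]
    exact (Nat.le_log_iff_pow_le (by norm_num) (by omega)).2 (by omega)
  have h1 : 2 ^ K ≤ n := Nat.pow_log_le_self 2 (by omega)
  have h2 := (K_bound K h17).trans h1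
  set s := Real.sqrt n with hs
  have hs0 : 0 ≤ s := Real.sqrt_nonneg _
  have hs2 : s * s = n := Real.mul_self_sqrt (by positivity)
  set u := Real.sqrt s with hu
  have hu0 : 0 ≤ u := Real.sqrt_nonneg _
  have hu2 : u * u = s := Real.mul_self_sqrt hs0
  have h3 : ((K : ℝ) + 1) ^ 4 ≤ u ^ 4 := by
    have e : u ^ 4 = n := by
      rw [← hs2, ← hu2]
      ring
    rw [e]
    exact_mod_cast h2
  have h4 : (K : ℝ) + 1 ≤ u := le_of_pow_le_pow_left₀ (by norm_num) hu0 h3
  have h500 : 500 ≤ s := by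
    rw [hs]
    refine Real.le_sqrt_of_sq_le ?_
    have : (250000 : ℝ) ≤ n := by exact_mod_cast hn
    linarith
  have h22 : 22 ≤ u := by
    rw [hu]
    refine Real.le_sqrt_of_sq_le ?_
    linarith
  refine h4.trans ?_
  have h5 := Real.sum_le_exp_of_nonneg (show 0 ≤ s / 100 by positivity) 4
  refine le_trans ?_ h5
  simp only [Finset.sum_range_succ, Finset.sum_range_zero, Nat.factorial]
  rw [← hu2]
  have h6 : (22 : ℝ) ^ 3 ≤ u ^ 3 := pow_le_pow_left₀ (by norm_num) h22 3
  have h7 : (22 : ℝ) ^ 5 ≤ u ^ 5 := pow_le_pow_left₀ (by norm_num) h22 5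
  have h8 : u * 22 ^ 3 ≤ u * u ^ 3 := by gcongr
  have h9 : u * 22 ^ 5 ≤ u * u ^ 5 := by gcongr
  have e1 : (u * u / 100) ^ 2 = u * u ^ 3 / 10000 := by ring
  have e2 : (u * u / 100) ^ 3 = u * u ^ 5 / 1000000 := by ring
  push_cast
  rw [e1, e2]
  have h10 : 0 ≤ (u * u / 100) := by positivity
  norm_num
  norm_num at h8 h9
  linarith

/-- The primes `2, 3, 5` and the other primes up to `n`. -/
noncomputable def LB (n : ℕ) : List ℕ :=
  [2, 3, 5] ++ ((Finset.range (n + 1)).filter fun p => p.Prime ∧ 7 ≤ p).toList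

theorem mem_LB {n p : ℕ} (hp : p.Prime) (h : p ≤ n) : p ∈ LB n := by
  unfold LB
  rw [List.mem_append, Finset.mem_toList, Finset.mem_filter, Finset.mem_range]
  by_cases h1 : 7 ≤ p
  · exact Or.inr ⟨by omega, hp, h1⟩
  · left
    have h2 : p < 7 := by omega
    interval_cases p
    · exact absurd hp (by norm_num)
    · exact absurd hp (by norm_num)
    · simp
    · simp
    · exact absurd hp (by norm_num)
    · simp
    · exact absurd hp (by norm_num)

theorem large {n : ℕ} (hn : 250000 ≤ n) :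
    ((Set.range fun σ : Equiv.Perm (Fin n) => orderOf σ).ncard : ℝ) ≤ Real.exp (Real.sqrt n) := by
  set K := Nat.log 2 n with hK
  have h1 := orders_le (K := K) (n := n) (LB n) (fun p hp hpn => mem_LB hp hpn)
    (Nat.lt_pow_succ_log_self (by norm_num) n)
  have hlog := log_bound hn
  rw [← hK] at hlog
  set s := Real.sqrt n with hs
  have h500 : 500 ≤ s := by
    rw [hs]
    refine Real.le_sqrt_of_sq_le ?_
    have : (250000 : ℝ) ≤ n := by exact_mod_cast hn
    linarith
  have hs2 : s * s = n := Real.mul_self_sqrt (by positivity)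
  set S : ℝ := 2 * s with hS
  have hS0 : 0 < S := by linarith
  set x := Real.exp (-(1 / S)) with hx
  have hx0 : 0 ≤ x := (Real.exp_pos _).le
  have hx1 : x ≤ 1 := Real.exp_le_one_iff.2 (by
    have : (0 : ℝ) ≤ 1 / S := by positivity
    linarith)
  have h2 := rankin' (K := K) hx0 hx1 (LB n) n
  set f : ℕ → ℝ := fun p => 1 + ∑ k ∈ Finset.range K, x ^ (p ^ (k + 1)) with hf
  set P := (Finset.range (n + 1)).filter fun p => p.Prime ∧ 7 ≤ p with hP
  have hf1 : ∀ p, f p ≤ K + 1 := by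
    intro p
    have : ∑ k ∈ Finset.range K, x ^ (p ^ (k + 1)) ≤ ∑ k ∈ Finset.range K, (1 : ℝ) :=
      Finset.sum_le_sum fun k _ => pow_le_one₀ hx0 hx1
    rw [Finset.sum_const, Finset.card_range, nsmul_eq_mul, mul_one] at this
    simp only [hf]
    linarith
  have hf0 : ∀ p, 0 ≤ f p := by
    intro p
    have : 0 ≤ ∑ k ∈ Finset.range K, x ^ (p ^ (k + 1)) := Finset.sum_nonneg fun _ _ => by positivity
    simp only [hf]
    linarith
  have h3 : ((LB n).map f).prod = f 2 * (f 3 * f 5) * ∏ p ∈ P, f p := by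
    unfold LB
    rw [List.map_append, List.prod_append, Finset.prod_map_toList]
    simp only [List.map_cons, List.map_nil, List.prod_cons, List.prod_nil, mul_one]
    rfl
  rw [h3] at h2
  have h5 : ∏ p ∈ P, f p ≤ Real.exp (∑ p ∈ P, ∑ k ∈ Finset.range K, g (x ^ (p ^ (k + 1)))) := by
    rw [Real.exp_sum]
    refine Finset.prod_le_prod (fun p _ => hf0 p) fun p _ => ?_
    rw [Real.exp_sum]
    have a1 : f p ≤ ∏ k ∈ Finset.range K, (1 + x ^ (p ^ (k + 1))) :=
      one_add_sum_le _ _ fun k => by positivity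
    refine a1.trans (Finset.prod_le_prod (fun k _ => by positivity) fun k _ => ?_)
    exact one_add_le (by positivity)
  have hy : x ^ 30 = Real.exp (-(30 / S)) := by
    rw [hx, ← Real.exp_nat_mul]
    congr 1
    push_cast
    ring
  set Y := x ^ 30 with hY
  have hY0 : 0 ≤ Y := by positivity
  have hu3 : 30 / S ≤ 3 / 100 := by
    rw [div_le_div_iff₀ hS0 (by norm_num)]
    linarith
  have hY1 : Y < 1 := by
    rw [hy, Real.exp_lt_one_iff]
    have : (0 : ℝ) < 30 / S := by positivity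
    linarith
  have hY97 : 97 / 100 ≤ Y := by
    rw [hy]
    have := Real.add_one_le_exp (-(30 / S))
    linarith
  have h6 : ∑ p ∈ P, ∑ k ∈ Finset.range K, g (x ^ (p ^ (k + 1))) ≤ 2341 / 10000 * S := by
    obtain ⟨J, hJ, h7⟩ := sum_primes (P := P) (J₀ := 0) (K := K) (fun p hp => by
      obtain ⟨-, hp1, hp2⟩ := Finset.mem_filter.1 hp
      exact ⟨hp1, by omega, by omega⟩) (h := g) (fun y hy hy1 => g_nonneg hy hy1)
      (fun y z hy hyz hz => g_mono hy hyz hz) hx0 hx1
    refine h7.trans ?_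
    have h8 := sum_g hY0 hY1 J
    have h9 : 30 / S * (985 / 1000) ≤ 1 - Y := by
      have b1 := one_sub_exp (show (0 : ℝ) ≤ 30 / S by positivity)
      rw [← hy] at b1
      have b2 : 0 ≤ 30 / S := by positivity
      nlinarith
    have e1 : 0 < 1 - Y := by linarith
    have h10 : 1 / (1 - Y) - 1 / (2 * (1 - Y ^ 2)) + 1 / (3 * (1 - Y ^ 3)) ≤
        (86453 / 100000) / (1 - Y) := by
      have c1 : 1 / (2 * (1 - Y ^ 2)) = (1 / (2 * (1 + Y))) / (1 - Y) := by
        have : (1 : ℝ) - Y ^ 2 = (1 - Y) * (1 + Y) := by ring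
        rw [this]
        field_simp
      have c2 : 1 / (3 * (1 - Y ^ 3)) = (1 / (3 * (1 + Y + Y ^ 2))) / (1 - Y) := by
        have : (1 : ℝ) - Y ^ 3 = (1 - Y) * (1 + Y + Y ^ 2) := by ring
        rw [this]
        field_simp
      rw [c1, c2, ← sub_div, ← add_div]
      refine div_le_div_of_nonneg_right ?_ e1.le
      have c3 : (1 : ℝ) / 4 ≤ 1 / (2 * (1 + Y)) :=
        one_div_le_one_div_of_le (by positivity) (by linarith)
      have c4 : 1 / (3 * (1 + Y + Y ^ 2)) ≤ 11453 / 100000 := by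
        rw [div_le_div_iff₀ (by positivity) (by norm_num)]
        nlinarith
      linarith
    calc 8 * ∑ j ∈ Finset.Ico 0 J, g (Y ^ j) ≤ 8 * ((86453 / 100000) / (1 - Y)) := by linarith
      _ ≤ 8 * ((86453 / 100000) / (30 / S * (985 / 1000))) := by gcongr
      _ ≤ 2341 / 10000 * S := by
        have : 8 * ((86453 / 100000) / (30 / S * (985 / 1000))) =
          (8 * 86453 / 100000 / (30 * (985 / 1000))) * S := by field_simp
        rw [this]
        refine mul_le_mul_of_nonneg_right ?_ hS0.le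
        norm_num
  have h7 : f 2 * (f 3 * f 5) ≤ Real.exp (3 * (s / 100)) := by
    have a1 : ∀ p, f p ≤ Real.exp (s / 100) := fun p => (hf1 p).trans hlog
    have a2 : Real.exp (3 * (s / 100)) = Real.exp (s / 100) * (Real.exp (s / 100) * Real.exp (s / 100)) := by
      rw [← Real.exp_add, ← Real.exp_add]
      congr 1
      ring
    rw [a2]
    have := hf0 3
    have := hf0 5
    have := hf0 2
    have b2 := a1 2
    have b3 := a1 3
    have b5 := a1 5
    gcongr
  have h8 : (cnt K (LB n) n : ℝ) * x ^ n ≤ Real.exp (3 * (s / 100)) * Real.exp (2341 / 10000 * S) :=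
    h2.trans (mul_le_mul h7 (h5.trans (Real.exp_le_exp.2 h6))
      (Finset.prod_nonneg fun p _ => hf0 p) (Real.exp_pos _).le)
  have h9 : (cnt K (LB n) n : ℝ) ≤ Real.exp (3 * (s / 100) + 2341 / 10000 * S + n / S) := by
    have e1 : x ^ n = Real.exp (-(n / S : ℝ)) := by
      rw [hx, ← Real.exp_nat_mul]
      congr 1
      ring
    rw [e1, Real.exp_neg, ← div_eq_mul_inv, div_le_iff₀ (Real.exp_pos _), ← Real.exp_add,
      ← Real.exp_add] at h8
    exact h8
  refine le_trans (Nat.cast_le.2 h1) (h9.trans (Real.exp_le_exp.2 ?_))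
  have e2 : (n : ℝ) / S = s / 2 := by
    rw [div_eq_iff hS0.ne', hS, ← hs2]
    ring
  rw [e2, hS]
  linarith

/-- **The number of orders of permutations of `n` points is at most `exp √n`.** -/
theorem all (n : ℕ) :
    ((Set.range fun σ : Equiv.Perm (Fin n) => orderOf σ).ncard : ℝ) ≤ Real.exp (Real.sqrt n) := by
  rcases Nat.lt_or_ge n 861 with h | h
  · exact small_n (by omega)
  rcases Nat.lt_or_ge n 1100 with h2 | h2
  · exact block (by norm_num) blk1 (by omega) (by omega) (by omega)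
  rcases Nat.lt_or_ge n 2000 with h3 | h3
  · exact block (by norm_num) blk2 (by omega) (by omega) (by omega)
  rcases Nat.lt_or_ge n 5000 with h4 | h4
  · exact block (by norm_num) blk3 (by omega) (by omega) (by omega)
  rcases Nat.lt_or_ge n 20000 with h5 | h5
  · exact block (by norm_num) blk4 (by omega) (by omega) (by omega)
  rcases Nat.lt_or_ge n 80000 with h6 | h6
  · exact block (by norm_num) blk5 (by omega) (by omega) (by omega)
  rcases Nat.lt_or_ge n 250000 with h7 | h7
  · exact block (by norm_num) blk6 (by omega) (by omega) (by omega)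
  exact large h7

end Pool.Agent.Q275.SymOrd
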